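import Pool.Agent.H144R4.Cyc.Stmts

set_option autoImplicit false

namespace Pool.Agent.H144R4.Cyc.Cong

open Finset
open Pool.Agent.H144R4.Cyc

variable {α : Type} [Fintype α] [DecidableEq α]

theorem congW (t : ℝ) (x y : ℕ → α) (s : ℕ) : ∀ (m i j : ℕ), j - i ≤ m → ∀ (u w : Option α),
    (∀ k, i ≤ k → k < j → x (k + s) = y k) →
      W t x u (i + s) (j + s) w = W t y u i j w := by
  intro m
  induction m with
  | zero =>
    intro i j hm u w _
    rw [W_nil _ _ _ _ _ _ (by omega), W_nil _ _ _ _ _ _ (by omega)]
  | succ m ih =>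
    intro i j hm u w h
    by_cases hij : i < j
    · rw [W_step _ _ _ _ _ _ (by omega : i + s < j + s), W_step _ _ _ _ _ _ hij]
      rw [show j + s - (i + s) = j - i by omega]
      congr 1
      rw [← Finset.sum_Ico_add']
      refine Finset.sum_congr rfl fun k hk => ?_
      rw [Finset.mem_Ico] at hk
      rw [show k + s - (i + s) = k - i by omega, h k hk.1 hk.2,
        ih i k (by omega) u (some (y k)) (fun l h1 h2 => h l h1 (by omega)),
        show k + s + 1 = (k + 1) + s by omega,
        ih (k + 1) j (by omega) (some (y k)) w (fun l h1 h2 => h l (by omega) h2)]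
    · rw [W_nil _ _ _ _ _ _ (by omega), W_nil _ _ _ _ _ _ (by omega)]

theorem congV (t : ℝ) (x y : ℕ → α) (β : Option α) (s : ℕ) : ∀ (m i j : ℕ), j - i ≤ m →
    ∀ (u w : Option α), (∀ k, i ≤ k → k < j → x (k + s) = y k) →
      V t x β u (i + s) (j + s) w = V t y β u i j w := by
  intro m
  induction m with
  | zero =>
    intro i j hm u w h
    rw [V_eq, V_eq, congW t x y s 0 i j hm u w h, show j + s - (i + s) = j - i by omega,
      Finset.Ico_eq_empty (by omega), Finset.Ico_eq_empty (by omega)]
    simp
  | succ m ih =>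
    intro i j hm u w h
    rw [V_eq, V_eq, congW t x y s (m + 1) i j hm u w h, show j + s - (i + s) = j - i by omega]
    congr 1
    rw [← Finset.sum_Ico_add']
    refine Finset.sum_congr rfl fun k hk => ?_
    rw [Finset.mem_Ico] at hk
    rw [show k + s - (i + s) = k - i by omega, h k hk.1 hk.2,
      congW t x y s m i k (by omega) u (some (y k)) (fun l h1 h2 => h l h1 (by omega)),
      show k + s + 1 = (k + 1) + s by omega,
      ih (k + 1) j (by omega) (some (y k)) w (fun l h1 h2 => h l (by omega) h2)]

theorem cong : StCong := by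
  intro α _ _ t x y β u w i j s h
  exact ⟨congW t x y s (j - i) i j le_rfl u w h, congV t x y β s (j - i) i j le_rfl u w h⟩

end Pool.Agent.H144R4.Cyc.Cong
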