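import Mathlib

set_option autoImplicit false

namespace Pool.Agent.H144R4.Cyc

open Finset

variable {α : Type} [Fintype α] [DecidableEq α]

/-- 0 if both boundary letters are present and equal, 1 otherwise -/
noncomputable def ok (u w : Option α) : ℝ := if u = w ∧ u ≠ none then 0 else 1

/-- 0 if the letter a is the forbidden colour β, 1 otherwise -/
noncomputable def nb (β : Option α) (a : α) : ℝ := if β = some a then 0 else 1

/-- W(u | x_i ... x_(j-1) | w): first-inserted recursion -/
noncomputable def W (t : ℝ) (x : ℕ → α) (u : Option α) (i j : ℕ) (w : Option α) : ℝ :=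
  if i < j then
    ok u w * (1 - t ^ (j - i))⁻¹ * ∑ k : {k // k ∈ Ico i j},
      t ^ (k.1 - i) * W t x u i k.1 (some (x k.1)) * W t x (some (x k.1)) (k.1 + 1) j w
  else ok u w
termination_by j - i
decreasing_by
  · have := Finset.mem_Ico.1 k.2; omega
  · have := Finset.mem_Ico.1 k.2; omega

theorem W_nil (t : ℝ) (x : ℕ → α) (u : Option α) (i j : ℕ) (w : Option α) (h : j ≤ i) :
    W t x u i j w = ok u w := by
  rw [W, if_neg (by omega)]

theorem W_step (t : ℝ) (x : ℕ → α) (u : Option α) (i j : ℕ) (w : Option α) (h : i < j) :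
    W t x u i j w = ok u w * (1 - t ^ (j - i))⁻¹ * ∑ k ∈ Ico i j,
      t ^ (k - i) * W t x u i k (some (x k)) * W t x (some (x k)) (k + 1) j w := by
  rw [W, if_pos h]
  congr 1
  exact Finset.sum_coe_sort (Ico i j)
    (fun k => t ^ (k - i) * W t x u i k (some (x k)) * W t x (some (x k)) (k + 1) j w)

/-- V_β(u | x_i ... x_(j-1) | w): sum over all sets of zero letters (colour not β) of the product
of the gap weights -/
noncomputable def V (t : ℝ) (x : ℕ → α) (β : Option α) (u : Option α) (i j : ℕ) (w : Option α) : ℝ :=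
  t ^ (j - i) * W t x u i j w + ∑ k : {k // k ∈ Ico i j},
      nb β (x k.1) * t ^ (k.1 - i) * W t x u i k.1 (some (x k.1)) * V t x β (some (x k.1)) (k.1 + 1) j w
termination_by j - i
decreasing_by
  · have := Finset.mem_Ico.1 k.2; omega

theorem V_eq (t : ℝ) (x : ℕ → α) (β : Option α) (u : Option α) (i j : ℕ) (w : Option α) :
    V t x β u i j w = t ^ (j - i) * W t x u i j w + ∑ k ∈ Ico i j,
      nb β (x k) * t ^ (k - i) * W t x u i k (some (x k)) * V t x β (some (x k)) (k + 1) j w := by
  rw [V]
  congr 1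
  exact Finset.sum_coe_sort (Ico i j)
    (fun k => nb β (x k) * t ^ (k - i) * W t x u i k (some (x k)) * V t x β (some (x k)) (k + 1) j w)

/-- the cyclic sum over sets of zero letters with at least two elements (one-element sets have
weight 0), no zero letter of colour β. Used with n-periodic x. -/
noncomputable def RR (t : ℝ) (β : Option α) (x : ℕ → α) (n : ℕ) : ℝ :=
  ∑ i ∈ range n, ∑ l ∈ Ico (i + 1) n, nb β (x i) * nb β (x l) *
    V t x β (some (x i)) (i + 1) l (some (x l)) * t ^ (n - 1 - (l - i)) *
    W t x (some (x l)) (l + 1) (i + n) (some (x i))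

/-- the cyclic weight (n-periodic x) -/
noncomputable def RT (t : ℝ) (x : ℕ → α) (n : ℕ) : ℝ :=
  (1 + t ^ n) * RR t none x n - t ^ n * ∑ b : α, (RR t none x n - RR t (some b) x n)

/-- periodic word with letter a at the positions divisible by n and X at 1..n-1 -/
def pr (n : ℕ) (a : α) (X : ℕ → α) (k : ℕ) : α := if k % n = 0 then a else X (k % n)

/-- periodic extension of a word on Fin n -/
def per {n : ℕ} (hn : 0 < n) (X : Fin n → α) (k : ℕ) : α := X ⟨k % n, Nat.mod_lt _ hn⟩

/-- standing hypothesis -/
def Par (α : Type) [Fintype α] (t : ℝ) : Prop := 0 < t ∧ t < 1 ∧ (Fintype.card α : ℝ) * t = (1 + t) ^ 2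

end Pool.Agent.H144R4.Cyc
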