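import Mathlib
import Pool.Agent.H144R4.Cyc.Defs

set_option autoImplicit false

namespace Pool.Agent.H144R4.Cyc

open Finset MeasureTheory ProbabilityTheory

/-! ## Algebraic part. W, V, RR, RT, ok, nb are in Defs.lean (unfold with W_nil, W_step, V_eq). -/

/-- CONG: W and V depend only on the letters at positions i..j-1, and are shift invariant. -/
def StCong : Prop := ∀ (α : Type) [Fintype α] [DecidableEq α] (t : ℝ) (x y : ℕ → α)
    (β u w : Option α) (i j s : ℕ),
    ((∀ k, i ≤ k → k < j → x (k + s) = y k) →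
      W t x u (i + s) (j + s) w = W t y u i j w ∧ V t x β u (i + s) (j + s) w = V t y β u i j w)

/-- SYM: invariance under permutations of the colours. -/
def StSym : Prop := ∀ (α : Type) [Fintype α] [DecidableEq α] (t : ℝ) (x : ℕ → α)
    (β u w : Option α) (i j n : ℕ) (σ : Equiv.Perm α),
    W t (fun k => σ (x k)) (u.map σ) i j (w.map σ) = W t x u i j w ∧
    V t (fun k => σ (x k)) (β.map σ) (u.map σ) i j (w.map σ) = V t x β u i j w ∧
    RR t (β.map σ) (fun k => σ (x k)) n = RR t β x n ∧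
    RT t (fun k => σ (x k)) n = RT t x n

/-- IMP: nonnegativity, and W vanishes on improper words. -/
def StImp : Prop := ∀ (α : Type) [Fintype α] [DecidableEq α] (t : ℝ), 0 < t → t < 1 →
    ∀ (x : ℕ → α) (u w : Option α) (i j : ℕ),
    0 ≤ W t x u i j w ∧ (∀ k, i ≤ k → k + 1 < j → x k = x (k + 1) → W t x u i j w = 0) ∧
    (i < j → u = some (x i) → W t x u i j w = 0) ∧
    (i < j → w = some (x (j - 1)) → W t x u i j w = 0)

/-- X1: removing the left boundary letter u (u not equal to w). -/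
def StX1 : Prop := ∀ (α : Type) [Fintype α] [DecidableEq α] (t : ℝ), 0 < t → t < 1 →
    ∀ (x : ℕ → α) (u : α) (w : Option α) (i j : ℕ), i ≤ j → w ≠ some u →
    W t x none i j w - W t x (some u) i j w = ∑ k ∈ Ico i j, if x k = u then
      t ^ (k - i) / (1 - t ^ (k - i + 1)) * W t x none i k (some u) * W t x (some u) (k + 1) j w
      else 0

/-- X2: removing the right boundary letter w (u not equal to w). -/
def StX2 : Prop := ∀ (α : Type) [Fintype α] [DecidableEq α] (t : ℝ), 0 < t → t < 1 →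
    ∀ (x : ℕ → α) (u : Option α) (w : α) (i j : ℕ), i ≤ j → u ≠ some w →
    W t x u i j none - W t x u i j (some w) = ∑ k ∈ Ico i j, if x k = w then
      1 / (1 - t ^ (j - k)) * W t x u i k (some w) * W t x (some w) (k + 1) j none
      else 0

/-- VR: right recursion for V. -/
def StVR : Prop := ∀ (α : Type) [Fintype α] [DecidableEq α] (t : ℝ)
    (x : ℕ → α) (β u w : Option α) (i j : ℕ),
    V t x β u i j w = t ^ (j - i) * W t x u i j w + ∑ k ∈ Ico i j,
      nb β (x k) * V t x β u i k (some (x k)) * t ^ (j - 1 - k) * W t x (some (x k)) (k + 1) j w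

/-- the linear sum over nonempty sets of zero letters (colour not β), left boundary u, right end free -/
noncomputable def UU {α : Type} [Fintype α] [DecidableEq α] (t : ℝ) (x : ℕ → α) (β u : Option α)
    (i j : ℕ) : ℝ :=
  ∑ k ∈ Ico i j, nb β (x k) * V t x β u i k (some (x k)) * t ^ (j - 1 - k) *
    W t x (some (x k)) (k + 1) j none

/-- U: value of the linear sum. -/
def StU : Prop := ∀ (α : Type) [Fintype α] [DecidableEq α] (t : ℝ), 0 < t → t < 1 →
    ∀ (x : ℕ → α) (u : Option α) (i j : ℕ), i ≤ j →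
    UU t x none u i j = (1 - t ^ (j - i)) * W t x u i j none ∧
    (∀ b : α, u ≠ some b → UU t x (some b) u i j = (1 - t ^ (j - i)) * W t x u i j none -
      ∑ k ∈ Ico i j, if x k = b then W t x u i k (some b) * W t x (some b) (k + 1) j none else 0)

/-- S2: colour sum of a letter a which is a boundary for both sides. -/
def StS2 : Prop := ∀ (α : Type) [Fintype α] [DecidableEq α] (t : ℝ), 0 < t → t < 1 →
    ∀ (x : ℕ → α) (u w : Option α) (i p j : ℕ), i ≤ p → p + 1 ≤ j →
    ∑ a : α, W t x u i p (some a) * W t x (some a) (p + 1) j w =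
      W t x u i p none * (((Fintype.card α : ℝ) - (if u = none then 0 else 1)
          - (if w = none ∨ w = u then 0 else 1)) * W t x none (p + 1) j w
        - ∑ k ∈ Ico (p + 1) j, if some (x k) = u then 0 else
            t ^ (k - (p + 1)) / (1 - t ^ (k - p)) * W t x none (p + 1) k (some (x k)) *
              W t x (some (x k)) (k + 1) j w)
      - ∑ k ∈ Ico i p, W t x u i k (some (x k)) * W t x (some (x k)) (k + 1) p none
          / (1 - t ^ (p - k)) * W t x (some (x k)) (p + 1) j w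

/-- S1: colour sum of an inserted letter a (at position p). -/
def StS1 : Prop := ∀ (α : Type) [Fintype α] [DecidableEq α] (t : ℝ), Par α t →
    ∀ (x : ℕ → α) (u w : Option α) (i p j : ℕ), i ≤ p → p + 1 ≤ j → (u = none ∨ u ≠ w) →
    ∑ a : α, W t (Function.update x p a) u i j w =
      (if u = none then 1 + t else t) * t ^ (p - i) * W t x u i p none / (1 - t ^ (p - i + 1)) *
        (W t x none (p + 1) j w - ∑ k ∈ Ico (p + 1) j, if u = some (x k) then
          t ^ (k - i) / (1 - t ^ (k - i + 1)) * W t x none (p + 1) k u * W t x u (k + 1) j w else 0)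
      + (if w = none then (1 + t) / t else 1 / t) * W t x none (p + 1) j w / (1 - t ^ (j - p)) *
        (W t x u i p none - ∑ k ∈ Ico i p, if w = some (x k) then
          1 / (1 - t ^ (j - k)) * W t x u i k w * W t x w (k + 1) p none else 0)

/-- LIN: the marginal identity, linear form; x restricted to 1..n-1 is the word, and
x (n + k) = x k there; position n is summed. -/
def StLin : Prop := ∀ (α : Type) [Fintype α] [DecidableEq α] (t : ℝ), Par α t →
    ∀ (x : ℕ → α) (β : Option α) (n : ℕ), 2 ≤ n → (∀ k, 1 ≤ k → k < n → x (n + k) = x k) →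
    ∑ i ∈ Ico 1 n, ∑ l ∈ Ico (i + 1) n, nb β (x i) * nb β (x l) *
        V t x β (some (x i)) (i + 1) l (some (x l)) * t ^ (n - 1 - (l - i)) *
        (∑ a : α, W t (Function.update x n a) (some (x l)) (l + 1) (i + n) (some (x i)))
      + ∑ a : α, ∑ l ∈ Ico 1 n, nb β a * nb β (x l) * V t x β (some a) 1 l (some (x l)) *
          t ^ (n - 1 - l) * W t x (some (x l)) (l + 1) n (some a)
    = (if β = none then (1 + t) / t else 1 / t) * UU t x β none 1 n
      + t ^ (n - 1) * ∑ k ∈ Ico 1 n, nb β (x k) * W t x none 1 k (some (x k)) *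
          W t x (some (x k)) (k + 1) n none

/-- MARG: the marginal identity for the cyclic weight. -/
def StMarg : Prop := ∀ (α : Type) [Fintype α] [DecidableEq α] (t : ℝ), Par α t →
    ∀ (X : ℕ → α) (n : ℕ), 2 ≤ n →
    ∑ a : α, RT t (pr n a X) n = (1 + t) / t * (1 - t ^ (n - 1)) * (1 - t ^ (n + 1)) *
      W t X none 1 n none

/-- ROT: rotation invariance. -/
def StRot : Prop := ∀ (α : Type) [Fintype α] [DecidableEq α] (t : ℝ), 0 < t → t < 1 →
    ∀ (x : ℕ → α) (n : ℕ), 2 ≤ n → (∀ k, x (k + n) = x k) → ∀ (β : Option α),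
    RR t β (fun k => x (k + 1)) n = RR t β x n

/-- POS: positivity. -/
def StPos : Prop := ∀ (α : Type) [Fintype α] [DecidableEq α] (t : ℝ), 0 < t → t ≤ 1 / 2 →
    ∀ (x : ℕ → α) (n : ℕ), 2 ≤ n → (∀ k, x (k + n) = x k) → 0 ≤ RT t x n

/-! ## Abstract probability part -/

/-- replace the letters at p, ..., p+κ-1 by g -/
def ins {α : Type} (κ : ℕ) (x : ℕ → α) (p : ℕ) (g : Fin κ → α) (k : ℕ) : α :=
  if h : p ≤ k ∧ k < p + κ then g ⟨k - p, by omega⟩ else x k

/-- consistent family of weights of words; κ-dependence in product form -/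
def PathLaw (α : Type) [Fintype α] [DecidableEq α] (κ : ℕ) (P : (ℕ → α) → ℕ → ℕ → ℝ) : Prop :=
  (∀ x y i j, (∀ k, i ≤ k → k < j → x k = y k) → P x i j = P y i j) ∧
  (∀ x i j s, P (fun k => x (k + s)) i j = P x (i + s) (j + s)) ∧
  (∀ x i, P x i i = 1) ∧
  (∀ x i j, i ≤ j → ∑ a : α, P (Function.update x j a) i (j + 1) = P x i j) ∧
  (∀ x i p j, i ≤ p → p + κ ≤ j → ∑ g : Fin κ → α, P (ins κ x p g) i j = P x i p * P x (p + κ) j) ∧
  (∀ x i j, (∃ k, i ≤ k ∧ k + 1 < j ∧ x k = x (k + 1)) → P x i j = 0)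

/-- replace κ cyclically consecutive letters, from v on, by g -/
def cins {α : Type} {n : ℕ} (κ v : ℕ) (X : Fin n → α) (g : Fin κ → α) (k : Fin n) : α :=
  if h : ((k : ℕ) + n - v) % n < κ then g ⟨((k : ℕ) + n - v) % n, h⟩ else X k

/-- a cyclic law whose marginals after deletion of κ consecutive letters are the path law -/
def CycLaw (α : Type) [Fintype α] [DecidableEq α] (κ n : ℕ) (hn : 0 < n)
    (P : (ℕ → α) → ℕ → ℕ → ℝ) (R : (Fin n → α) → ℝ) : Prop :=
  (∀ X, 0 ≤ R X) ∧
  (∀ X, (∃ k, per hn X k = per hn X (k + 1)) → R X = 0) ∧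
  (∀ (σ : Equiv.Perm α) X, R (fun k => σ (X k)) = R X) ∧
  (∀ v < n, ∀ X, ∑ g : Fin κ → α, R (cins κ v X g) =
    P (fun k => per hn X (v + κ + k)) 0 (n - κ))

def Model (q κ n : ℕ) : Prop := ∃ hn : 0 < n, ∃ P R,
  PathLaw (Fin q) κ P ∧ CycLaw (Fin q) κ n hn P R

/-- the property in the frozen statement -/
def Good (k q n : ℕ) : Prop :=
  ∃ μ : Measure (Fin n → Fin q), IsProbabilityMeasure μ ∧
    (∀ᵐ x ∂μ, ∀ i j : Fin n, (SimpleGraph.cycleGraph n).Adj i j → x i ≠ x j) ∧
    (∀ σ : Equiv.Perm (Fin q), μ.map (fun x : Fin n → Fin q => σ ∘ x) = μ) ∧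
    (∀ A B : Set (Fin n),
      (∀ a ∈ A, ∀ b ∈ B, k < (SimpleGraph.cycleGraph n).dist a b) →
      IndepFun (fun x : Fin n → Fin q => fun a : A => x a)
        (fun x : Fin n → Fin q => fun b : B => x b) μ)

/-- combinatorial k-dependence of a weight function on the cycle -/
def Ind (q k n : ℕ) (R : (Fin n → Fin q) → ℝ) : Prop :=
  ∀ A B : Finset (Fin n), (∀ a ∈ A, ∀ b ∈ B, k < (SimpleGraph.cycleGraph n).dist a b) →
    ∀ y : Fin n → Fin q,
    (∑ X : Fin n → Fin q, if (∀ a ∈ A, X a = y a) ∧ (∀ b ∈ B, X b = y b) then R X else 0) =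
      (∑ X : Fin n → Fin q, if (∀ a ∈ A, X a = y a) then R X else 0) *
      (∑ X : Fin n → Fin q, if (∀ b ∈ B, X b = y b) then R X else 0)

/-- MEAS: from the weight function to the measure. -/
def StMeas : Prop := ∀ (k q n : ℕ) (R : (Fin n → Fin q) → ℝ), 3 ≤ n → (∀ X, 0 ≤ R X) →
    (∑ X, R X = 1) →
    (∀ X : Fin n → Fin q, (∃ i j, (SimpleGraph.cycleGraph n).Adj i j ∧ X i = X j) → R X = 0) →
    (∀ (σ : Equiv.Perm (Fin q)) X, R (fun k => σ (X k)) = R X) → Ind q k n R → Good k q n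

/-- the word on Fin m, continued by the letter c -/
def extw {α : Type} {m : ℕ} (c : α) (X : Fin m → α) (k : ℕ) : α := if h : k < m then X ⟨k, h⟩ else c

/-- PIND: κ-dependence of the path law for arbitrary sets. -/
def StPInd : Prop := ∀ (α : Type) [Fintype α] [DecidableEq α] (κ : ℕ) (P : (ℕ → α) → ℕ → ℕ → ℝ),
    PathLaw α κ P → ∀ (c : α) (m : ℕ) (A B : Finset (Fin m)),
    (∀ a ∈ A, ∀ b ∈ B, (a : ℕ) + κ < b ∨ (b : ℕ) + κ < a) → ∀ y : Fin m → α,
    (∑ X : Fin m → α, if (∀ a ∈ A, X a = y a) ∧ (∀ b ∈ B, X b = y b) then P (extw c X) 0 m else 0) =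
      (∑ X : Fin m → α, if (∀ a ∈ A, X a = y a) then P (extw c X) 0 m else 0) *
      (∑ X : Fin m → α, if (∀ b ∈ B, X b = y b) then P (extw c X) 0 m else 0)

/-- IND: from the cyclic law to combinatorial dependence (uses PIND). -/
def StInd : Prop := ∀ (q κ n : ℕ), 1 ≤ κ → κ < n → 3 ≤ n → 0 < q → ∀ (hn : 0 < n) (P : (ℕ → Fin q) → ℕ → ℕ → ℝ)
    (R : (Fin n → Fin q) → ℝ), PathLaw (Fin q) κ P → CycLaw (Fin q) κ n hn P R →
    (∑ X, R X = 1) ∧ Ind q κ n R

/-- M1: the models for q ≥ 5 (from the algebraic part). -/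
def StM1 : Prop := ∀ q n : ℕ, 5 ≤ q → 3 ≤ n → Model q 1 n

/-- M2: q = 4, κ = 1 (t = 1: counting of buildings). -/
def StM2 : Prop := ∀ n : ℕ, 3 ≤ n → Model 4 1 n

/-- M3: q = 3, κ = 2 (t = 1: counting of buildings). -/
def StM3 : Prop := ∀ n : ℕ, 3 ≤ n → Model 3 2 n

end Pool.Agent.H144R4.Cyc
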