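import Mathlib
import Pool.Agent.H144R4.Cyc.Stmts

/-!
Project H144-CYC (helper144), task Imp (helper174).
-/

set_option autoImplicit false

namespace Pool.Agent.H144R4.Cyc.Imp

open Finset Pool.Agent.H144R4.Cyc

theorem ok_nonneg {α : Type} (u w : Option α) [DecidableEq α] : 0 ≤ ok u w := by
  unfold ok
  split_ifs <;> norm_num

theorem ok_self {α : Type} [DecidableEq α] (a : α) : ok (some a) (some a) = 0 := by
  simp [ok]

theorem imp_aux {α : Type} [Fintype α] [DecidableEq α] (t : ℝ) (ht : 0 < t) (ht1 : t < 1)
    (x : ℕ → α) : ∀ (n : ℕ) (u w : Option α) (i j : ℕ), j - i = n →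
    0 ≤ W t x u i j w ∧ (∀ k, i ≤ k → k + 1 < j → x k = x (k + 1) → W t x u i j w = 0) ∧
    (i < j → u = some (x i) → W t x u i j w = 0) ∧
    (i < j → w = some (x (j - 1)) → W t x u i j w = 0) := by
  intro n
  induction n using Nat.strong_induction_on with
  | _ n ih =>
    intro u w i j hn
    by_cases hij : i < j
    · have hs := W_step t x u i j w hij
      -- vanishing when all terms vanish
      have hzero : (∀ k ∈ Ico i j, W t x u i k (some (x k)) = 0 ∨
          W t x (some (x k)) (k + 1) j w = 0) → W t x u i j w = 0 := by
        intro h
        rw [hs, Finset.sum_eq_zero, mul_zero]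
        intro k hk
        rcases h k hk with h | h
        · rw [h, mul_zero, zero_mul]
        · rw [h, mul_zero]
      refine ⟨?_, ?_, ?_, ?_⟩
      · rw [hs]
        apply mul_nonneg
        · apply mul_nonneg (ok_nonneg u w)
          rw [inv_nonneg, sub_nonneg]
          exact pow_le_one₀ ht.le ht1.le
        · apply Finset.sum_nonneg
          intro k hk
          have hk' := Finset.mem_Ico.1 hk
          have h1 := (ih (k - i) (by omega) u (some (x k)) i k rfl).1
          have h2 := (ih (j - (k + 1)) (by omega) (some (x k)) w (k + 1) j rfl).1
          positivity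
      · intro k hk1 hk2 hk
        apply hzero
        intro m hm
        have hm' := Finset.mem_Ico.1 hm
        rcases lt_trichotomy m k with h | h | h
        · right
          exact (ih (j - (m + 1)) (by omega) (some (x m)) w (m + 1) j rfl).2.1 k (by omega) hk2 hk
        · right
          subst h
          exact (ih (j - (m + 1)) (by omega) (some (x m)) w (m + 1) j rfl).2.2.1 hk2 (by rw [hk])
        · by_cases hm1 : m = k + 1
          · left
            subst hm1
            exact (ih (k + 1 - i) (by omega) u (some (x (k + 1))) i (k + 1) rfl).2.2.2 (by omega)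
              (by rw [Nat.add_sub_cancel, hk])
          · left
            exact (ih (m - i) (by omega) u (some (x m)) i m rfl).2.1 k hk1 (by omega) hk
      · intro _ hu
        apply hzero
        intro m hm
        have hm' := Finset.mem_Ico.1 hm
        left
        rcases hm'.1.eq_or_lt with h | h
        · subst h
          rw [W_nil _ _ _ _ _ _ le_rfl, hu, ok_self]
        · exact (ih (m - i) (by omega) u (some (x m)) i m rfl).2.2.1 h hu
      · intro _ hw
        apply hzero
        intro m hm
        have hm' := Finset.mem_Ico.1 hm
        right
        by_cases h : m + 1 < j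
        · exact (ih (j - (m + 1)) (by omega) (some (x m)) w (m + 1) j rfl).2.2.2 h hw
        · have hmj : m = j - 1 := by omega
          rw [W_nil _ _ _ _ _ _ (by omega), hw, ← hmj, ok_self]
    · refine ⟨?_, ?_, ?_, ?_⟩
      · rw [W_nil _ _ _ _ _ _ (by omega)]
        exact ok_nonneg u w
      · intro k h1 h2 _
        omega
      · intro h
        exact absurd h hij
      · intro h
        exact absurd h hij

theorem imp : StImp := by
  intro α _ _ t ht ht1 x u w i j
  exact imp_aux t ht ht1 x (j - i) u w i j rfl

end Pool.Agent.H144R4.Cyc.Imp
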