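import Mathlib
import Pool.Agent.H144R4.Cyc.Stmts

set_option autoImplicit false

namespace Pool.Agent.H144R4.Cyc.IndC

open Finset Pool.Agent.H144R4.Cyc

/-! ### arithmetic modulo `n` -/

theorem mod1 {n v j : ℕ} (hv : v < n) (hj : j < n) : ((v + j) % n + n - v) % n = j := by
  rcases lt_or_ge (v + j) n with h | h
  · have h1 : (v + j) % n = v + j := Nat.mod_eq_of_lt h
    have h2 : (v + j) % n + n - v = j + n := by omega
    rw [h2, Nat.add_mod_right, Nat.mod_eq_of_lt hj]
  · have h1 : (v + j) % n = v + j - n := by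
      rw [Nat.mod_eq_sub_mod h, Nat.mod_eq_of_lt (by omega)]
    have h2 : (v + j) % n + n - v = j := by omega
    rw [h2, Nat.mod_eq_of_lt hj]

theorem mod2 {n v k : ℕ} (hv : v < n) (hk : k < n) : (v + (k + n - v) % n) % n = k := by
  rcases lt_or_ge (k + n - v) n with h | h
  · have h1 : (k + n - v) % n = k + n - v := Nat.mod_eq_of_lt h
    have h2 : v + (k + n - v) % n = k + n := by omega
    rw [h2, Nat.add_mod_right, Nat.mod_eq_of_lt hk]
  · have h1 : (k + n - v) % n = k + n - v - n := by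
      rw [Nat.mod_eq_sub_mod h, Nat.mod_eq_of_lt (by omega)]
    have h2 : v + (k + n - v) % n = k := by omega
    rw [h2, Nat.mod_eq_of_lt hk]

/-! ### distances in the cycle -/

theorem dist_step {n : ℕ} (hn : 0 < n) (s : ℕ) :
    (SimpleGraph.cycleGraph n).dist ⟨s % n, Nat.mod_lt _ hn⟩ ⟨(s + 1) % n, Nat.mod_lt _ hn⟩ ≤ 1 := by
  by_cases h1 : n = 1
  · subst h1
    have : (⟨s % 1, Nat.mod_lt _ hn⟩ : Fin 1) = ⟨(s + 1) % 1, Nat.mod_lt _ hn⟩ :=
      Subsingleton.elim _ _
    rw [this, SimpleGraph.dist_self]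
    omega
  · have hadj : (SimpleGraph.cycleGraph n).Adj ⟨s % n, Nat.mod_lt _ hn⟩
        ⟨(s + 1) % n, Nat.mod_lt _ hn⟩ := by
      rw [SimpleGraph.cycleGraph_adj']
      right
      rw [Fin.sub_def]
      show (n - s % n + (s + 1) % n) % n = 1
      have hlt : s % n < n := Nat.mod_lt _ hn
      rcases lt_or_ge (s % n + 1) n with h | h
      · have : (s + 1) % n = s % n + 1 := by
          rw [Nat.add_mod, Nat.mod_eq_of_lt (show 1 < n by omega), Nat.mod_eq_of_lt h]
        rw [this, show n - s % n + (s % n + 1) = 1 + n by omega, Nat.add_mod_right,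
          Nat.mod_eq_of_lt (by omega)]
      · have h2 : s % n + 1 = n := by omega
        have : (s + 1) % n = 0 := by
          rw [Nat.add_mod, Nat.mod_eq_of_lt (show 1 < n by omega), h2, Nat.mod_self]
        rw [this, show n - s % n + 0 = 1 by omega, Nat.mod_eq_of_lt (by omega)]
    rw [SimpleGraph.dist_eq_one_iff_adj.2 hadj]

theorem dist_le {n : ℕ} (hn : 0 < n) (s d : ℕ) :
    (SimpleGraph.cycleGraph n).dist ⟨s % n, Nat.mod_lt _ hn⟩ ⟨(s + d) % n, Nat.mod_lt _ hn⟩ ≤ d := by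
  have hconn : (SimpleGraph.cycleGraph n).Connected := by
    obtain ⟨m, rfl⟩ : ∃ m, n = m + 1 := ⟨n - 1, by omega⟩
    exact SimpleGraph.cycleGraph_connected
  induction d with
  | zero => simp
  | succ d ih =>
    refine le_trans (hconn.dist_triangle (v := ⟨(s + d) % n, Nat.mod_lt _ hn⟩)) ?_
    have := dist_step hn (s + d)
    exact Nat.add_le_add ih this

/-! ### total mass of the path law -/

theorem path_mass {α : Type} [Fintype α] [DecidableEq α] {κ : ℕ} {P : (ℕ → α) → ℕ → ℕ → ℝ}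
    (hP : PathLaw α κ P) (c : α) (m : ℕ) : ∑ X : Fin m → α, P (extw c X) 0 m = 1 := by
  obtain ⟨h1, h2, h3, h4, h5, h6⟩ := hP
  induction m with
  | zero =>
    simp [h3]
  | succ m ih =>
    rw [← ih]
    rw [← (Fin.snocEquiv (fun _ : Fin (m + 1) => α)).sum_comp, Fintype.sum_prod_type,
      Finset.sum_comm]
    refine Finset.sum_congr rfl fun h _ => ?_
    rw [← h4 (extw c h) 0 m (by omega)]
    refine Finset.sum_congr rfl fun a _ => ?_
    refine h1 _ _ _ _ fun k _ hk => ?_
    rcases lt_or_ge k m with hkm | hkm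
    · rw [Function.update_of_ne (by omega)]
      unfold extw
      rw [dif_pos hk, dif_pos hkm]
      show (Fin.snoc h a : Fin (m + 1) → α) ⟨k, hk⟩ = _
      have : (⟨k, hk⟩ : Fin (m + 1)) = Fin.castSucc ⟨k, hkm⟩ := rfl
      rw [this, Fin.snoc_castSucc (α := fun _ => α)]
    · have : k = m := by omega
      subst this
      rw [Function.update_self]
      unfold extw
      rw [dif_pos hk]
      show (Fin.snoc h a : Fin (k + 1) → α) ⟨k, hk⟩ = _
      have : (⟨k, hk⟩ : Fin (k + 1)) = Fin.last k := rfl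
      rw [this, Fin.snoc_last (α := fun _ => α)]

/-! ### cutting the cycle -/

/-- the vertex with linear position `m` after cutting -/
def vert {n : ℕ} (hn : 0 < n) (κ v m : ℕ) : Fin n := ⟨(v + κ + m) % n, Nat.mod_lt _ hn⟩

/-- the cyclic word given by the linear word `h` -/
def emb {α : Type} {n : ℕ} (κ v : ℕ) (c : α) (h : Fin (n - κ) → α) (k : Fin n) : α :=
  if hh : κ ≤ ((k : ℕ) + n - v) % n then
    h ⟨((k : ℕ) + n - v) % n - κ, by
      have := Nat.mod_lt ((k : ℕ) + n - v) (lt_of_le_of_lt (Nat.zero_le _) k.2)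
      omega⟩
  else c

theorem emb_vert {α : Type} {n κ v : ℕ} (hn : 0 < n) (hv : v < n) (c : α)
    (h : Fin (n - κ) → α) (m : Fin (n - κ)) : emb κ v c h (vert hn κ v m) = h m := by
  have h1 : ((v + (κ + (m : ℕ))) % n + n - v) % n = κ + m := mod1 hv (by omega)
  rw [← add_assoc] at h1
  unfold emb vert
  simp only
  rw [dif_pos (by omega)]
  congr 1
  apply Fin.ext
  simp only
  omega

theorem vert_of {n κ v : ℕ} (hn : 0 < n) (hv : v < n) (k : Fin n)
    (hk : κ ≤ ((k : ℕ) + n - v) % n) : vert hn κ v (((k : ℕ) + n - v) % n - κ) = k := by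
  apply Fin.ext
  show (v + κ + (((k : ℕ) + n - v) % n - κ)) % n = k
  rw [show v + κ + (((k : ℕ) + n - v) % n - κ) = v + ((k : ℕ) + n - v) % n by omega]
  exact mod2 hv k.2

/-- words on the cycle are pairs of a linear word and the word on the cut positions -/
def cutEquiv {α : Type} {n κ v : ℕ} (hn : 0 < n) (hκ : κ < n) (hv : v < n) (c : α) :
    ((Fin (n - κ) → α) × (Fin κ → α)) ≃ (Fin n → α) where
  toFun p := cins κ v (emb κ v c p.1) p.2
  invFun X := (fun m => X (vert hn κ v m), fun i => X ⟨(v + i) % n, Nat.mod_lt _ hn⟩)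
  left_inv := by
    rintro ⟨h, g⟩
    refine Prod.ext ?_ ?_
    · funext m
      show cins κ v (emb κ v c h) g (vert hn κ v m) = h m
      have h1 : ((v + (κ + (m : ℕ))) % n + n - v) % n = κ + m := mod1 hv (by omega)
      rw [← add_assoc] at h1
      unfold cins
      rw [dif_neg (by
        show ¬ ((v + κ + (m : ℕ)) % n + n - v) % n < κ
        omega)]
      exact emb_vert hn hv c h m
    · funext i
      show cins κ v (emb κ v c h) g ⟨(v + (i : ℕ)) % n, Nat.mod_lt _ hn⟩ = g i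
      have h1 : ((v + (i : ℕ)) % n + n - v) % n = i := mod1 hv (by omega)
      unfold cins
      rw [dif_pos (by
        show ((v + (i : ℕ)) % n + n - v) % n < κ
        omega)]
      congr 1
      exact Fin.ext h1
  right_inv := by
    intro X
    funext k
    show cins κ v (emb κ v c (fun m => X (vert hn κ v m)))
      (fun i => X ⟨(v + (i : ℕ)) % n, Nat.mod_lt _ hn⟩) k = X k
    unfold cins
    by_cases hk : ((k : ℕ) + n - v) % n < κ
    · rw [dif_pos hk]
      have h1 : (⟨(v + ((k : ℕ) + n - v) % n) % n, Nat.mod_lt _ hn⟩ : Fin n) = k :=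
        Fin.ext (mod2 hv k.2)
      exact congrArg X h1
    · rw [dif_neg hk]
      unfold emb
      rw [dif_pos (by omega)]
      simp only
      congr 1
      exact vert_of hn hv k (by omega)

theorem cut_sum {α : Type} [Fintype α] [DecidableEq α] {κ n v : ℕ} (hn : 0 < n) (hκ : κ < n)
    (hv : v < n) {P : (ℕ → α) → ℕ → ℕ → ℝ} {R : (Fin n → α) → ℝ} (hP : PathLaw α κ P)
    (hR : CycLaw α κ n hn P R) (c : α) (p : (Fin n → α) → Prop) [DecidablePred p]
    (hp : ∀ X g, p (cins κ v X g) ↔ p X) :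
    (∑ X : Fin n → α, if p X then R X else 0) =
      ∑ h : Fin (n - κ) → α, if p (emb κ v c h) then P (extw c h) 0 (n - κ) else 0 := by
  rw [← (cutEquiv hn hκ hv c).sum_comp, Fintype.sum_prod_type]
  refine Finset.sum_congr rfl fun h _ => ?_
  have h1 : ∀ g : Fin κ → α, (if p (cutEquiv hn hκ hv c (h, g)) then
      R (cutEquiv hn hκ hv c (h, g)) else 0) =
      if p (emb κ v c h) then R (cins κ v (emb κ v c h) g) else 0 := by
    intro g
    have : cutEquiv hn hκ hv c (h, g) = cins κ v (emb κ v c h) g := rfl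
    rw [this]
    by_cases hh : p (emb κ v c h)
    · rw [if_pos hh, if_pos ((hp _ _).2 hh)]
    · rw [if_neg hh, if_neg (fun h' => hh ((hp _ _).1 h'))]
  rw [Finset.sum_congr rfl fun g _ => h1 g]
  by_cases hh : p (emb κ v c h)
  · simp only [if_pos hh]
    rw [hR.2.2.2 v hv]
    refine hP.1 _ _ _ _ fun k _ hk => ?_
    unfold extw
    rw [dif_pos hk]
    exact emb_vert hn hv c h ⟨k, hk⟩
  · simp only [if_neg hh, Finset.sum_const_zero]

/-- the linear positions of a set of vertices -/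
def lin {n : ℕ} (hn : 0 < n) (κ v : ℕ) (C : Finset (Fin n)) : Finset (Fin (n - κ)) :=
  Finset.univ.filter (fun m => vert hn κ v m ∈ C)

theorem agree_iff {α : Type} {n κ v : ℕ} (hn : 0 < n) (hv : v < n) (c : α)
    (h : Fin (n - κ) → α) (y : Fin n → α) (C : Finset (Fin n))
    (hC : ∀ k ∈ C, κ ≤ ((k : ℕ) + n - v) % n) :
    (∀ k ∈ C, emb κ v c h k = y k) ↔ (∀ m ∈ lin hn κ v C, h m = y (vert hn κ v m)) := by
  constructor
  · intro hh m hm
    have hm' : vert hn κ v m ∈ C := (Finset.mem_filter.1 hm).2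
    rw [← hh _ hm', emb_vert hn hv]
  · intro hh k hk
    have h1 := hC k hk
    have h2 := vert_of hn hv k h1
    have h3 : ((k : ℕ) + n - v) % n - κ < n - κ := by
      have := Nat.mod_lt ((k : ℕ) + n - v) hn
      omega
    have h4 : (⟨((k : ℕ) + n - v) % n - κ, h3⟩ : Fin (n - κ)) ∈ lin hn κ v C := by
      unfold lin
      rw [Finset.mem_filter]
      refine ⟨Finset.mem_univ _, ?_⟩
      show vert hn κ v (((k : ℕ) + n - v) % n - κ) ∈ C
      rw [h2]
      exact hk
    have h5 := hh _ h4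
    have h6 : vert hn κ v ((⟨((k : ℕ) + n - v) % n - κ, h3⟩ : Fin (n - κ)) : ℕ) = k := h2
    rw [h6] at h5
    rw [← h5]
    unfold emb
    rw [dif_pos h1]

theorem cins_free {α : Type} {n κ v : ℕ} (X : Fin n → α) (g : Fin κ → α) (k : Fin n)
    (hk : κ ≤ ((k : ℕ) + n - v) % n) : cins κ v X g k = X k := by
  unfold cins
  rw [dif_neg (by omega)]

/-- a free block of `κ` vertices -/
theorem free_block {n κ : ℕ} (hn : 0 < n) (A B : Finset (Fin n))
    (hAB : ∀ a ∈ A, ∀ b ∈ B, κ < (SimpleGraph.cycleGraph n).dist a b) (hA : A.Nonempty)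
    (hB : B.Nonempty) : ∃ v < n, (∀ k ∈ A, κ ≤ ((k : ℕ) + n - v) % n) ∧
      ∀ k ∈ B, κ ≤ ((k : ℕ) + n - v) % n := by
  classical
  have hex : ∃ d : ℕ, ∃ a ∈ A, ∃ b ∈ B, ((a : ℕ) + d) % n = b := by
    obtain ⟨a, ha⟩ := hA
    obtain ⟨b, hb⟩ := hB
    exact ⟨((b : ℕ) + n - a) % n, a, ha, b, hb, mod2 a.2 b.2⟩
  obtain ⟨a, ha, b, hb, hab⟩ := Nat.find_spec hex
  set d := Nat.find hex with hd
  have hmin : ∀ d' < d, ¬ ∃ a ∈ A, ∃ b ∈ B, ((a : ℕ) + d') % n = b :=
    fun d' hd' => Nat.find_min hex hd'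
  have hdκ : κ < d := by
    have h1 := dist_le hn (a : ℕ) d
    have h2 : (⟨(a : ℕ) % n, Nat.mod_lt _ hn⟩ : Fin n) = a :=
      Fin.ext (Nat.mod_eq_of_lt a.2)
    have h3 : (⟨((a : ℕ) + d) % n, Nat.mod_lt _ hn⟩ : Fin n) = b := Fin.ext hab
    rw [h2, h3] at h1
    exact lt_of_lt_of_le (hAB a ha b hb) h1
  have hvn : ((a : ℕ) + 1) % n < n := Nat.mod_lt _ hn
  refine ⟨((a : ℕ) + 1) % n, hvn, ?_, ?_⟩
  · intro k hk
    by_contra hlt
    push Not at hlt
    set i := ((k : ℕ) + n - ((a : ℕ) + 1) % n) % n with hi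
    have h1 : (((a : ℕ) + 1) % n + i) % n = k := mod2 hvn k.2
    rw [Nat.mod_add_mod] at h1
    refine hmin (d - 1 - i) (by omega) ⟨k, hk, b, hb, ?_⟩
    rw [← h1, Nat.mod_add_mod, ← hab]
    congr 1
    omega
  · intro k hk
    by_contra hlt
    push Not at hlt
    set i := ((k : ℕ) + n - ((a : ℕ) + 1) % n) % n with hi
    have h1 : (((a : ℕ) + 1) % n + i) % n = k := mod2 hvn k.2
    rw [Nat.mod_add_mod] at h1
    exact hmin (1 + i) (by omega) ⟨a, ha, k, hk, by rw [← h1, ← add_assoc]⟩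

theorem indC : StPInd → StInd := by
  intro hPI q κ n hκ1 hκn hn3 hq hn P R hP hR
  set c : Fin q := ⟨0, hq⟩ with hc
  have hmass : ∑ X, R X = 1 := by
    have h1 := cut_sum hn hκn (v := 0) hn hP hR c (fun _ => True) (fun _ _ => Iff.rfl)
    simp only [if_true] at h1
    rw [h1, path_mass hP]
  refine ⟨hmass, ?_⟩
  intro A B hAB y
  rcases A.eq_empty_or_nonempty with rfl | hA
  · simp [hmass]
  rcases B.eq_empty_or_nonempty with rfl | hB
  · simp [hmass]
  obtain ⟨v, hv, hvA, hvB⟩ := free_block hn A B hAB hA hB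
  have key := hPI (Fin q) κ P hP c (n - κ) (lin hn κ v A) (lin hn κ v B) (by
    intro a ha b hb
    have ha' : vert hn κ v a ∈ A := (Finset.mem_filter.1 ha).2
    have hb' : vert hn κ v b ∈ B := (Finset.mem_filter.1 hb).2
    have h1 := hAB _ ha' _ hb'
    rcases le_total (a : ℕ) b with h | h
    · left
      have h2 := dist_le hn (v + κ + (a : ℕ)) ((b : ℕ) - a)
      have h3 : (⟨(v + κ + (a : ℕ) + ((b : ℕ) - a)) % n, Nat.mod_lt _ hn⟩ : Fin n) =
          vert hn κ v b := by
        apply Fin.ext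
        show (v + κ + (a : ℕ) + ((b : ℕ) - a)) % n = (v + κ + (b : ℕ)) % n
        congr 1
        omega
      rw [h3] at h2
      have h4 : κ < (b : ℕ) - a := lt_of_lt_of_le h1 h2
      omega
    · right
      have h2 := dist_le hn (v + κ + (b : ℕ)) ((a : ℕ) - b)
      have h3 : (⟨(v + κ + (b : ℕ) + ((a : ℕ) - b)) % n, Nat.mod_lt _ hn⟩ : Fin n) =
          vert hn κ v a := by
        apply Fin.ext
        show (v + κ + (b : ℕ) + ((a : ℕ) - b)) % n = (v + κ + (a : ℕ)) % n
        congr 1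
        omega
      rw [h3, SimpleGraph.dist_comm] at h2
      have h4 : κ < (a : ℕ) - b := lt_of_lt_of_le h1 h2
      omega) (fun m => y (vert hn κ v m))
  have e1 := cut_sum hn hκn hv hP hR c (fun X => (∀ a ∈ A, X a = y a) ∧ (∀ b ∈ B, X b = y b)) (by
    intro X g
    refine and_congr ?_ ?_
    · exact forall₂_congr fun a ha => by rw [cins_free X g a (hvA a ha)]
    · exact forall₂_congr fun a ha => by rw [cins_free X g a (hvB a ha)])
  have e2 := cut_sum hn hκn hv hP hR c (fun X => (∀ a ∈ A, X a = y a)) (by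
    intro X g
    exact forall₂_congr fun a ha => by rw [cins_free X g a (hvA a ha)])
  have e3 := cut_sum hn hκn hv hP hR c (fun X => (∀ b ∈ B, X b = y b)) (by
    intro X g
    exact forall₂_congr fun a ha => by rw [cins_free X g a (hvB a ha)])
  simp only [agree_iff hn hv c _ y A hvA, agree_iff hn hv c _ y B hvB] at e1 e2 e3
  rw [e1, e2, e3]
  exact key

end Pool.Agent.H144R4.Cyc.IndC
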