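import Pool.Agent.H144R4.Cyc.Stmts

set_option autoImplicit false
set_option linter.unusedSectionVars false

namespace Pool.Agent.H144R4.Cyc.M1

open Finset Pool.Agent.H144R4.Cyc

lemma exists_t (q : ℕ) (hq : 5 ≤ q) :
    ∃ t : ℝ, 0 < t ∧ t ≤ 1 / 2 ∧ (q : ℝ) * t = (1 + t) ^ 2 := by
  have hq' : (5 : ℝ) ≤ q := by exact_mod_cast hq
  obtain ⟨s, hs⟩ : ∃ s : ℝ, s = (q : ℝ) - 2 := ⟨_, rfl⟩
  have hs3 : 3 ≤ s := by linarith
  have hD : 0 ≤ s ^ 2 - 4 := by nlinarith
  obtain ⟨r, hr⟩ : ∃ r : ℝ, r = √(s ^ 2 - 4) := ⟨_, rfl⟩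
  have hr2 : r ^ 2 = s ^ 2 - 4 := by rw [hr]; exact Real.sq_sqrt hD
  have hr0 : 0 ≤ r := by rw [hr]; exact Real.sqrt_nonneg _
  refine ⟨(s - r) / 2, ?_, ?_, ?_⟩
  · have : r < s := by
      by_contra h
      push Not at h
      nlinarith
    linarith
  · have : s - 1 ≤ r := by
      by_contra h
      push Not at h
      nlinarith
    linarith
  · have : (q : ℝ) = s + 2 := by rw [hs]; ring
    rw [this]
    linear_combination (-1 / 4) * hr2

section

variable {α : Type} [Fintype α] [DecidableEq α]

/-- the constant -/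
noncomputable def C (t : ℝ) : ℝ := t * (1 - t) / (1 + t)

/-- the path law -/
noncomputable def PP (t : ℝ) (x : ℕ → α) (i j : ℕ) : ℝ :=
  C t ^ (j - i) * ((1 - t) / (1 - t ^ (j - i + 1))) * W t x none i j none

/-- the normalisation -/
noncomputable def NN (t : ℝ) (n : ℕ) : ℝ :=
  (1 - t ^ (n - 1)) * (1 - t ^ n) * (1 - t ^ (n + 1)) / C t ^ n

lemma one_sub_pos {t : ℝ} (h0 : 0 < t) (h1 : t < 1) {k : ℕ} (hk : 1 ≤ k) : 0 < 1 - t ^ k := by
  have : t ^ k < 1 := pow_lt_one₀ h0.le h1 (by omega)
  linarith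

lemma C_pos {t : ℝ} (h0 : 0 < t) (h1 : t < 1) : 0 < C t := by
  unfold C
  have : 0 < 1 - t := by linarith
  positivity

lemma s1 (h : StS1) {t : ℝ} (hp : Par α t) (x : ℕ → α) (i p j : ℕ) (hip : i ≤ p)
    (hpj : p + 1 ≤ j) :
    ∑ a : α, W t (Function.update x p a) none i j none =
      (1 + t) / t * ((1 - t ^ (j - i + 1)) / ((1 - t ^ (p - i + 1)) * (1 - t ^ (j - p)))) *
        W t x none i p none * W t x none (p + 1) j none := by
  have h1 := h α t hp x none none i p j hip hpj (Or.inl rfl)
  simp only [if_true, reduceCtorEq, if_false, Finset.sum_const_zero, sub_zero] at h1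
  rw [h1]
  obtain ⟨h0, h1', -⟩ := hp
  have e1 : t ^ (j - i + 1) = t ^ (p - i + 1) * t ^ (j - p) := by
    rw [← pow_add]
    congr 1
    omega
  have h0' := h0.ne'
  have e2 : t ^ (p - i) = t ^ (p - i + 1) / t := by
    rw [pow_succ]
    field_simp
  have p1 := (one_sub_pos h0 h1' (k := p - i + 1) (by omega)).ne'
  have p2 := (one_sub_pos h0 h1' (k := j - p) (by omega)).ne'
  rw [e1, e2]
  clear e1 e2 h1
  generalize t ^ (p - i + 1) = A at *
  generalize t ^ (j - p) = B at *
  field_simp
  ring

lemma pp_sum (h : StS1) {t : ℝ} (hp : Par α t) (x : ℕ → α) (i p j : ℕ) (hip : i ≤ p)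
    (hpj : p + 1 ≤ j) :
    ∑ a : α, PP t (Function.update x p a) i j = PP t x i p * PP t x (p + 1) j := by
  unfold PP
  rw [← Finset.mul_sum, s1 h hp x i p j hip hpj]
  obtain ⟨h0, h1', -⟩ := hp
  have p0 := (one_sub_pos h0 h1' (k := j - i + 1) (by omega)).ne'
  have p1 := (one_sub_pos h0 h1' (k := p - i + 1) (by omega)).ne'
  have p2 := (one_sub_pos h0 h1' (k := j - p) (by omega)).ne'
  have e3 : j - (p + 1) + 1 = j - p := by omega
  have e4 : C t ^ (j - i) = C t ^ (p - i) * C t ^ (j - (p + 1)) * C t := by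
    rw [← pow_add, ← pow_succ]
    congr 1
    omega
  have e5 : C t * ((1 + t) / t) = 1 - t := by
    unfold C
    have : 1 + t ≠ 0 := by positivity
    have := h0.ne'
    field_simp
  rw [e3, e4]
  generalize t ^ (j - i + 1) = A0 at *
  generalize t ^ (p - i + 1) = A at *
  generalize t ^ (j - p) = B at *
  calc C t ^ (p - i) * C t ^ (j - (p + 1)) * C t * ((1 - t) / (1 - A0)) *
        ((1 + t) / t * ((1 - A0) / ((1 - A) * (1 - B))) * W t x none i p none *
          W t x none (p + 1) j none)
      = C t ^ (p - i) * C t ^ (j - (p + 1)) * (C t * ((1 + t) / t)) *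
        ((1 - t) / (1 - A0) * ((1 - A0) / ((1 - A) * (1 - B)))) *
        (W t x none i p none * W t x none (p + 1) j none) := by ring
    _ = C t ^ (p - i) * C t ^ (j - (p + 1)) * (1 - t) *
        ((1 - t) / (1 - A) / (1 - B)) *
        (W t x none i p none * W t x none (p + 1) j none) := by
        rw [e5]
        congr 2
        field_simp
    _ = _ := by ring

lemma ins_one (x : ℕ → α) (p : ℕ) (g : Fin 1 → α) :
    ins 1 x p g = Function.update x p (g 0) := by
  funext k
  unfold ins
  by_cases hk : k = p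
  · subst hk
    rw [dif_pos (by omega), Function.update_self]
    congr 1
    exact Subsingleton.elim _ _
  · rw [dif_neg (by omega), Function.update_of_ne hk]

lemma sum_fin_one (f : α → ℝ) : ∑ g : Fin 1 → α, f (g 0) = ∑ a : α, f a :=
  (Equiv.funUnique (Fin 1) α).sum_comp f

lemma pp_self (t : ℝ) (ht : t < 1) (x : ℕ → α) (i : ℕ) : PP t x i i = 1 := by
  unfold PP
  rw [W_nil t x none i i none le_rfl]
  have : (1 - t) ≠ 0 := by
    have : 0 < 1 - t := by linarith
    exact this.ne'
  simp [ok, this]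

lemma pathLaw (hS1 : StS1) (hC : StCong) (hI : StImp) {t : ℝ} (hp : Par α t) :
    PathLaw α 1 (PP t : (ℕ → α) → ℕ → ℕ → ℝ) := by
  refine ⟨?_, ?_, ?_, ?_, ?_, ?_⟩
  · intro x y i j hxy
    unfold PP
    have := (hC α t x y none none none i j 0 (fun k h1 h2 => hxy k h1 h2)).1
    simp only [add_zero] at this
    rw [this]
  · intro x i j s
    unfold PP
    have := (hC α t x (fun k => x (k + s)) none none none i j s (fun k _ _ => rfl)).1
    rw [this, show j + s - (i + s) = j - i by omega]
  · intro x i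
    exact pp_self t hp.2.1 x i
  · intro x i j hij
    rw [pp_sum hS1 hp x i j (j + 1) hij le_rfl, pp_self t hp.2.1, mul_one]
  · intro x i p j hip hpj
    simp only [ins_one]
    rw [sum_fin_one (fun a => PP t (Function.update x p a) i j)]
    exact pp_sum hS1 hp x i p j hip hpj
  · rintro x i j ⟨k, h1, h2, h3⟩
    unfold PP
    rw [(hI α t hp.1 hp.2.1 x none none i j).2.1 k h1 h2 h3, mul_zero]

lemma per_add (n : ℕ) (hn : 0 < n) (X : Fin n → α) (k : ℕ) : per hn X (k + n) = per hn X k := by
  unfold per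
  congr 1
  ext
  simp

lemma per_mod (n : ℕ) (hn : 0 < n) (X : Fin n → α) {k l : ℕ} (h : k % n = l % n) :
    per hn X k = per hn X l := by
  unfold per
  congr 1
  ext
  exact h

lemma rt_rot (hR : StRot) {t : ℝ} (h0 : 0 < t) (h1 : t < 1) (x : ℕ → α) (n : ℕ) (hn : 2 ≤ n)
    (hx : ∀ k, x (k + n) = x k) : RT t (fun k => x (k + 1)) n = RT t x n := by
  unfold RT
  rw [hR α t h0 h1 x n hn hx none]
  congr 2
  refine Finset.sum_congr rfl fun b _ => ?_
  rw [hR α t h0 h1 x n hn hx (some b)]

lemma rt_rotv (hR : StRot) {t : ℝ} (h0 : 0 < t) (h1 : t < 1) (x : ℕ → α) (n : ℕ) (hn : 2 ≤ n)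
    (hx : ∀ k, x (k + n) = x k) (v : ℕ) : RT t (fun k => x (k + v)) n = RT t x n := by
  induction v with
  | zero => rfl
  | succ v ih =>
    rw [← ih]
    have := rt_rot hR h0 h1 (fun k => x (k + v)) n hn (fun k => by
      have := hx (k + v)
      rw [show k + n + v = k + v + n by ring]
      exact this)
    rw [← this]
    congr 1
    funext k
    congr 1
    ring

lemma cins_one {n : ℕ} (v : ℕ) (hv : v < n) (X : Fin n → α) (g : Fin 1 → α) :
    cins 1 v X g = Function.update X ⟨v, hv⟩ (g 0) := by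
  funext k
  unfold cins
  by_cases hk : k = ⟨v, hv⟩
  · subst hk
    have : (v + n - v) % n < 1 := by
      rw [Nat.add_sub_cancel_left, Nat.mod_self]
      exact one_pos
    rw [dif_pos this, Function.update_self]
    congr 1
    exact Subsingleton.elim _ _
  · have : ¬ ((k : ℕ) + n - v) % n < 1 := by
      intro h
      apply hk
      ext
      have hk2 := k.2
      have h2 : ((k : ℕ) + n - v) % n = 0 := by omega
      obtain ⟨c, hc⟩ := Nat.dvd_of_mod_eq_zero h2
      have hc1 : c = 1 := by
        rcases Nat.lt_or_ge c 1 with h3 | h3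
        · have : c = 0 := by omega
          subst this
          omega
        · rcases Nat.lt_or_ge 1 c with h4 | h4
          · have : n * 2 ≤ n * c := Nat.mul_le_mul_left n h4
            omega
          · omega
      subst hc1
      show (k : ℕ) = v
      omega
    rw [dif_neg this, Function.update_of_ne hk]

lemma per_update {n : ℕ} (hn : 0 < n) (v : ℕ) (hv : v < n) (X : Fin n → α) (a : α) (k : ℕ) :
    per hn (Function.update X ⟨v, hv⟩ a) (k + v) = pr n a (fun k => per hn X (k + v)) k := by
  unfold pr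
  by_cases hk : k % n = 0
  · rw [if_pos hk]
    unfold per
    have : (⟨(k + v) % n, Nat.mod_lt _ hn⟩ : Fin n) = ⟨v, hv⟩ := by
      ext
      show (k + v) % n = v
      rw [Nat.add_mod, hk, zero_add, Nat.mod_mod, Nat.mod_eq_of_lt hv]
    rw [this, Function.update_self]
  · rw [if_neg hk]
    have h1 : per hn X (k % n + v) = per hn X (k + v) := per_mod n hn X (by simp [Nat.add_mod])
    show _ = per hn X (k % n + v)
    rw [h1]
    unfold per
    rw [Function.update_of_ne]
    intro h
    apply hk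
    have h2 : (k + v) % n = v := by
      have := congrArg Fin.val h
      exact this
    have h3 : (k + v) % n = (0 + v) % n := by
      rw [h2, zero_add, Nat.mod_eq_of_lt hv]
    have h4 : k ≡ 0 [MOD n] := Nat.ModEq.add_right_cancel' v h3
    exact h4

lemma marg (hC : StCong) (hM : StMarg) (hR : StRot) {t : ℝ} (hp : Par α t) {n : ℕ}
    (hn3 : 3 ≤ n) (hn : 0 < n) (v : ℕ) (hv : v < n) (X : Fin n → α) :
    ∑ g : Fin 1 → α, RT t (per hn (cins 1 v X g)) n / NN t n =
      PP t (fun k => per hn X (v + 1 + k)) 0 (n - 1) := by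
  obtain ⟨h0, h1, -⟩ := id hp
  simp only [cins_one v hv]
  rw [sum_fin_one (fun a => RT t (per hn (Function.update X ⟨v, hv⟩ a)) n / NN t n)]
  have e1 : ∀ a : α, RT t (per hn (Function.update X ⟨v, hv⟩ a)) n =
      RT t (pr n a (fun k => per hn X (k + v))) n := by
    intro a
    rw [← rt_rotv hR h0 h1 (per hn (Function.update X ⟨v, hv⟩ a)) n (by omega)
      (per_add n hn _) v]
    congr 1
    funext k
    exact per_update hn v hv X a k
  rw [← Finset.sum_div]
  simp only [e1]
  rw [hM α t hp (fun k => per hn X (k + v)) n (by omega)]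
  have e2 : W t (fun k => per hn X (k + v)) none 1 n none =
      W t (fun k => per hn X (v + 1 + k)) none 0 (n - 1) none := by
    have := (hC α t (fun k => per hn X (k + v)) (fun k => per hn X (v + 1 + k)) none none none
      0 (n - 1) 1 (fun k _ _ => by
        show per hn X (k + 1 + v) = per hn X (v + 1 + k)
        congr 1
        ring)).1
    rw [← this, zero_add, Nat.sub_add_cancel (by omega)]
  rw [e2]
  unfold PP NN
  have hCp := C_pos h0 h1
  have p1 := (one_sub_pos h0 h1 (k := n - 1) (by omega)).ne'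
  have p2 := (one_sub_pos h0 h1 (k := n) (by omega)).ne'
  have p3 := (one_sub_pos h0 h1 (k := n + 1) (by omega)).ne'
  have e3 : n - 1 - 0 + 1 = n := by omega
  have e4 : C t ^ n = C t ^ (n - 1) * C t := by
    rw [← pow_succ]
    congr 1
    omega
  have e5 : C t * ((1 + t) / t) = 1 - t := by
    unfold C
    have : 1 + t ≠ 0 := by positivity
    have := h0.ne'
    field_simp
  rw [e3, Nat.sub_zero, e4]
  generalize W t (fun k => per hn X (v + 1 + k)) none 0 (n - 1) none = w
  have hc := (pow_pos hCp (n - 1)).ne'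
  rw [div_div_eq_mul_div, ← e5]
  generalize (1 + t) / t = z
  generalize t ^ (n - 1) = A at *
  generalize t ^ n = B at *
  generalize t ^ (n + 1) = D at *
  field_simp

theorem cycLaw (hC : StCong) (hS : StSym) (hI : StImp) (hM : StMarg) (hR : StRot)
    (hP : StPos) {t : ℝ} (hp : Par α t) (ht : t ≤ 1 / 2) {n : ℕ}
    (hn3 : 3 ≤ n) (hn : 0 < n) :
    CycLaw α 1 n hn (PP t) (fun X => RT t (per hn X) n / NN t n) := by
  obtain ⟨h0, h1, -⟩ := id hp
  have hN : 0 < NN t n := by
    unfold NN
    have p1 := (one_sub_pos h0 h1 (k := n - 1) (by omega))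
    have p2 := (one_sub_pos h0 h1 (k := n) (by omega))
    have p3 := (one_sub_pos h0 h1 (k := n + 1) (by omega))
    have := C_pos h0 h1
    positivity
  have hpos : ∀ X : Fin n → α, 0 ≤ RT t (per hn X) n / NN t n := fun X =>
    div_nonneg (hP α t h0 ht (per hn X) n (by omega) (per_add n hn X)) hN.le
  refine ⟨hpos, ?_, ?_, ?_⟩
  · rintro X ⟨k, hk⟩
    set v := (k + 2) % n with hv'
    have hv : v < n := Nat.mod_lt _ hn
    have hm := marg hC hM hR hp hn3 hn v hv X
    have hz : PP t (fun k => per hn X (v + 1 + k)) 0 (n - 1) = 0 := by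
      unfold PP
      rw [(hI α t h0 h1 (fun k => per hn X (v + 1 + k)) none none 0 (n - 1)).2.1 (n - 3)
        (Nat.zero_le _) (by omega) ?_, mul_zero]
      show per hn X (v + 1 + (n - 3)) = per hn X (v + 1 + (n - 3 + 1))
      have q1 : per hn X (v + 1 + (n - 3)) = per hn X k := by
        rw [← per_add n hn X k]
        apply per_mod
        have : (v + 1 + (n - 3)) ≡ k + n [MOD n] := by
          have h3 : v ≡ k + 2 [MOD n] := Nat.mod_modEq _ _
          have h4 : v + (n - 2) ≡ k + 2 + (n - 2) [MOD n] := h3.add_right _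
          have h5 : v + 1 + (n - 3) = v + (n - 2) := by omega
          have h6 : k + n = k + 2 + (n - 2) := by omega
          rw [h5, h6]
          exact h4
        exact this
      have q2 : per hn X (v + 1 + (n - 3 + 1)) = per hn X (k + 1) := by
        rw [← per_add n hn X (k + 1)]
        apply per_mod
        have : (v + 1 + (n - 3 + 1)) ≡ k + 1 + n [MOD n] := by
          have h3 : v ≡ k + 2 [MOD n] := Nat.mod_modEq _ _
          have h4 : v + (n - 1) ≡ k + 2 + (n - 1) [MOD n] := h3.add_right _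
          have h5 : v + 1 + (n - 3 + 1) = v + (n - 1) := by omega
          have h6 : k + 1 + n = k + 2 + (n - 1) := by omega
          rw [h5, h6]
          exact h4
        exact this
      rw [q1, q2, hk]
    rw [hz] at hm
    have h7 := (Finset.sum_eq_zero_iff_of_nonneg (fun g _ => hpos (cins 1 v X g))).1 hm
      (fun _ => X ⟨v, hv⟩) (Finset.mem_univ _)
    rw [cins_one v hv, Function.update_eq_self] at h7
    exact h7
  · intro σ X
    have := (hS α t (per hn X) none none none 0 0 n σ).2.2.2
    show RT t (fun k => σ (per hn X k)) n / NN t n = RT t (per hn X) n / NN t n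
    rw [this]
  · intro v hv X
    exact marg hC hM hR hp hn3 hn v hv X

end

theorem m1 : StS1 → StCong → StSym → StImp → StMarg → StRot → StPos → StM1 := by
  intro hS1 hC hS hI hM hR hP q n hq hn
  obtain ⟨t, h0, h1, h2⟩ := exists_t q hq
  have hp : Par (Fin q) t := ⟨h0, by linarith, by rw [Fintype.card_fin]; exact h2⟩
  exact ⟨by omega, PP t, _, pathLaw hS1 hC hI hp, cycLaw hC hS hI hM hR hP hp h1 hn (by omega)⟩

end Pool.Agent.H144R4.Cyc.M1
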