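import Pool.Agent.H144R4.Cyc.Stmts

/-! M2: the model with four colours and kappa = 1 (counting of buildings). -/

set_option autoImplicit false
set_option linter.unusedSectionVars false

open Finset

namespace Pool.Agent.H144R4.Cyc.M2

open Pool.Agent.H144R4.Cyc

variable {α : Type} [DecidableEq α]

/-- the list of all the lists with one entry erased -/
def er : List α → List (List α)
  | [] => []
  | a :: l => l :: (er l).map (fun e => a :: e)

theorem er_append (x y : List α) :
    er (x ++ y) = (er x).map (fun e => e ++ y) ++ (er y).map (fun e => x ++ e) := by
  induction x with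
  | nil => simp [er]
  | cons a x ih =>
    simp only [List.cons_append, er, ih, List.map_append, List.map_map, List.map_cons]
    rfl

theorem er_length {l e : List α} (h : e ∈ er l) : e.length + 1 = l.length := by
  induction l generalizing e with
  | nil => simp [er] at h
  | cons a l ih =>
    simp only [er, List.mem_cons, List.mem_map] at h
    rcases h with rfl | ⟨e', he', rfl⟩
    · simp
    · have := ih he'
      simp only [List.length_cons]
      omega

/-- proper words -/
def Prp (l : List α) : Prop := l.IsChain (· ≠ ·)

instance (l : List α) : Decidable (Prp l) := by unfold Prp; infer_instance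

/-- the weight, with fuel -/
noncomputable def Bn : ℕ → List α → ℝ
  | 0, _ => 1
  | m + 1, l => if Prp l then ((er l).map (Bn m)).sum else 0

/-- the weight of a word -/
noncomputable def B (l : List α) : ℝ := Bn l.length l

theorem B_nil : B ([] : List α) = 1 := rfl

theorem B_rec {l : List α} (hl : l ≠ []) :
    B l = if Prp l then ((er l).map B).sum else 0 := by
  obtain ⟨m, hm⟩ : ∃ m, l.length = m + 1 := ⟨l.length - 1, by
    have := List.length_pos_iff.mpr hl
    omega⟩
  unfold B
  rw [hm]
  simp only [Bn]
  have : (er l).map (Bn m) = (er l).map (fun l => Bn l.length l) := by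
    apply List.map_congr_left
    intro e he
    have := er_length he
    have h2 : e.length = m := by omega
    rw [h2]
  rw [this]

theorem Prp_append (x y : List α) :
    Prp (x ++ y) ↔ Prp x ∧ Prp y ∧ ∀ a ∈ x.getLast?, ∀ b ∈ y.head?, a ≠ b :=
  List.isChain_append

theorem B_improper {l : List α} (h : ¬ Prp l) : B l = 0 := by
  have hl : l ≠ [] := by
    rintro rfl
    apply h
    unfold Prp
    simp
  rw [B_rec hl, if_neg h]

theorem B_nonneg (l : List α) : 0 ≤ B l := by
  obtain ⟨m, hm⟩ : ∃ m, l.length = m := ⟨_, rfl⟩
  induction m generalizing l with
  | zero =>
    rw [List.length_eq_zero_iff] at hm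
    subst hm
    rw [B_nil]
    norm_num
  | succ m ih =>
    have hl : l ≠ [] := by
      rintro rfl
      simp at hm
    rw [B_rec hl]
    split_ifs
    · apply List.sum_nonneg
      intro b hb
      obtain ⟨e, he, rfl⟩ := List.mem_map.mp hb
      exact ih e (by
        have := er_length he
        omega)
    · exact le_refl _

theorem B_map (σ : Equiv.Perm α) (l : List α) : B (l.map σ) = B l := by
  obtain ⟨m, hm⟩ : ∃ m, l.length = m := ⟨_, rfl⟩
  induction m generalizing l with
  | zero =>
    rw [List.length_eq_zero_iff] at hm
    subst hm
    simp
  | succ m ih =>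
    have hl : l ≠ [] := by
      rintro rfl
      simp at hm
    have hl' : l.map σ ≠ [] := by simpa using hl
    have her : ∀ l : List α, er (l.map σ) = (er l).map (fun e => e.map σ) := by
      intro l
      induction l with
      | nil => simp [er]
      | cons a l ih =>
        simp only [List.map_cons, er, ih, List.map_map]
        rfl
    have hP : Prp (l.map σ) ↔ Prp l := by
      unfold Prp
      rw [List.isChain_map]
      simp
    rw [B_rec hl, B_rec hl']
    simp only [hP, her, List.map_map]
    split_ifs
    · congr 1
      apply List.map_congr_left
      intro e he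
      exact ih e (by
        have := er_length he
        omega)
    · rfl

/-- weight is zero if the last letter of the first word is the first of the second word -/
theorem B_bad (x : List α) (a : α) (y : List α) : B (x ++ a :: a :: y) = 0 := by
  apply B_improper
  intro h
  have h2 := (Prp_append _ _).mp h
  have h3 := h2.2.1
  unfold Prp at h3
  rw [List.isChain_cons_cons] at h3
  exact h3.1 rfl

theorem B_bad_left {x : List α} {a : α} (y : List α) (h : x.getLast? = some a) :
    B (x ++ a :: y) = 0 := by
  apply B_improper
  intro h'
  have h2 := (Prp_append _ _).mp h'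
  exact h2.2.2 a (by rw [h]; rfl) a (by simp) rfl

theorem sum_eq_zero_of {l : List (List α)} {f : List α → ℝ} (h : ∀ e ∈ l, f e = 0) :
    (l.map f).sum = 0 := by
  apply List.sum_eq_zero
  intro b hb
  obtain ⟨e, he, rfl⟩ := List.mem_map.mp hb
  exact h e he

/-- the sum over deletions -/
noncomputable def TT (x : List α) (a : α) (y : List α) : ℝ :=
  ((er x).map (fun e => B (e ++ a :: y))).sum + B (x ++ y) +
    ((er y).map (fun e => B (x ++ a :: e))).sum

theorem TT_eq (x : List α) (a : α) (y : List α) :
    ((er (x ++ a :: y)).map B).sum = TT x a y := by
  unfold TT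
  rw [er_append]
  simp only [er, List.map_append, List.map_map, List.map_cons, List.sum_append, List.sum_cons]
  rw [add_assoc]
  rfl

/-- deletions in x if the inserted letter is the last letter of x -/
theorem left_last (x' : List α) (u : α) (y : List α) :
    ((er (x' ++ [u])).map (fun e => B (e ++ u :: y))).sum = B (x' ++ [u] ++ y) := by
  rw [er_append]
  simp only [er, List.map_append, List.map_map, List.map_cons, List.sum_append, List.sum_cons,
    List.map_nil, List.sum_nil, List.append_nil, add_zero]
  rw [sum_eq_zero_of, zero_add]
  · simp
  · intro e _
    simp only [Function.comp]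
    rw [List.append_assoc]
    exact B_bad e u y

/-- deletions in y if the inserted letter is the first letter of y -/
theorem right_head (x : List α) (w : α) (y' : List α) :
    ((er (w :: y')).map (fun e => B (x ++ w :: e))).sum = B (x ++ w :: y') := by
  simp only [er, List.map_map, List.map_cons, List.sum_cons]
  rw [sum_eq_zero_of, add_zero]
  intro e _
  simp only [Function.comp]
  exact B_bad x w e

/-- pointwise formula -/
theorem pointwise {x y : List α} (hx : Prp x) (hy : Prp y) (a : α) :
    B (x ++ a :: y) = TT x a y - (if x.getLast? = some a then 2 * B (x ++ y) else 0)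
      - (if y.head? = some a then 2 * B (x ++ y) else 0) := by
  by_cases h1 : x.getLast? = some a
  · rw [if_pos h1, B_bad_left y h1]
    obtain ⟨x', rfl⟩ : ∃ x', x = x' ++ [a] := by
      rw [List.getLast?_eq_some_iff] at h1
      obtain ⟨ys, h⟩ := h1
      exact ⟨ys, h⟩
    have e1 := left_last x' a y
    unfold TT
    rw [e1]
    by_cases h2 : y.head? = some a
    · rw [if_pos h2]
      obtain ⟨y', rfl⟩ : ∃ y', y = a :: y' := by
        rw [List.head?_eq_some_iff] at h2
        exact h2
      have e2 : B (x' ++ [a] ++ a :: y') = 0 := B_bad_left _ (by simp)
      rw [right_head, e2]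
      ring
    · rw [if_neg h2, sum_eq_zero_of]
      · ring
      · intro e _
        exact B_bad_left _ (by simp)
  · rw [if_neg h1]
    by_cases h2 : y.head? = some a
    · rw [if_pos h2]
      obtain ⟨y', rfl⟩ : ∃ y', y = a :: y' := by
        rw [List.head?_eq_some_iff] at h2
        exact h2
      unfold TT
      rw [right_head, B_bad, sum_eq_zero_of]
      · ring
      · intro e _
        exact B_bad _ _ _
    · rw [if_neg h2, sub_zero, sub_zero, ← TT_eq]
      rw [B_rec (by simp), if_pos]
      rw [Prp_append]
      refine ⟨hx, ?_, ?_⟩
      · unfold Prp at hy ⊢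
        rw [List.isChain_cons]
        refine ⟨?_, hy⟩
        intro b hb
        rintro rfl
        exact h2 hb
      · intro b hb c hc
        simp only [List.head?_cons, Option.mem_def, Option.some.injEq] at hc
        subst hc
        rintro rfl
        exact h1 hb

variable [Fintype α]

theorem sum_list (l : List (List α)) (f : α → List α → ℝ) :
    ∑ a : α, (l.map (f a)).sum = (l.map (fun e => ∑ a : α, f a e)).sum := by
  induction l with
  | nil => simp
  | cons e l ih => simp [Finset.sum_add_distrib, ih]

theorem sum_list_congr {l : List (List α)} {f g : List α → ℝ} (h : ∀ e ∈ l, f e = g e) :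
    (l.map f).sum = (l.map g).sum := by
  rw [List.map_congr_left h]

theorem sum_list_mul (l : List (List α)) (c : ℝ) (f : List α → ℝ) :
    (l.map (fun e => c * f e)).sum = c * (l.map f).sum := by
  induction l with
  | nil => simp
  | cons e l ih =>
    simp only [List.map_cons, List.sum_cons, ih]
    ring

theorem insertion (hα : Fintype.card α = 4) (m : ℕ) : ∀ x y : List α, x.length + y.length = m →
    ∑ a : α, B (x ++ a :: y) = 2 * ((x.length + y.length + 2).choose (x.length + 1) : ℝ) *
      B x * B y := by
  induction m using Nat.strong_induction_on with
  | _ m ih =>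
    intro x y hm
    by_cases hx : Prp x
    swap
    · rw [B_improper hx, mul_zero, zero_mul]
      apply Finset.sum_eq_zero
      intro a _
      apply B_improper
      intro h
      exact hx ((Prp_append _ _).mp h).1
    by_cases hy : Prp y
    swap
    · rw [B_improper hy, mul_zero]
      apply Finset.sum_eq_zero
      intro a _
      apply B_improper
      intro h
      have h2 := ((Prp_append _ _).mp h).2.1
      unfold Prp at h2
      rw [List.isChain_cons] at h2
      exact hy h2.2
    have h1 : ∑ a : α, B (x ++ a :: y) = ∑ a : α, TT x a y -
        (if x = [] then 0 else 2 * B (x ++ y)) - (if y = [] then 0 else 2 * B (x ++ y)) := by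
      rw [Finset.sum_congr rfl (fun a _ => pointwise hx hy a), Finset.sum_sub_distrib,
        Finset.sum_sub_distrib]
      congr 1
      · congr 1
        rcases List.eq_nil_or_concat x with rfl | ⟨x', u, rfl⟩
        · simp
        · simp [List.concat_eq_append]
      · rcases y with _ | ⟨w, y'⟩
        · simp
        · simp
    have h2 : ∑ a : α, TT x a y =
        2 * ((x.length + y.length + 1).choose x.length : ℝ) * (if x = [] then 0 else B x) * B y +
        4 * B (x ++ y) +
        2 * ((x.length + y.length + 1).choose (x.length + 1) : ℝ) * B x *
          (if y = [] then 0 else B y) := by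
      unfold TT
      rw [Finset.sum_add_distrib, Finset.sum_add_distrib]
      congr 1
      · congr 1
        · rw [sum_list]
          have h3 : ((er x).map (fun e => ∑ a : α, B (e ++ a :: y))).sum =
              ((er x).map (fun e => (2 * ((x.length + y.length + 1).choose x.length : ℝ) * B y) *
                B e)).sum := by
            apply sum_list_congr
            intro e he
            have hl := er_length he
            rw [ih (e.length + y.length) (by omega) e y rfl]
            have e1 : e.length + y.length + 2 = x.length + y.length + 1 := by omega
            rw [e1, hl]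
            ring
          rw [h3, sum_list_mul]
          by_cases hx0 : x = []
          · subst hx0
            simp [er]
          · rw [if_neg hx0, B_rec hx0, if_pos hx]
            ring
        · rw [Finset.sum_const, Finset.card_univ, hα]
          simp
      · rw [sum_list]
        have h3 : ((er y).map (fun e => ∑ a : α, B (x ++ a :: e))).sum =
            ((er y).map (fun e => (2 * ((x.length + y.length + 1).choose (x.length + 1) : ℝ) * B x) *
              B e)).sum := by
          apply sum_list_congr
          intro e he
          have hl := er_length he
          rw [ih (x.length + e.length) (by omega) x e rfl]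
          have e1 : x.length + e.length + 2 = x.length + y.length + 1 := by omega
          rw [e1]
        rw [h3, sum_list_mul]
        by_cases hy0 : y = []
        · subst hy0
          simp [er]
        · rw [if_neg hy0, B_rec hy0, if_pos hy]
    rw [h1, h2]
    have hch : ((x.length + y.length + 2).choose (x.length + 1) : ℝ) =
        ((x.length + y.length + 1).choose x.length : ℝ) +
        ((x.length + y.length + 1).choose (x.length + 1) : ℝ) := by
      rw [Nat.choose_succ_succ']
      push_cast
      ring
    rw [hch]
    by_cases hx0 : x = []
    · subst hx0
      by_cases hy0 : y = []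
      · subst hy0
        simp [B_nil]
        norm_num
      · simp [hy0, B_nil]
        ring
    · by_cases hy0 : y = []
      · subst hy0
        simp [hx0, B_nil]
        ring
      · simp [hx0, hy0]
        ring

/-! ### Cyclic words -/

omit [Fintype α] in
/-- cyclically proper words -/
def Cp (l : List α) : Prop := Prp (l ++ l.take 1)

omit [Fintype α] in
instance (l : List α) : Decidable (Cp l) := by unfold Cp; infer_instance

/-- the cyclic weight, with fuel -/
noncomputable def Cn : ℕ → List α → ℝ
  | 0, l => if Cp l then 1 else 0
  | m + 1, l => if Cp l then ((er l).map (Cn m)).sum else 0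

/-- the cyclic weight -/
noncomputable def C (l : List α) : ℝ := Cn (l.length - 3) l

theorem C_three {l : List α} (hl : l.length = 3) : C l = if Cp l then 1 else 0 := by
  unfold C
  rw [hl]
  rfl

theorem C_rec {l : List α} (hl : 4 ≤ l.length) :
    C l = if Cp l then ((er l).map C).sum else 0 := by
  obtain ⟨m, hm⟩ : ∃ m, l.length = m + 4 := ⟨l.length - 4, by omega⟩
  unfold C
  have e0 : l.length - 3 = m + 1 := by omega
  rw [e0]
  simp only [Cn]
  have : (er l).map (Cn m) = (er l).map (fun l => Cn (l.length - 3) l) := by
    apply List.map_congr_left
    intro e he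
    have := er_length he
    have h2 : e.length - 3 = m := by omega
    rw [h2]
  rw [this]

theorem C_improper {l : List α} (h : ¬ Cp l) : C l = 0 := by
  unfold C
  cases h3 : l.length - 3 with
  | zero => simp [Cn, h]
  | succ m => simp [Cn, h]

theorem C_nonneg (l : List α) : 0 ≤ C l := by
  obtain ⟨m, hm⟩ : ∃ m, l.length - 3 = m := ⟨_, rfl⟩
  unfold C
  rw [hm]
  clear hm
  induction m generalizing l with
  | zero =>
    simp only [Cn]
    split_ifs <;> norm_num
  | succ m ih =>
    simp only [Cn]
    split_ifs
    · apply List.sum_nonneg
      intro b hb
      obtain ⟨e, he, rfl⟩ := List.mem_map.mp hb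
      exact ih e
    · exact le_refl _

theorem C_map (σ : Equiv.Perm α) (l : List α) : C (l.map σ) = C l := by
  obtain ⟨m, hm⟩ : ∃ m, l.length - 3 = m := ⟨_, rfl⟩
  unfold C
  rw [List.length_map, hm]
  clear hm
  have her : ∀ l : List α, er (l.map σ) = (er l).map (fun e => e.map σ) := by
    intro l
    induction l with
    | nil => simp [er]
    | cons a l ih =>
      simp only [List.map_cons, er, ih, List.map_map]
      rfl
  have hP : ∀ l : List α, Cp (l.map σ) ↔ Cp l := by
    intro l
    unfold Cp Prp
    rw [← List.map_take, ← List.map_append, List.isChain_map]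
    simp
  induction m generalizing l with
  | zero => simp only [Cn, hP]
  | succ m ih =>
    simp only [Cn, hP, her, List.map_map]
    split_ifs
    · congr 1
      apply List.map_congr_left
      intro e _
      exact ih e
    · rfl

theorem Cp_rot (a h : α) (t : List α) : Cp (a :: h :: t) ↔ Cp (h :: t ++ [a]) := by
  unfold Cp
  have e1 : (a :: h :: t) ++ (a :: h :: t).take 1 = a :: (h :: t ++ [a]) := by simp
  have e2 : (h :: t ++ [a]) ++ (h :: t ++ [a]).take 1 = (h :: t ++ [a]) ++ [h] := by simp
  rw [e1, e2, Prp_append (h :: t ++ [a]) [h]]
  unfold Prp
  rw [List.isChain_cons]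
  simp only [List.cons_append, List.head?_cons, Option.mem_def, Option.some.injEq, forall_eq',
    List.isChain_singleton, true_and]
  have e3 : (h :: (t ++ [a])).getLast? = some a := by
    rw [← List.cons_append]
    exact List.getLast?_concat
  rw [e3]
  simp only [Option.some.injEq, forall_eq']
  tauto

theorem C_rot1 (m : ℕ) : ∀ (a : α) (l : List α), l.length = m + 2 → C (a :: l) = C (l ++ [a]) := by
  induction m with
  | zero =>
    intro a l hl
    obtain ⟨h, t, rfl⟩ : ∃ h t, l = h :: t := by
      cases l with
      | nil => simp at hl
      | cons h t => exact ⟨h, t, rfl⟩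
    rw [C_three (by simp at hl ⊢; omega), C_three (by simp at hl ⊢; omega)]
    simp only [Cp_rot]
  | succ m ih =>
    intro a l hl
    obtain ⟨h, t, rfl⟩ : ∃ h t, l = h :: t := by
      cases l with
      | nil => simp at hl
      | cons h t => exact ⟨h, t, rfl⟩
    rw [C_rec (by simp at hl ⊢; omega), C_rec (by simp at hl ⊢; omega)]
    simp only [Cp_rot]
    split_ifs
    · rw [er_append]
      have e1 : er (a :: h :: t) = (h :: t) :: (er (h :: t)).map (fun e => a :: e) := rfl
      have e2 : er [a] = [[]] := rfl
      rw [e1, e2]
      simp only [List.map_append, List.map_map, List.map_cons, List.sum_append, List.sum_cons,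
        List.map_nil, List.sum_nil, List.append_nil, add_zero]
      rw [add_comm]
      congr 1
      apply sum_list_congr
      intro e he
      have := er_length he
      simp only [Function.comp]
      exact ih a e (by omega)
    · rfl

theorem C_rotate (l : List α) (hl : 3 ≤ l.length) (v : ℕ) : C (l.rotate v) = C l := by
  induction v with
  | zero => simp
  | succ v ih =>
    rw [← ih, ← List.rotate_rotate]
    have hlen : 3 ≤ (l.rotate v).length := by
      rw [List.length_rotate]
      exact hl
    cases h : l.rotate v with
    | nil =>
      rw [h] at hlen
      simp at hlen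
    | cons a t =>
      rw [h] at hlen
      simp only [List.length_cons] at hlen
      rw [List.rotate_cons_succ, List.rotate_zero]
      exact (C_rot1 (t.length - 2) a t (by omega)).symm

theorem C_bad_head (a : α) (l : List α) : C (a :: a :: l) = 0 := by
  apply C_improper
  intro h
  unfold Cp Prp at h
  simp only [List.cons_append] at h
  rw [List.isChain_cons_cons] at h
  exact h.1 rfl

theorem C_bad_last (a : α) (l : List α) : C (a :: (l ++ [a])) = 0 := by
  apply C_improper
  intro h
  unfold Cp at h
  have h2 := (Prp_append _ _).mp h
  have h3 : (a :: (l ++ [a])).getLast? = some a := by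
    rw [← List.cons_append]
    exact List.getLast?_concat
  exact h2.2.2 a (by rw [h3]; rfl) a (by simp) rfl

/-- the sum over deletions -/
noncomputable def TC (a : α) (X : List α) : ℝ := C X + ((er X).map (fun e => C (a :: e))).sum

theorem pointC {X : List α} (hX : Prp X) (hlen : 3 ≤ X.length) (a : α) :
    C (a :: X) = TC a X - (if X.head? = some a then 2 * C X else 0)
      - (if X.getLast? = some a then 2 * C X else 0) := by
  by_cases h1 : X.head? = some a
  · rw [if_pos h1]
    obtain ⟨X', rfl⟩ : ∃ X', X = a :: X' := by
      rw [List.head?_eq_some_iff] at h1
      exact h1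
    rw [C_bad_head]
    have e1 : TC a (a :: X') = 2 * C (a :: X') := by
      unfold TC
      simp only [er, List.map_map, List.map_cons, List.sum_cons]
      rw [sum_eq_zero_of]
      · ring
      · intro e _
        exact C_bad_head a e
    rw [e1]
    by_cases h2 : (a :: X').getLast? = some a
    · rw [if_pos h2]
      obtain ⟨Y, hY⟩ : ∃ Y, a :: X' = Y ++ [a] := by
        rw [List.getLast?_eq_some_iff] at h2
        exact h2
      have e2 : C (a :: X') = 0 := by
        cases Y with
        | nil =>
          simp only [List.nil_append, List.cons.injEq, true_and] at hY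
          subst hY
          simp at hlen
        | cons b Y =>
          simp only [List.cons_append, List.cons.injEq] at hY
          obtain ⟨rfl, rfl⟩ := hY
          exact C_bad_last _ _
      rw [e2]
      ring
    · rw [if_neg h2]
      ring
  · rw [if_neg h1]
    by_cases h2 : X.getLast? = some a
    · rw [if_pos h2]
      obtain ⟨X', rfl⟩ : ∃ X', X = X' ++ [a] := by
        rw [List.getLast?_eq_some_iff] at h2
        exact h2
      rw [C_bad_last]
      have e1 : TC a (X' ++ [a]) = 2 * C (X' ++ [a]) := by
        unfold TC
        rw [er_append]
        have e2 : er [a] = [[]] := rfl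
        rw [e2]
        simp only [List.map_append, List.map_map, List.map_cons, List.sum_append, List.sum_cons,
          List.map_nil, List.sum_nil, List.append_nil, add_zero]
        rw [sum_eq_zero_of, C_rot1 (X'.length - 2) a X' (by simp at hlen; omega)]
        · ring
        · intro e _
          exact C_bad_last a e
      rw [e1]
      ring
    · rw [if_neg h2, sub_zero, sub_zero]
      rw [C_rec (by simp; omega), if_pos]
      · unfold TC
        simp only [er, List.map_map, List.map_cons, List.sum_cons]
        rfl
      · unfold Cp
        have e1 : (a :: X) ++ (a :: X).take 1 = a :: (X ++ [a]) := by simp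
        rw [e1]
        have e2 : Prp (X ++ [a]) := by
          rw [Prp_append]
          refine ⟨hX, by unfold Prp; simp, ?_⟩
          intro b hb c hc
          simp only [List.head?_cons, Option.mem_def, Option.some.injEq] at hc
          subst hc
          rintro rfl
          exact h2 hb
        unfold Prp at e2 ⊢
        rw [List.isChain_cons]
        refine ⟨?_, e2⟩
        intro b hb
        rintro rfl
        apply h1
        cases X with
        | nil => simp at hlen
        | cons x X => simpa using hb

theorem sum_C (hα : Fintype.card α = 4) (m : ℕ) : ∀ X : List α, X.length = m + 2 →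
    ∑ a : α, C (a :: X) = B X := by
  induction m with
  | zero =>
    intro X hX
    obtain ⟨h, z, rfl⟩ : ∃ h z, X = [h, z] := by
      rcases X with _ | ⟨h, _ | ⟨z, _ | ⟨w, X⟩⟩⟩
      · simp at hX
      · simp at hX
      · exact ⟨h, z, rfl⟩
      · simp at hX
    have e1 : ∀ a : α, C (a :: [h, z]) = if (a ≠ h ∧ h ≠ z ∧ z ≠ a) then 1 else 0 := by
      intro a
      rw [C_three (by simp)]
      have : Cp (a :: [h, z]) ↔ (a ≠ h ∧ h ≠ z ∧ z ≠ a) := by
        unfold Cp Prp
        simp
      simp only [this]
    rw [Finset.sum_congr rfl (fun a _ => e1 a), Finset.sum_boole]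
    have e2 : B [h, z] = if h ≠ z then 2 else 0 := by
      rw [B_rec (by simp)]
      have h3 : Prp [h, z] ↔ h ≠ z := by
        unfold Prp
        simp
      simp only [h3]
      have h4 : ∀ b : α, B [b] = 1 := by
        intro b
        rw [B_rec (by simp), if_pos (by unfold Prp; simp)]
        simp [er, B_nil]
      simp only [er, List.map_cons, List.map_nil, List.sum_cons, List.sum_nil, h4]
      norm_num
    rw [e2]
    by_cases hz : h = z
    · simp [hz]
    · rw [if_pos hz]
      have e3 : (univ.filter (fun a : α => a ≠ h ∧ h ≠ z ∧ z ≠ a)) = univ \ {h, z} := by
        ext a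
        simp only [Finset.mem_filter, Finset.mem_univ, true_and, Finset.mem_sdiff,
          Finset.mem_insert, Finset.mem_singleton, not_or]
        constructor
        · rintro ⟨h5, _, h6⟩
          exact ⟨h5, fun h7 => h6 h7.symm⟩
        · rintro ⟨h5, h6⟩
          exact ⟨h5, hz, fun h7 => h6 h7.symm⟩
      rw [e3, Finset.card_sdiff_of_subset (Finset.subset_univ _), Finset.card_univ, hα,
        Finset.card_pair hz]
      norm_num
  | succ m ih =>
    intro X hX
    by_cases hP : Prp X
    swap
    · rw [B_improper hP]
      apply Finset.sum_eq_zero
      intro a _
      apply C_improper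
      intro h
      unfold Cp at h
      have h2 := ((Prp_append _ _).mp h).1
      unfold Prp at h2
      rw [List.isChain_cons] at h2
      exact hP h2.2
    have hX0 : X ≠ [] := by
      rintro rfl
      simp at hX
    rw [Finset.sum_congr rfl (fun a _ => pointC hP (by omega) a), Finset.sum_sub_distrib,
      Finset.sum_sub_distrib]
    have e1 : ∑ a : α, TC a X = 4 * C X + B X := by
      unfold TC
      rw [Finset.sum_add_distrib, Finset.sum_const, Finset.card_univ, hα, sum_list,
        B_rec hX0, if_pos hP]
      congr 1
      · simp
      · apply sum_list_congr
        intro e he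
        have := er_length he
        exact ih e (by omega)
    rw [e1]
    have e2 : ∑ a : α, (if X.head? = some a then 2 * C X else 0) = 2 * C X := by
      rcases X with _ | ⟨w, y'⟩
      · exact absurd rfl hX0
      · simp
    have e3 : ∑ a : α, (if X.getLast? = some a then 2 * C X else 0) = 2 * C X := by
      rcases List.eq_nil_or_concat X with rfl | ⟨x', u, rfl⟩
      · exact absurd rfl hX0
      · simp [List.concat_eq_append]
    rw [e2, e3]
    ring

/-! ### The model -/

/-- the word x i, ..., x (j - 1) -/
def word (x : ℕ → α) (i j : ℕ) : List α := (List.range (j - i)).map (fun k => x (i + k))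

theorem word_length (x : ℕ → α) (i j : ℕ) : (word x i j).length = j - i := by
  simp [word]

theorem word_congr {x y : ℕ → α} {i j : ℕ} (h : ∀ k, i ≤ k → k < j → x k = y k) :
    word x i j = word y i j := by
  unfold word
  apply List.map_congr_left
  intro k hk
  rw [List.mem_range] at hk
  exact h _ (by omega) (by omega)

theorem word_split (x : ℕ → α) {i p j : ℕ} (hp : i ≤ p) (hj : p + 1 ≤ j) :
    word x i j = word x i p ++ x p :: word x (p + 1) j := by
  unfold word
  have e1 : j - i = (p - i) + ((j - (p + 1)) + 1) := by omega
  rw [e1, List.range_add, List.map_append, List.map_map]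
  congr 1
  rw [List.range_succ_eq_map]
  simp only [List.map_cons, List.map_map]
  congr 1
  · simp only [Function.comp]
    congr 1
    omega
  · apply List.map_congr_left
    intro k _
    simp only [Function.comp]
    congr 1
    omega

/-- the path law -/
noncomputable def PP (x : ℕ → α) (i j : ℕ) : ℝ :=
  B (word x i j) / (2 ^ (j - i) * ((j - i + 1).factorial : ℝ))

theorem key_fact (I J : ℕ) (b c : ℝ) :
    2 * ((I + J + 2).choose (I + 1) : ℝ) * b * c / (2 ^ (I + J + 1) * ((I + J + 2).factorial : ℝ)) =
      b / (2 ^ I * ((I + 1).factorial : ℝ)) * (c / (2 ^ J * ((J + 1).factorial : ℝ))) := by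
  have h := Nat.add_choose_mul_factorial_mul_factorial (J + 1) (I + 1)
  have e : J + 1 + (I + 1) = I + J + 2 := by ring
  rw [e] at h
  have h' : ((I + J + 2).choose (I + 1) : ℝ) * ((J + 1).factorial : ℝ) * ((I + 1).factorial : ℝ) =
      ((I + J + 2).factorial : ℝ) := by exact_mod_cast h
  have h1 : ((I + 1).factorial : ℝ) ≠ 0 := by positivity
  have h2 : ((J + 1).factorial : ℝ) ≠ 0 := by positivity
  have h3 : ((I + J + 2).choose (I + 1) : ℝ) ≠ 0 := by
    have : 0 < (I + J + 2).choose (I + 1) := Nat.choose_pos (by omega)
    positivity
  rw [← h']
  field_simp
  ring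

theorem sum_fin_one (f : (Fin 1 → α) → ℝ) : ∑ g : Fin 1 → α, f g = ∑ a : α, f (fun _ => a) := by
  refine Fintype.sum_equiv (Equiv.funUnique (Fin 1) α) _ _ ?_
  intro g
  congr 1
  ext i
  simp only [Equiv.funUnique_apply]
  congr 1
  exact Subsingleton.elim _ _

theorem pathLaw (hα : Fintype.card α = 4) : PathLaw α 1 (PP (α := α)) := by
  refine ⟨?_, ?_, ?_, ?_, ?_, ?_⟩
  · intro x y i j h
    unfold PP
    rw [word_congr h]
  · intro x i j s
    unfold PP
    have e1 : (j + s) - (i + s) = j - i := by omega
    have e2 : word (fun k => x (k + s)) i j = word x (i + s) (j + s) := by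
      unfold word
      rw [e1]
      apply List.map_congr_left
      intro k _
      show x (i + k + s) = x (i + s + k)
      congr 1
      omega
    rw [e1, e2]
  · intro x i
    unfold PP
    have : word x i i = [] := by simp [word]
    rw [this, B_nil]
    simp
  · intro x i j hij
    unfold PP
    have e1 : ∀ a : α, word (Function.update x j a) i (j + 1) = word x i j ++ a :: [] := by
      intro a
      rw [word_split (Function.update x j a) hij (le_refl _)]
      congr 1
      · apply word_congr
        intro k _ hk
        rw [Function.update_of_ne (by omega)]
      · congr 1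
        · simp
        · simp [word]
    simp only [e1]
    rw [← Finset.sum_div, insertion hα _ (word x i j) [] rfl, word_length]
    have e2 : j + 1 - i = (j - i) + 0 + 1 := by omega
    simp only [List.length_nil]
    rw [e2]
    have h := key_fact (j - i) 0 (B (word x i j)) (B ([] : List α))
    rw [h, B_nil]
    simp
  · intro x i p j hip hpj
    rw [sum_fin_one]
    unfold PP
    have e1 : ∀ a : α, word (ins 1 x p (fun _ => a)) i j = word x i p ++ a :: word x (p + 1) j := by
      intro a
      rw [word_split _ hip hpj]
      congr 1
      · apply word_congr
        intro k _ hk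
        unfold ins
        rw [dif_neg (by omega)]
      · congr 1
        · unfold ins
          rw [dif_pos (by omega)]
        · apply word_congr
          intro k hk _
          unfold ins
          rw [dif_neg (by omega)]
    simp only [e1]
    rw [← Finset.sum_div, insertion hα _ (word x i p) (word x (p + 1) j) rfl, word_length,
      word_length]
    have e2 : j - i = (p - i) + (j - (p + 1)) + 1 := by omega
    rw [e2]
    exact key_fact (p - i) (j - (p + 1)) _ _
  · rintro x i j ⟨k, h1, h2, h3⟩
    unfold PP
    rw [word_split x h1 (by omega), word_split x (le_refl (k + 1)) (by omega)]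
    have : word x (k + 1) (k + 1) = [] := by simp [word]
    rw [this, List.nil_append, ← h3, B_bad, zero_div]

theorem cycLaw (hα : Fintype.card α = 4) (n : ℕ) (hn : 3 ≤ n) (hn0 : 0 < n) :
    CycLaw α 1 n hn0 (PP (α := α))
      (fun X => C (List.ofFn X) / (2 ^ (n - 1) * (n.factorial : ℝ))) := by
  refine ⟨?_, ?_, ?_, ?_⟩
  · intro X
    have := C_nonneg (List.ofFn X)
    positivity
  · rintro X ⟨k, hk⟩
    have h0 : C (List.ofFn X) = 0 := by
      have hlen : 3 ≤ (List.ofFn X).length := by simpa using hn
      rw [← C_rotate (List.ofFn X) hlen k]
      have e : ∃ t, (List.ofFn X).rotate k = per hn0 X k :: per hn0 X (k + 1) :: t := by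
        refine ⟨((List.ofFn X).rotate k).drop 2, ?_⟩
        apply List.ext_getElem
        · simp
          omega
        · intro i h1 h2
          rcases i with _ | _ | i
          · simp [List.getElem_rotate, per]
          · simp only [List.getElem_rotate, List.getElem_ofFn, per, List.length_ofFn,
              List.getElem_cons_succ, List.getElem_cons_zero]
            congr 2
            rw [add_comm]
          · simp only [List.getElem_cons_succ, List.getElem_drop]
            congr 1
            omega
      obtain ⟨t, ht⟩ := e
      rw [ht, hk]
      exact C_bad_head _ _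
    simp only [h0, zero_div]
  · intro σ X
    have : List.ofFn (fun k => σ (X k)) = (List.ofFn X).map σ := by
      rw [List.map_ofFn]
      rfl
    simp only [this, C_map]
  · intro v hv X
    rw [sum_fin_one, ← Finset.sum_div]
    have hrot : ∀ a : α, C (List.ofFn (cins 1 v X (fun _ => a))) =
        C (a :: word (fun k => per hn0 X (v + 1 + k)) 0 (n - 1)) := by
      intro a
      rw [← C_rotate (List.ofFn (cins 1 v X (fun _ => a))) (by simpa using hn) v]
      congr 1
      apply List.ext_getElem
      · simp only [List.length_rotate, List.length_ofFn, List.length_cons, word_length]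
        omega
      · intro i h1 h2
        simp only [List.length_rotate, List.length_ofFn] at h1
        rcases i with _ | i
        · simp only [List.getElem_rotate, List.getElem_ofFn, List.length_ofFn,
            List.getElem_cons_zero]
          unfold cins
          rw [dif_pos]
          simp only [zero_add]
          rw [Nat.mod_eq_of_lt hv]
          have : v + n - v = n := by omega
          rw [this, Nat.mod_self]
          norm_num
        · simp only [List.getElem_rotate, List.getElem_ofFn, List.length_ofFn,
            List.getElem_cons_succ]
          unfold cins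
          rw [dif_neg]
          · have e5 : i + 1 + v = v + 1 + i := by ring
            simp only [word, List.getElem_map, List.getElem_range, per, zero_add, e5]
          · intro h3
            have h4 : ((i + 1 + v) % n + n - v) % n = 0 := Nat.lt_one_iff.mp h3
            by_cases h5 : i + 1 + v < n
            · rw [Nat.mod_eq_of_lt h5] at h4
              have h6 : i + 1 + v + n - v = (i + 1) + n := by omega
              rw [h6, Nat.add_mod_right, Nat.mod_eq_of_lt (by omega)] at h4
              omega
            · have h6 : (i + 1 + v) % n = i + 1 + v - n := by
                rw [Nat.mod_eq_sub_mod (by omega), Nat.mod_eq_of_lt (by omega)]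
              rw [h6] at h4
              have h7 : i + 1 + v - n + n - v = i + 1 := by omega
              rw [h7, Nat.mod_eq_of_lt (by omega)] at h4
              omega
    simp only [hrot]
    rw [sum_C hα (n - 3) _ (by
      rw [word_length]
      omega)]
    unfold PP
    have e1 : n - 1 - 0 + 1 = n := by omega
    rw [e1]
    simp

theorem m2 : StM2 := by
  intro n hn
  exact ⟨by omega, PP, _, pathLaw (by simp), cycLaw (by simp) n hn (by omega)⟩

end Pool.Agent.H144R4.Cyc.M2
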