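import Mathlib
import Pool.Agent.H144R4.Cyc.Stmts

set_option autoImplicit false

/-! Task M3 (helper608): the 2-dependent 3-colourings of the cycles. -/

namespace Pool.Agent.H144R4.Cyc.M3

open Finset
open Pool.Agent.H144R4.Cyc

abbrev A := Fin 3

/-- sum of `f` over the words obtained by deletion of one letter -/
noncomputable def del : (List A → ℝ) → List A → ℝ
  | _, [] => 0
  | f, a :: l => f l + del (fun z => f (a :: z)) l

theorem del_cons (f : List A → ℝ) (a : A) (l : List A) :
    del f (a :: l) = f l + del (fun z => f (a :: z)) l := rfl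

theorem del_nil (f : List A → ℝ) : del f [] = 0 := rfl

theorem del_append (f : List A → ℝ) (x y : List A) :
    del f (x ++ y) = del (fun z => f (z ++ y)) x + del (fun z => f (x ++ z)) y := by
  induction x generalizing f with
  | nil => simp [del_nil]
  | cons a x ih =>
    rw [List.cons_append, del_cons, ih, del_cons]
    simp only [List.cons_append]
    ring

theorem del_congr (f g : List A → ℝ) (l : List A) (h : ∀ z, z.length + 1 = l.length → f z = g z) :
    del f l = del g l := by
  induction l generalizing f g with
  | nil => rfl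
  | cons a l ih =>
    rw [del_cons, del_cons, h l (by simp)]
    congr 1
    refine ih _ _ fun z hz => h _ ?_
    simp [hz]

theorem del_zero (f : List A → ℝ) (l : List A) (h : ∀ z, f z = 0) : del f l = 0 := by
  induction l generalizing f with
  | nil => rfl
  | cons a l ih => rw [del_cons, h, ih _ (fun z => h _), add_zero]

theorem del_nonneg (f : List A → ℝ) (l : List A) (h : ∀ z, 0 ≤ f z) : 0 ≤ del f l := by
  induction l generalizing f with
  | nil => exact le_rfl
  | cons a l ih => rw [del_cons]; exact add_nonneg (h _) (ih _ fun z => h _)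

theorem del_smul (c : ℝ) (f : List A → ℝ) (l : List A) :
    del (fun z => c * f z) l = c * del f l := by
  induction l generalizing f with
  | nil => simp [del_nil]
  | cons a l ih => rw [del_cons, del_cons, ih]; ring

theorem del_sum {ι : Type} (s : Finset ι) (f : ι → List A → ℝ) (l : List A) :
    ∑ i ∈ s, del (f i) l = del (fun z => ∑ i ∈ s, f i z) l := by
  induction l generalizing f with
  | nil => simp [del_nil]
  | cons a l ih =>
    simp only [del_cons]
    rw [Finset.sum_add_distrib, ih]

theorem del_map (σ : A → A) (f : List A → ℝ) (l : List A) :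
    del f (l.map σ) = del (fun z => f (z.map σ)) l := by
  induction l generalizing f with
  | nil => rfl
  | cons a l ih =>
    rw [List.map_cons, del_cons, ih, del_cons]
    rfl

theorem del_reverse (f : List A → ℝ) (l : List A) :
    del f l.reverse = del (fun z => f z.reverse) l := by
  induction l generalizing f with
  | nil => rfl
  | cons a l ih =>
    rw [List.reverse_cons, del_append, ih, del_cons, del_cons, del_nil]
    simp only [List.reverse_cons, List.append_nil, add_zero]
    ring

open Classical in
noncomputable def Bn : ℕ → List A → ℝ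
  | 0, _ => 1
  | n + 1, l => if l.IsChain (· ≠ ·) then del (Bn n) l else 0

noncomputable def B (l : List A) : ℝ := Bn l.length l

theorem B_nil : B [] = 1 := rfl

open Classical in
theorem B_eq (l : List A) (h : l ≠ []) : B l = if l.IsChain (· ≠ ·) then del B l else 0 := by
  have h1 : 0 < l.length := List.length_pos_iff.2 h
  obtain ⟨n, hn⟩ := Nat.exists_eq_succ_of_ne_zero h1.ne'
  unfold B
  rw [hn, Bn]
  congr 1
  refine del_congr _ _ _ fun z hz => ?_
  have : z.length = n := by omega
  rw [this]

theorem B_zero (l : List A) (h : ¬ l.IsChain (· ≠ ·)) : B l = 0 := by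
  rw [B_eq l (by rintro rfl; exact h List.isChain_nil), if_neg h]

theorem B_del (l : List A) (h : l ≠ []) (h' : l.IsChain (· ≠ ·)) : B l = del B l := by
  rw [B_eq l h, if_pos h']

theorem B_nonneg : ∀ (n : ℕ) (l : List A), 0 ≤ Bn n l
  | 0, _ => zero_le_one
  | n + 1, l => by
    rw [Bn]
    split_ifs
    · exact del_nonneg _ _ (B_nonneg n)
    · exact le_rfl

theorem ne_comm' : (fun a b : A => b ≠ a) = (· ≠ ·) := by
  funext a b
  exact propext ne_comm

theorem B_reverse : ∀ (n : ℕ) (l : List A), l.length = n → B l.reverse = B l := by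
  intro n
  induction n with
  | zero =>
    intro l hl
    rw [List.length_eq_zero_iff.1 hl]; rfl
  | succ n ih =>
    intro l hl
    have h0 : l ≠ [] := by rintro rfl; simp at hl
    by_cases hc : l.IsChain (· ≠ ·)
    · have hc' : l.reverse.IsChain (· ≠ ·) := by
        rw [List.isChain_reverse]
        exact hc.imp fun a b h => h.symm
      rw [B_del l h0 hc, B_del l.reverse (by simpa using h0) hc', del_reverse,
        del_congr _ B l (fun z hz => ih z (by omega))]
    · have hc' : ¬ l.reverse.IsChain (· ≠ ·) := by
        rw [List.isChain_reverse]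
        exact fun h => hc (h.imp fun a b h => h.symm)
      rw [B_zero l hc, B_zero _ hc']

/-- one letter at the left end -/
theorem T_left : ∀ (n : ℕ) (y : List A), y.length = n → ∑ a : A, B (a :: y) = (n + 3) * B y := by
  intro n
  induction n with
  | zero =>
    intro y hy
    rw [List.length_eq_zero_iff.1 hy]
    have : ∀ a : A, B [a] = 1 := by
      intro a
      rw [B_del _ (by simp) (List.isChain_singleton a), del_cons, del_nil, B_nil, add_zero]
    simp only [this, B_nil]
    simp
  | succ n ih =>
    intro y hy
    by_cases hc : y.IsChain (· ≠ ·)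
    swap
    · rw [B_zero y hc, mul_zero]
      refine Finset.sum_eq_zero fun a _ => B_zero _ fun h => hc ?_
      cases y with
      | nil => exact List.isChain_nil
      | cons v y => exact (List.isChain_cons_cons.1 h).2
    obtain ⟨v, y', rfl⟩ : ∃ v y', y = v :: y' := by
      cases y with
      | nil => simp at hy
      | cons v y' => exact ⟨v, y', rfl⟩
    have h1 : ∀ a : A, B (a :: v :: y') =
        (if a ≠ v then B (v :: y') else 0) + del (fun z => B (a :: z)) (v :: y') -
          (if a ≠ v then 0 else B (v :: y')) := by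
      intro a
      by_cases hav : a = v
      · subst hav
        have e1 : B (a :: a :: y') = 0 := B_zero _ fun h => (List.isChain_cons_cons.1 h).1 rfl
        have e2 : del (fun z => B (a :: z)) (a :: y') = B (a :: y') := by
          rw [del_cons, del_zero _ _ (fun z => B_zero _ fun h => (List.isChain_cons_cons.1 h).1 rfl),
            add_zero]
        rw [e1, e2]
        simp
      · rw [B_del _ (by simp) (List.isChain_cons_cons.2 ⟨hav, hc⟩), del_cons]
        simp [hav]
    simp only [h1]
    rw [Finset.sum_sub_distrib, Finset.sum_add_distrib, del_sum,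
      del_congr _ (fun z => ((n : ℝ) + 3) * B z) _ (fun z hz => ih z (by simp at hz hy ⊢; omega)),
      del_smul, ← B_del _ (by simp) hc]
    have e3 : ∑ a : A, (if a ≠ v then B (v :: y') else 0) = 2 * B (v :: y') := by
      fin_cases v <;> simp [Fin.sum_univ_three] <;> ring
    have e4 : ∑ a : A, (if a ≠ v then 0 else B (v :: y')) = B (v :: y') := by
      fin_cases v <;> simp [Fin.sum_univ_three]
    rw [e3, e4]
    push_cast
    ring

theorem T_right (x : List A) : ∑ a : A, B (x ++ [a]) = (x.length + 3) * B x := by
  have h := T_left x.length x.reverse (by simp)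
  rw [B_reverse _ x rfl] at h
  rw [← h]
  refine Finset.sum_congr rfl fun a _ => ?_
  rw [← B_reverse _ (x ++ [a]) rfl]
  simp

/-- the finite identity -/
theorem fin_id (u v : A) (d e1 e2 : A → A → ℝ) (t : A → ℝ)
    (hd : ∀ a b, ¬ (u ≠ a ∧ a ≠ b ∧ b ≠ v) → d a b = 0)
    (he1 : ∀ a b, (a = b ∨ b = v) → e1 a b = 0) (he1u : ∀ b, e1 u b = t b)
    (he2 : ∀ a b, (u = a ∨ a = b) → e2 a b = 0) (he2v : ∀ a, e2 a v = t a)
    (htu : t u = 0) (htv : t v = 0) :
    ∑ a : A, ∑ b : A, (if u ≠ a ∧ a ≠ b ∧ b ≠ v then d a b + e1 a b + e2 a b + t b + t a else 0) =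
      ∑ a : A, ∑ b : A, (d a b + e1 a b + e2 a b) := by
  have key : ∀ a b : A, (if u ≠ a ∧ a ≠ b ∧ b ≠ v then d a b + e1 a b + e2 a b + t b + t a else 0) =
      (d a b + e1 a b + e2 a b) +
        ((if u ≠ a ∧ a ≠ b ∧ b ≠ v then t b + t a else 0) -
          (if u = a then t b else 0) - (if b = v then t a else 0)) := by
    intro a b
    by_cases h1 : u = a
    · subst h1
      have := he1u b
      have h2 := he2 u b (Or.inl rfl)
      have h3 := hd u b (by tauto)
      by_cases h4 : b = v
      · subst h4
        simp [this, h2, h3, htu]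
      · simp [this, h2, h3, h4]
    · by_cases h4 : b = v
      · subst h4
        have := he2v a
        have h2 := he1 a b (Or.inr rfl)
        have h3 := hd a b (by tauto)
        simp [this, h2, h3, h1]
      · by_cases h5 : a = b
        · subst h5
          have h2 := he1 a a (Or.inl rfl)
          have h3 := he2 a a (Or.inr rfl)
          have h6 := hd a a (by tauto)
          simp [h1, h2, h3, h6, h4]
        · simp only [if_pos (show u ≠ a ∧ a ≠ b ∧ b ≠ v from ⟨h1, h5, h4⟩), if_neg h1, if_neg h4]
          ring
  simp only [key]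
  rw [show (∑ a : A, ∑ b : A, ((d a b + e1 a b + e2 a b) +
        ((if u ≠ a ∧ a ≠ b ∧ b ≠ v then t b + t a else 0) -
          (if u = a then t b else 0) - (if b = v then t a else 0)))) =
      (∑ a : A, ∑ b : A, (d a b + e1 a b + e2 a b)) +
      (∑ a : A, ∑ b : A, ((if u ≠ a ∧ a ≠ b ∧ b ≠ v then t b + t a else 0) -
          (if u = a then t b else 0) - (if b = v then t a else 0))) by
    simp only [Finset.sum_add_distrib]]
  have h0 : (∑ a : A, ∑ b : A, ((if u ≠ a ∧ a ≠ b ∧ b ≠ v then t b + t a else 0) -
          (if u = a then t b else 0) - (if b = v then t a else 0))) = 0 := by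
    clear key hd he1 he1u he2 he2v d e1 e2
    fin_cases u <;> fin_cases v <;> simp [Fin.sum_univ_three] at htu htv ⊢ <;>
      simp [htu, htv] <;> ring
  rw [h0, add_zero]

/-- two letters in the middle -/
theorem T_mid : ∀ (n : ℕ) (x y : List A), x.length + y.length = n →
    ∑ a : A, ∑ b : A, B (x ++ a :: b :: y) =
      2 * ((n + 4).choose (x.length + 2) : ℝ) * B x * B y := by
  intro n
  induction n using Nat.strong_induction_on with
  | _ n ih =>
  intro x y h
  rcases List.eq_nil_or_concat y with rfl | hy0
  · -- `y = []`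
    have e1 : ∀ a b : A, B (x ++ a :: b :: []) = B ((x ++ [a]) ++ [b]) := by
      intro a b; simp
    simp only [e1]
    rw [Finset.sum_congr rfl fun a _ => T_right (x ++ [a])]
    have e2 : ∀ a : A, (((x ++ [a]).length : ℝ) + 3) * B (x ++ [a]) = (n + 4) * B (x ++ [a]) := by
      intro a
      rw [← h]
      simp only [List.length_append, List.length_singleton, List.length_nil]
      push_cast
      ring
    simp only [e2]
    rw [← Finset.mul_sum, T_right, B_nil]
    have hn : x.length = n := by simpa using h
    rw [hn, show n + 4 = (n + 2) + 2 by omega, Nat.choose_symm_add, Nat.cast_choose_two]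
    push_cast
    ring
  rcases List.eq_nil_or_concat x with rfl | ⟨x', u, rfl⟩
  · simp only [List.nil_append]
    rw [Finset.sum_comm, Finset.sum_congr rfl fun b _ => T_left _ (b :: y) rfl]
    have hn : y.length = n := by simpa using h
    have e2 : ∀ b : A, (((b :: y).length : ℝ) + 3) * B (b :: y) = (n + 4) * B (b :: y) := by
      intro a
      rw [List.length_cons, hn]
      push_cast
      ring
    simp only [e2]
    rw [← Finset.mul_sum, T_left n y hn, B_nil]
    simp only [List.length_nil, zero_add]
    rw [Nat.cast_choose_two]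
    push_cast
    ring
  obtain ⟨v, y', rfl⟩ : ∃ v y', y = v :: y' := by
    cases y with
    | nil => obtain ⟨_, _, h'⟩ := hy0; simp at h'
    | cons v y' => exact ⟨v, y', rfl⟩
  rw [List.concat_eq_append] at h ⊢
  have hiff : ∀ a b : A, ((x' ++ [u]) ++ a :: b :: v :: y').IsChain (· ≠ ·) ↔
      (x' ++ [u]).IsChain (· ≠ ·) ∧ u ≠ a ∧ a ≠ b ∧ b ≠ v ∧ (v :: y').IsChain (· ≠ ·) := by
    intro a b
    rw [List.append_assoc, List.singleton_append, List.isChain_append_cons_cons,
      List.isChain_cons_cons, List.isChain_cons_cons]
  by_cases hx : (x' ++ [u]).IsChain (· ≠ ·)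
  swap
  · rw [B_zero (x' ++ [u]) hx]
    simp only [mul_zero, zero_mul]
    exact Finset.sum_eq_zero fun a _ => Finset.sum_eq_zero fun b _ =>
      B_zero _ fun hc => hx ((hiff a b).1 hc).1
  by_cases hy : (v :: y').IsChain (· ≠ ·)
  swap
  · rw [B_zero (v :: y') hy]
    simp only [mul_zero]
    exact Finset.sum_eq_zero fun a _ => Finset.sum_eq_zero fun b _ =>
      B_zero _ fun hc => hy ((hiff a b).1 hc).2.2.2.2
  have hx0 : x' ++ [u] ≠ [] := by simp
  set x := x' ++ [u] with hxdef
  set y := v :: y' with hydef
  have ex : ∀ a b : A, del (fun z => B (z ++ a :: b :: y)) x =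
      del (fun z => B ((z ++ [u]) ++ a :: b :: y)) x' + B (x' ++ a :: b :: y) := by
    intro a b
    rw [hxdef, del_append, del_cons, del_nil]
    simp
  have ey : ∀ a b : A, del (fun z => B (x ++ a :: b :: z)) y =
      B (x ++ a :: b :: y') + del (fun z => B (x ++ a :: b :: v :: z)) y' := by
    intro a b
    rw [hydef, del_cons]
  have h1 : ∀ a b : A, B (x ++ a :: b :: y) = if u ≠ a ∧ a ≠ b ∧ b ≠ v then
      (del (fun z => B ((z ++ [u]) ++ a :: b :: y)) x' +
        del (fun z => B (x ++ a :: b :: v :: z)) y') + B (x' ++ a :: b :: y) +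
        B (x ++ a :: b :: y') + B (x ++ b :: y) + B (x ++ a :: y) else 0 := by
    intro a b
    split_ifs with hok
    · rw [B_del _ (by simp) ((hiff a b).2 ⟨hx, hok.1, hok.2.1, hok.2.2, hy⟩), del_append, ex,
        del_cons, del_cons, ey]
      ring
    · exact B_zero _ fun hc => hok ⟨((hiff a b).1 hc).2.1, ((hiff a b).1 hc).2.2.1,
        ((hiff a b).1 hc).2.2.2.1⟩
  have hx2 : ∀ (z l : List A) (a : A), ((z ++ [u]) ++ a :: l).IsChain (· ≠ ·) → u ≠ a := by
    intro z l a hc
    rw [List.append_assoc, List.singleton_append, List.isChain_append_cons_cons] at hc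
    exact hc.2.1
  have hmid : ∀ (z l : List A) (a b : A), (z ++ a :: b :: l).IsChain (· ≠ ·) → a ≠ b := by
    intro z l a b hc
    rw [List.isChain_append_cons_cons] at hc
    exact hc.2.1
  have hmid2 : ∀ (z l : List A) (a b c : A), (z ++ a :: b :: c :: l).IsChain (· ≠ ·) → b ≠ c := by
    intro z l a b c hc
    rw [List.isChain_append_cons_cons, List.isChain_cons_cons] at hc
    exact hc.2.2.1
  simp only [h1]
  rw [fin_id u v _ (fun a b => B (x' ++ a :: b :: y)) (fun a b => B (x ++ a :: b :: y'))
    (fun b => B (x ++ b :: y))]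
  · have e1 : ∀ a b : A, (del (fun z => B ((z ++ [u]) ++ a :: b :: y)) x' +
        del (fun z => B (x ++ a :: b :: v :: z)) y') + B (x' ++ a :: b :: y) +
        B (x ++ a :: b :: y') = del (fun z => B (z ++ a :: b :: y)) x +
          del (fun z => B (x ++ a :: b :: z)) y := by
      intro a b
      rw [ex, ey]
      ring
    simp only [e1]
    simp only [Finset.sum_add_distrib]
    simp only [del_sum]
    obtain ⟨m, rfl⟩ : ∃ m, n = m + 1 := by
      refine ⟨n - 1, ?_⟩
      have : 1 ≤ y.length := by rw [hydef]; simp
      omega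
    rw [del_congr _ (fun z => (2 * ((m + 4).choose (x.length + 1) : ℝ) * B y) * B z) x,
      del_congr _ (fun z => (2 * ((m + 4).choose (x.length + 2) : ℝ) * B x) * B z) y,
      del_smul, del_smul, ← B_del x hx0 hx, ← B_del y (by simp [hydef]) hy]
    · have e2 : ((m + 1 + 4).choose (x.length + 2) : ℝ) =
          (m + 4).choose (x.length + 1) + (m + 4).choose (x.length + 2) := by
        rw [show m + 1 + 4 = (m + 4) + 1 by omega, show x.length + 2 = (x.length + 1) + 1 by omega,
          Nat.choose_succ_succ]
        push_cast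
        ring
      rw [e2]
      ring
    · intro z hz
      show (∑ a : A, ∑ b : A, B (x ++ a :: b :: z)) = _
      rw [ih m (by omega) x z (by omega)]
    · intro z hz
      show (∑ a : A, ∑ b : A, B (z ++ a :: b :: y)) = _
      rw [ih m (by omega) z y (by omega), show z.length + 2 = x.length + 1 by omega]
      ring
  · intro a b hab
    rw [del_zero _ _ fun z => ?_, del_zero _ _ fun z => ?_, add_zero]
    · refine B_zero _ fun hc => hab ⟨?_, ?_, ?_⟩
      · exact hx2 _ _ _ hc
      · exact hmid _ _ _ _ hc
      · exact hmid2 _ _ _ _ _ hc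
    · refine B_zero _ fun hc => hab ⟨?_, ?_, ?_⟩
      · exact hx2 _ _ _ hc
      · exact hmid _ _ _ _ hc
      · exact hmid2 _ _ _ _ _ hc
  · rintro a b (rfl | rfl)
    · exact B_zero _ fun hc => hmid _ _ _ _ hc rfl
    · exact B_zero _ fun hc => hmid2 _ _ _ _ _ hc rfl
  · intro b
    show B (x' ++ u :: b :: y) = B (x ++ b :: y)
    rw [hxdef]; simp
  · rintro a b (rfl | rfl)
    · exact B_zero _ fun hc => hx2 _ _ _ hc rfl
    · exact B_zero _ fun hc => hmid _ _ _ _ hc rfl
  · intro a; rfl
  · exact B_zero _ fun hc => hx2 _ _ _ hc rfl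
  · exact B_zero _ fun hc => hmid _ _ _ _ hc rfl

/-! ### Cyclic words -/

def cp : List A → Prop
  | [] => False
  | a :: l => (a :: (l ++ [a])).IsChain (· ≠ ·)

theorem cp_cons (a : A) (l : List A) : cp (a :: l) ↔ (a :: (l ++ [a])).IsChain (· ≠ ·) := Iff.rfl

open Classical in
noncomputable def Cn : ℕ → List A → ℝ
  | 0, l => if cp l then 1 else 0
  | n + 1, l => if cp l then del (Cn n) l else 0

noncomputable def C (l : List A) : ℝ := Cn (l.length - 3) l

open Classical in
theorem C_three (l : List A) (h : l.length = 3) : C l = if cp l then 1 else 0 := by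
  unfold C
  rw [h]
  rfl

theorem C_zero (l : List A) (h : ¬ cp l) : C l = 0 := by
  unfold C
  cases l.length - 3 with
  | zero => rw [Cn, if_neg h]
  | succ n => rw [Cn, if_neg h]

theorem C_del (l : List A) (h : 4 ≤ l.length) (h' : cp l) : C l = del C l := by
  obtain ⟨n, hn⟩ : ∃ n, l.length - 3 = n + 1 := ⟨l.length - 4, by omega⟩
  unfold C
  rw [hn, Cn, if_pos h']
  refine del_congr _ _ _ fun z hz => ?_
  have : z.length - 3 = n := by omega
  rw [this]

theorem Cn_nonneg : ∀ (n : ℕ) (l : List A), 0 ≤ Cn n l
  | 0, l => by rw [Cn]; split_ifs <;> norm_num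
  | n + 1, l => by
    rw [Cn]
    split_ifs
    · exact del_nonneg _ _ (Cn_nonneg n)
    · exact le_rfl

theorem cp_rot (a : A) (l : List A) (h : l ≠ []) : cp (a :: l) ↔ cp (l ++ [a]) := by
  cases l with
  | nil => exact absurd rfl h
  | cons b l =>
    rw [List.cons_append, cp_cons, cp_cons, List.cons_append, List.isChain_cons_cons]
    have e : b :: ((l ++ [a]) ++ [b]) = (b :: l) ++ a :: b :: [] := by simp
    rw [e, List.isChain_append_cons_cons]
    simp only [List.cons_append, List.isChain_singleton, and_true]
    tauto

theorem C_rot : ∀ (n : ℕ) (a : A) (l : List A), l.length = n + 2 → C (a :: l) = C (l ++ [a]) := by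
  intro n
  induction n with
  | zero =>
    intro a l hl
    rw [C_three _ (by simp [hl]), C_three _ (by simp [hl])]
    have := cp_rot a l (by rintro rfl; simp at hl)
    by_cases h : cp (a :: l)
    · rw [if_pos h, if_pos (this.1 h)]
    · rw [if_neg h, if_neg (fun h' => h (this.2 h'))]
  | succ n ih =>
    intro a l hl
    have hc := cp_rot a l (by rintro rfl; simp at hl)
    by_cases h : cp (a :: l)
    · rw [C_del _ (by simp [hl]) h, C_del _ (by simp [hl]) (hc.1 h), del_cons, del_append, del_cons,
        del_nil, del_congr _ (fun z => C (z ++ [a])) l (fun z hz => ih a z (by omega))]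
      simp only [List.append_nil]
      ring
    · rw [C_zero _ h, C_zero _ (fun h' => h (hc.2 h'))]

theorem D_eq : ∀ (n : ℕ) (X : List A), X.length = n + 1 →
    ∑ a : A, ∑ b : A, C (a :: b :: X) = 2 * B X := by
  intro n
  induction n with
  | zero =>
    intro X hX
    obtain ⟨c, rfl⟩ := List.length_eq_one_iff.1 hX
    have h1 : ∀ a b : A, C [a, b, c] = if a ≠ b ∧ b ≠ c ∧ c ≠ a then 1 else 0 := by
      intro a b
      rw [C_three _ rfl]
      have : cp [a, b, c] ↔ (a ≠ b ∧ b ≠ c ∧ c ≠ a) := by
        rw [cp_cons]
        simp [List.isChain_cons_cons]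
      simp only [this]
    have h2 : B [c] = 1 := by
      rw [B_del _ (by simp) (List.isChain_singleton c), del_cons, del_nil, B_nil, add_zero]
    simp only [h1, h2]
    clear h1 h2 hX
    fin_cases c <;> simp [Fin.sum_univ_three, -Finset.sum_boole] <;> norm_num
  | succ n ih =>
    intro X hX
    obtain ⟨v, Y, rfl⟩ : ∃ v Y, X = v :: Y := by
      cases X with
      | nil => simp at hX
      | cons v y' => exact ⟨v, y', rfl⟩
    rcases List.eq_nil_or_concat Y with rfl | ⟨Z, w, rfl⟩
    · simp at hX
    rw [List.concat_eq_append] at hX ⊢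
    have hiff : ∀ a b : A, cp (a :: b :: v :: (Z ++ [w])) ↔
        w ≠ a ∧ a ≠ b ∧ b ≠ v ∧ (v :: (Z ++ [w])).IsChain (· ≠ ·) := by
      intro a b
      rw [cp_cons, List.cons_append, List.cons_append, List.isChain_cons_cons,
        List.isChain_cons_cons]
      have e : v :: ((Z ++ [w]) ++ [a]) = (v :: Z) ++ w :: a :: [] := by simp
      rw [e, List.isChain_append_cons_cons]
      simp only [List.cons_append, List.isChain_singleton, and_true]
      tauto
    by_cases hch : (v :: (Z ++ [w])).IsChain (· ≠ ·)
    swap
    · rw [B_zero _ hch, mul_zero]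
      exact Finset.sum_eq_zero fun a _ => Finset.sum_eq_zero fun b _ =>
        C_zero _ fun hc => hch ((hiff a b).1 hc).2.2.2
    have ev : ∀ a b : A, del (fun z => C (a :: b :: z)) (v :: (Z ++ [w])) =
        del (fun z => C (a :: b :: v :: (z ++ [w]))) Z + C (a :: b :: v :: Z) +
          C (a :: b :: (Z ++ [w])) := by
      intro a b
      rw [del_cons, del_append, del_cons, del_nil]
      simp only [List.append_nil]
      ring
    have h1 : ∀ a b : A, C (a :: b :: v :: (Z ++ [w])) = if w ≠ a ∧ a ≠ b ∧ b ≠ v then
        del (fun z => C (a :: b :: v :: (z ++ [w]))) Z + C (a :: b :: v :: Z) +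
          C (a :: b :: (Z ++ [w])) + C (b :: v :: (Z ++ [w])) + C (a :: v :: (Z ++ [w])) else 0 := by
      intro a b
      split_ifs with hok
      · rw [C_del _ (by simp at hX ⊢) ((hiff a b).2 ⟨hok.1, hok.2.1, hok.2.2, hch⟩), del_cons,
          del_cons, ev]
        ring
      · exact C_zero _ fun hc => hok ⟨((hiff a b).1 hc).1, ((hiff a b).1 hc).2.1,
          ((hiff a b).1 hc).2.2.1⟩
    simp only [h1]
    rw [fin_id w v _ (fun a b => C (a :: b :: v :: Z)) (fun a b => C (a :: b :: (Z ++ [w])))
      (fun b => C (b :: v :: (Z ++ [w])))]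
    · simp only [← ev]
      simp only [del_sum]
      rw [del_congr _ (fun z => 2 * B z) _ (fun z hz => ih z (by omega)), del_smul,
        ← B_del _ (by simp) hch]
    · intro a b hab
      refine del_zero _ _ fun z => C_zero _ fun hc => hab ?_
      rw [cp_cons, List.cons_append, List.cons_append, List.isChain_cons_cons,
        List.isChain_cons_cons] at hc
      have e : v :: ((z ++ [w]) ++ [a]) = (v :: z) ++ w :: a :: [] := by simp
      rw [e, List.isChain_append_cons_cons] at hc
      exact ⟨hc.2.2.2.1, hc.1, hc.2.1⟩
    · intro a b hab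
      refine C_zero _ fun hc => ?_
      rw [cp_cons, List.cons_append, List.cons_append, List.isChain_cons_cons,
        List.isChain_cons_cons] at hc
      rcases hab with h | h
      · exact hc.1 h
      · exact hc.2.1 h
    · intro b
      show C (w :: b :: v :: Z) = C (b :: v :: (Z ++ [w]))
      exact C_rot Z.length w (b :: v :: Z) (by simp)
    · intro a b hab
      refine C_zero _ fun hc => ?_
      rw [cp_cons, List.cons_append, List.isChain_cons_cons] at hc
      have e : b :: ((Z ++ [w]) ++ [a]) = (b :: Z) ++ w :: a :: [] := by simp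
      rw [e, List.isChain_append_cons_cons] at hc
      rcases hab with h | h
      · exact hc.2.2.1 h
      · exact hc.1 h
    · intro a; rfl
    · refine C_zero _ fun hc => ?_
      rw [cp_cons, List.cons_append] at hc
      have e : w :: v :: ((Z ++ [w]) ++ [w]) = (w :: v :: Z) ++ w :: w :: [] := by simp
      rw [e, List.isChain_append_cons_cons] at hc
      exact hc.2.1 rfl
    · refine C_zero _ fun hc => ?_
      rw [cp_cons, List.cons_append, List.isChain_cons_cons] at hc
      exact hc.1 rfl

/-! ### The path law -/

noncomputable def P (x : ℕ → A) (i j : ℕ) : ℝ :=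
  2 * B ((List.range' i (j - i)).map x) / ((j - i + 2).factorial : ℝ)

theorem sum_two (F : A → A → ℝ) : ∑ g : Fin 2 → A, F (g 0) (g 1) = ∑ a : A, ∑ b : A, F a b := by
  rw [← Fintype.sum_prod_type']
  exact Fintype.sum_equiv (finTwoArrowEquiv A) _ _ fun g => rfl

theorem split2 (x : ℕ → A) (i p j : ℕ) (h1 : i ≤ p) (h2 : p + 2 ≤ j) (g : Fin 2 → A) :
    (List.range' i (j - i)).map (ins 2 x p g) =
      (List.range' i (p - i)).map x ++ g 0 :: g 1 :: (List.range' (p + 2) (j - (p + 2))).map x := by
  have e1 : List.range' i (j - i) = List.range' i (p - i) ++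
      p :: (p + 1) :: List.range' (p + 1 + 1) (j - (p + 2)) := by
    rw [← List.range'_succ, ← List.range'_succ]
    have e2 : List.range' p (j - (p + 2) + 1 + 1) = List.range' (i + (p - i)) (j - (p + 2) + 1 + 1) := by
      congr 1
      omega
    rw [e2, List.range'_append_1]
    congr 1
    omega
  rw [e1, List.map_append, List.map_cons, List.map_cons]
  have a1 : (List.range' i (p - i)).map (ins 2 x p g) = (List.range' i (p - i)).map x := by
    refine List.map_congr_left fun k hk => ?_
    rw [List.mem_range'_1] at hk
    unfold ins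
    rw [dif_neg (by omega)]
  have a2 : ins 2 x p g p = g 0 := by
    unfold ins
    rw [dif_pos (by omega)]
    congr 1
    apply Fin.ext
    simp
  have a3 : ins 2 x p g (p + 1) = g 1 := by
    unfold ins
    rw [dif_pos (by omega)]
    congr 1
    apply Fin.ext
    simp
  have a4 : (List.range' (p + 1 + 1) (j - (p + 2))).map (ins 2 x p g) =
      (List.range' (p + 2) (j - (p + 2))).map x := by
    refine List.map_congr_left fun k hk => ?_
    rw [List.mem_range'_1] at hk
    unfold ins
    rw [dif_neg (by omega)]
  rw [a1, a2, a3, a4]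

theorem pathLaw : PathLaw (Fin 3) 2 P := by
  refine ⟨?_, ?_, ?_, ?_, ?_, ?_⟩
  · intro x y i j h
    unfold P
    have : (List.range' i (j - i)).map x = (List.range' i (j - i)).map y := by
      refine List.map_congr_left fun k hk => ?_
      rw [List.mem_range'_1] at hk
      exact h k hk.1 (by omega)
    rw [this]
  · intro x i j s
    unfold P
    have h1 : j + s - (i + s) = j - i := by omega
    rw [h1]
    have : (List.range' i (j - i)).map (fun k => x (k + s)) =
        (List.range' (i + s) (j - i)).map x := by
      rw [List.range'_eq_map_range, List.range'_eq_map_range, List.map_map, List.map_map]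
      refine List.map_congr_left fun k _ => ?_
      show x (i + k + s) = x (i + s + k)
      congr 1
      omega
    rw [this]
  · intro x i
    unfold P
    simp [B_nil]
  · intro x i j hij
    have h1 : ∀ a : A, (List.range' i (j + 1 - i)).map (Function.update x j a) =
        (List.range' i (j - i)).map x ++ [a] := by
      intro a
      rw [show j + 1 - i = (j - i) + 1 by omega, List.range'_1_concat, List.map_append]
      congr 1
      · refine List.map_congr_left fun k hk => ?_
        rw [List.mem_range'_1] at hk
        rw [Function.update_of_ne (by omega)]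
      · simp [show i + (j - i) = j by omega]
    unfold P
    simp only [h1]
    rw [← Finset.sum_div, ← Finset.mul_sum, T_right, List.length_map, List.length_range',
      show j + 1 - i + 2 = (j - i + 2) + 1 by omega, Nat.factorial_succ]
    have h2 : ((j - i + 2).factorial : ℝ) ≠ 0 := by positivity
    have h3 : ((j - i : ℕ) : ℝ) + 3 ≠ 0 := by positivity
    push_cast
    field_simp
    ring
  · intro x i p j h1 h2
    unfold P
    simp only [split2 x i p j h1 h2]
    rw [sum_two (fun a b => 2 * B ((List.range' i (p - i)).map x ++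
      a :: b :: (List.range' (p + 2) (j - (p + 2))).map x) / ((j - i + 2).factorial : ℝ))]
    simp only [← Finset.sum_div, ← Finset.mul_sum]
    rw [T_mid _ _ _ rfl]
    simp only [List.length_map, List.length_range']
    have e1 : j - i + 2 = (p - i + 2) + (j - (p + 2) + 2) := by omega
    have e2 : p - i + (j - (p + 2)) + 4 = (p - i + 2) + (j - (p + 2) + 2) := by omega
    have e3 := Nat.add_choose_mul_factorial_mul_factorial (p - i + 2) (j - (p + 2) + 2)
    rw [← Nat.choose_symm_add] at e3
    have e4 : (((p - i + 2) + (j - (p + 2) + 2)).choose (p - i + 2) : ℝ) *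
        ((p - i + 2).factorial : ℝ) * ((j - (p + 2) + 2).factorial : ℝ) =
        (((p - i + 2) + (j - (p + 2) + 2)).factorial : ℝ) := by exact_mod_cast e3
    rw [e1, e2]
    have h3 : ((p - i + 2).factorial : ℝ) ≠ 0 := by positivity
    have h4 : ((j - (p + 2) + 2).factorial : ℝ) ≠ 0 := by positivity
    have h5 : (((p - i + 2) + (j - (p + 2) + 2)).factorial : ℝ) ≠ 0 := by positivity
    rw [div_mul_div_comm, div_eq_div_iff h5 (mul_ne_zero h3 h4), ← e4]
    ring
  · rintro x i j ⟨k, hik, hkj, hk⟩
    unfold P
    have h0 := split2 x i k j hik (by omega) ![x k, x (k + 1)]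
    have h1 : (List.range' i (j - i)).map (ins 2 x k ![x k, x (k + 1)]) =
        (List.range' i (j - i)).map x := by
      refine List.map_congr_left fun m _ => ?_
      unfold ins
      split_ifs with hm
      · rcases Nat.eq_or_lt_of_le hm.1 with h | h
        · subst h
          have : (⟨k - k, by omega⟩ : Fin 2) = 0 := Fin.ext (by simp)
          rw [this]; rfl
        · have hm' : m = k + 1 := by omega
          subst hm'
          have : (⟨k + 1 - k, by omega⟩ : Fin 2) = 1 := Fin.ext (by simp)
          rw [this]; rfl
      · rfl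
    rw [h1] at h0
    rw [h0, B_zero]
    · simp
    · intro hc
      rw [List.isChain_append_cons_cons] at hc
      exact hc.2.1 hk

/-! ### The cyclic law -/

theorem cp_map (σ : Equiv.Perm A) (l : List A) : cp (l.map σ) ↔ cp l := by
  cases l with
  | nil => exact Iff.rfl
  | cons a l =>
    rw [List.map_cons, cp_cons, cp_cons]
    have e : σ a :: (l.map σ ++ [σ a]) = (a :: (l ++ [a])).map σ := by simp
    rw [e, List.isChain_map]
    constructor
    · intro h
      exact h.imp fun x y hxy hh => hxy (congrArg σ hh)
    · intro h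
      exact h.imp fun x y hxy hh => hxy (σ.injective hh)

theorem Cn_map (σ : Equiv.Perm A) : ∀ (n : ℕ) (l : List A), Cn n (l.map σ) = Cn n l
  | 0, l => by
    rw [Cn, Cn]
    by_cases h : cp l
    · rw [if_pos h, if_pos ((cp_map σ l).2 h)]
    · rw [if_neg h, if_neg (fun h' => h ((cp_map σ l).1 h'))]
  | n + 1, l => by
    rw [Cn, Cn]
    by_cases h : cp l
    · rw [if_pos h, if_pos ((cp_map σ l).2 h), del_map]
      exact del_congr _ _ _ fun z _ => Cn_map σ n z
    · rw [if_neg h, if_neg (fun h' => h ((cp_map σ l).1 h'))]

theorem C_map (σ : Equiv.Perm A) (l : List A) : C (l.map σ) = C l := by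
  unfold C
  rw [List.length_map, Cn_map]

theorem C_rotate : ∀ (v : ℕ) (l : List A), 3 ≤ l.length → C (l.rotate v) = C l
  | 0, l, _ => by rw [List.rotate_zero]
  | v + 1, l, h => by
    cases l with
    | nil => simp at h
    | cons a l =>
      rw [List.rotate_cons_succ, C_rotate v (l ++ [a]) (by simpa using h)]
      exact (C_rot (l.length - 2) a l (by simp at h; omega)).symm

theorem rot_eq {n : ℕ} (hn : 0 < n) (X : Fin n → A) (v : ℕ) :
    (List.ofFn X).rotate v = (List.range n).map (fun m => per hn X (v + m)) := by
  apply List.ext_getElem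
  · simp
  · intro m h1 h2
    rw [List.getElem_rotate, List.getElem_ofFn, List.getElem_map, List.getElem_range]
    unfold per
    congr 1
    apply Fin.ext
    simp [Nat.add_comm]

theorem cycLaw (n : ℕ) (hn : 0 < n) (h3 : 3 ≤ n) :
    CycLaw (Fin 3) 2 n hn P (fun X => C (List.ofFn X) / (n.factorial : ℝ)) := by
  refine ⟨?_, ?_, ?_, ?_⟩
  · intro X
    exact div_nonneg (Cn_nonneg _ _) (by positivity)
  · rintro X ⟨k, hk⟩
    have h1 := C_rotate k (List.ofFn X) (by simpa using h3)
    obtain ⟨m, rfl⟩ : ∃ m, n = m + 1 + 1 := ⟨n - 2, by omega⟩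
    rw [rot_eq hn, List.range_succ_eq_map, List.range_succ_eq_map, List.map_cons, List.map_cons,
      List.map_cons, C_zero] at h1
    · show C (List.ofFn X) / _ = 0
      rw [← h1, zero_div]
    · intro hc
      rw [cp_cons, List.cons_append, List.isChain_cons_cons] at hc
      exact hc.1 (by simpa using hk)
  · intro σ X
    show C (List.ofFn (fun k => σ (X k))) / _ = C (List.ofFn X) / _
    rw [← C_map σ (List.ofFn X), List.map_ofFn]
    rfl
  · intro v hv X
    obtain ⟨m, rfl⟩ : ∃ m, n = m + 1 + 1 := ⟨n - 2, by omega⟩
    have key : ∀ g : Fin 2 → A, C (List.ofFn (cins 2 v X g)) =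
        C (g 0 :: g 1 :: (List.range' 0 m).map (fun k => per hn X (v + 2 + k))) := by
      intro g
      rw [← C_rotate v (List.ofFn (cins 2 v X g)) (by simpa using h3), rot_eq hn,
        List.range_eq_range', List.range'_succ, List.range'_succ, List.map_cons, List.map_cons]
      have hidx : ∀ q, q < m + 1 + 1 → ((v + q) % (m + 1 + 1) + (m + 1 + 1) - v) % (m + 1 + 1) = q := by
        intro q hq
        rcases Nat.lt_or_ge (v + q) (m + 1 + 1) with h | h
        · rw [Nat.mod_eq_of_lt h, show v + q + (m + 1 + 1) - v = q + (m + 1 + 1) by omega,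
            Nat.add_mod_right, Nat.mod_eq_of_lt hq]
        · have e : (v + q) % (m + 1 + 1) = v + q - (m + 1 + 1) := by
            rw [Nat.mod_eq_sub_mod h, Nat.mod_eq_of_lt (by omega)]
          rw [e, show v + q - (m + 1 + 1) + (m + 1 + 1) - v = q by omega, Nat.mod_eq_of_lt hq]
      have a0 : per hn (cins 2 v X g) (v + 0) = g 0 := by
        unfold per cins
        have := hidx 0 (by omega)
        simp only [this]
        rw [dif_pos (by omega)]
        rfl
      have a1 : per hn (cins 2 v X g) (v + (0 + 1)) = g 1 := by
        unfold per cins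
        have := hidx (0 + 1) (by omega)
        simp only [this]
        rw [dif_pos (by omega)]
        rfl
      have a2 : (List.range' (0 + 1 + 1) m).map (fun q => per hn (cins 2 v X g) (v + q)) =
          (List.range' 0 m).map (fun k => per hn X (v + 2 + k)) := by
        rw [List.range'_eq_map_range (s := 0 + 1 + 1), List.range'_eq_map_range (s := 0), List.map_map,
          List.map_map]
        refine List.map_congr_left fun q hq => ?_
        rw [List.mem_range] at hq
        show per hn (cins 2 v X g) (v + (0 + 1 + 1 + q)) = per hn X (v + 2 + (0 + q))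
        have e : v + 2 + (0 + q) = v + (0 + 1 + 1 + q) := by omega
        rw [e]
        unfold per cins
        have := hidx (0 + 1 + 1 + q) (by omega)
        simp only [this]
        rw [dif_neg (by omega)]
      rw [a0, a1, a2]
    show ∑ g : Fin 2 → A, C (List.ofFn (cins 2 v X g)) / ((m + 1 + 1).factorial : ℝ) = _
    simp only [key]
    rw [← Finset.sum_div, sum_two (fun a b => C (a :: b ::
      (List.range' 0 m).map (fun k => per hn X (v + 2 + k)))), D_eq (m - 1) _ (by simp; omega)]
    unfold P
    simp only [Nat.add_sub_cancel, Nat.sub_zero]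
    rfl

theorem m3 : StM3 := by
  intro n hn
  exact ⟨by omega, P, _, pathLaw, cycLaw n (by omega) hn⟩

end Pool.Agent.H144R4.Cyc.M3
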