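import Mathlib
import Pool.Agent.H144R4.Cyc.Stmts

set_option autoImplicit false

namespace Pool.Agent.H144R4.Cyc.Marg

open Finset Pool.Agent.H144R4.Cyc

variable {α : Type} [Fintype α] [DecidableEq α]

theorem sumRR (hLin : StLin) (hCong : StCong) (t : ℝ) (hP : Par α t) (X : ℕ → α) (n : ℕ)
    (hn : 2 ≤ n) (β : Option α) :
    ∑ a : α, RR t β (pr n a X) n =
      (if β = none then (1 + t) / t else 1 / t) * UU t (fun k => X (k % n)) β none 1 n
      + t ^ (n - 1) * ∑ k ∈ Ico 1 n, nb β (X k) * W t (fun k => X (k % n)) none 1 k (some (X k)) *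
          W t (fun k => X (k % n)) (some (X k)) (k + 1) n none := by
  set Y : ℕ → α := fun k => X (k % n) with hY
  have hYk : ∀ k, 1 ≤ k → k < n → Y k = X k := by
    intro k _ h2
    simp only [hY, Nat.mod_eq_of_lt h2]
  have hYn : ∀ k, 1 ≤ k → k < n → Y (n + k) = Y k := by
    intro k _ h2
    simp only [hY, Nat.add_mod_left]
  have hlin := hLin α t hP Y β n hn hYn
  have hR : ∑ k ∈ Ico 1 n, nb β (X k) * W t Y none 1 k (some (X k)) *
      W t Y (some (X k)) (k + 1) n none = ∑ k ∈ Ico 1 n, nb β (Y k) * W t Y none 1 k (some (Y k)) *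
      W t Y (some (Y k)) (k + 1) n none := by
    refine Finset.sum_congr rfl fun k hk => ?_
    rw [Finset.mem_Ico] at hk
    rw [hYk k hk.1 hk.2]
  rw [hR, ← hlin]
  -- values of `pr`
  have p0 : ∀ a, pr n a X 0 = a := by intro a; simp [pr]
  have pk : ∀ a k, 1 ≤ k → k < n → pr n a X k = Y k := by
    intro a k h1 h2
    have h3 : k % n ≠ 0 := by rw [Nat.mod_eq_of_lt h2]; omega
    simp only [pr, if_neg h3, hY]
  have pk2 : ∀ a k, 1 ≤ k → k < 2 * n → pr n a X k = Function.update Y n a k := by
    intro a k h1 h2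
    by_cases hk : k = n
    · subst hk
      simp [pr]
    · rw [Function.update_of_ne hk]
      have h3 : k % n ≠ 0 := by
        intro h
        have h4 := Nat.div_add_mod k n
        rw [h, add_zero] at h4
        have h5 : k / n < 2 := by
          rw [Nat.div_lt_iff_lt_mul (by omega)]
          omega
        interval_cases h6 : k / n
        · omega
        · omega
      simp only [pr, if_neg h3, hY]
  have cW : ∀ (x y : ℕ → α) (u w : Option α) (i j : ℕ), (∀ k, i ≤ k → k < j → x k = y k) →
      W t x u i j w = W t y u i j w := by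
    intro x y u w i j h
    have := (hCong α t x y none u w i j 0 (by simpa using h)).1
    simpa using this
  have cV : ∀ (x y : ℕ → α) (u w : Option α) (i j : ℕ), (∀ k, i ≤ k → k < j → x k = y k) →
      V t x β u i j w = V t y β u i j w := by
    intro x y u w i j h
    have := (hCong α t x y β u w i j 0 (by simpa using h)).2
    simpa using this
  have hterm : ∀ a, RR t β (pr n a X) n =
      (∑ i ∈ Ico 1 n, ∑ l ∈ Ico (i + 1) n, nb β (Y i) * nb β (Y l) *
        V t Y β (some (Y i)) (i + 1) l (some (Y l)) * t ^ (n - 1 - (l - i)) *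
        W t (Function.update Y n a) (some (Y l)) (l + 1) (i + n) (some (Y i))) +
      ∑ l ∈ Ico 1 n, nb β a * nb β (Y l) * V t Y β (some a) 1 l (some (Y l)) *
          t ^ (n - 1 - l) * W t Y (some (Y l)) (l + 1) n (some a) := by
    intro a
    unfold RR
    rw [Finset.range_eq_Ico, Finset.sum_eq_sum_Ico_succ_bot (by omega : 0 < n), add_comm]
    congr 1
    · refine Finset.sum_congr rfl fun i hi => Finset.sum_congr rfl fun l hl => ?_
      rw [Finset.mem_Ico] at hi hl
      have hi1 : 1 ≤ i := by omega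
      rw [pk a i hi1 hi.2, pk a l (by omega) hl.2,
        cV (pr n a X) Y _ _ (i + 1) l (fun k h1 h2 => pk a k (by omega) (by omega)),
        cW (pr n a X) (Function.update Y n a) _ _ (l + 1) (i + n)
          (fun k h1 h2 => pk2 a k (by omega) (by omega))]
    · refine Finset.sum_congr (by simp) fun l hl => ?_
      rw [Finset.mem_Ico] at hl
      rw [p0 a, pk a l hl.1 hl.2, Nat.sub_zero, zero_add, zero_add,
        cV (pr n a X) Y _ _ 1 l (fun k h1 h2 => pk a k (by omega) (by omega)),
        cW (pr n a X) Y _ _ (l + 1) n (fun k h1 h2 => pk a k (by omega) (by omega))]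
  simp_rw [hterm]
  rw [Finset.sum_add_distrib]
  congr 1
  rw [Finset.sum_comm]
  refine Finset.sum_congr rfl fun i _ => ?_
  rw [Finset.sum_comm]
  refine Finset.sum_congr rfl fun l _ => ?_
  rw [Finset.mul_sum]

theorem marg : StLin → StU → StCong → StMarg := by
  intro hLin hU hCong α _ _ t hP X n hn
  obtain ⟨ht0, ht1, hq⟩ := id hP
  set Y : ℕ → α := fun k => X (k % n) with hY
  have hYk : ∀ k, 1 ≤ k → k < n → Y k = X k := by
    intro k _ h2
    simp only [hY, Nat.mod_eq_of_lt h2]
  have hA : W t X none 1 n none = W t Y none 1 n none := by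
    have := (hCong α t X Y none none none 1 n 0 (by
      intro k h1 h2; rw [add_zero]; exact (hYk k h1 h2).symm)).1
    simpa using this
  obtain ⟨U0, Ub⟩ := hU α t ht0 ht1 Y none 1 n (by omega)
  set A0 := W t Y none 1 n none with hA0
  set Kb : α → ℝ := fun b => ∑ k ∈ Ico 1 n, if Y k = b then W t Y none 1 k (some b) *
    W t Y (some b) (k + 1) n none else 0 with hKb
  set K : ℝ := ∑ k ∈ Ico 1 n, W t Y none 1 k (some (Y k)) * W t Y (some (Y k)) (k + 1) n none with hK
  have hsumK : ∑ b, Kb b = K := by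
    rw [hKb, hK]
    simp only
    rw [Finset.sum_comm]
    refine Finset.sum_congr rfl fun k _ => ?_
    rw [Finset.sum_ite_eq Finset.univ (Y k)
      (fun b => W t Y none 1 k (some b) * W t Y (some b) (k + 1) n none)]
    simp
  have h1 : ∑ a : α, RR t none (pr n a X) n = (1 + t) / t * ((1 - t ^ (n - 1)) * A0) +
      t ^ (n - 1) * K := by
    rw [sumRR hLin hCong t hP X n hn none, if_pos rfl, U0]
    congr 2
    refine Finset.sum_congr rfl fun k hk => ?_
    rw [Finset.mem_Ico] at hk
    rw [hYk k hk.1 hk.2]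
    simp [nb, hY]
  have h2 : ∀ b : α, ∑ a : α, RR t (some b) (pr n a X) n =
      1 / t * ((1 - t ^ (n - 1)) * A0 - Kb b) + t ^ (n - 1) * (K - Kb b) := by
    intro b
    rw [sumRR hLin hCong t hP X n hn (some b), if_neg (by simp), Ub b (by simp)]
    congr 2
    rw [hK, hKb]
    simp only
    rw [← Finset.sum_sub_distrib]
    refine Finset.sum_congr rfl fun k hk => ?_
    rw [Finset.mem_Ico] at hk
    rw [← hYk k hk.1 hk.2]
    by_cases hb : Y k = b
    · rw [if_pos hb]
      have : nb (some b) (Y k) = 0 := by simp [nb, hb]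
      rw [this, hb]
      ring
    · rw [if_neg hb]
      have : nb (some b) (Y k) = 1 := by
        unfold nb
        rw [if_neg]
        intro h
        exact hb (Option.some_injective _ h).symm
      rw [this]
      ring
  have h3 : ∑ a : α, RT t (pr n a X) n = (1 + t ^ n) * (∑ a : α, RR t none (pr n a X) n) -
      t ^ n * ∑ b : α, ((∑ a : α, RR t none (pr n a X) n) - ∑ a : α, RR t (some b) (pr n a X) n) := by
    unfold RT
    rw [Finset.sum_sub_distrib, ← Finset.mul_sum, ← Finset.mul_sum]
    congr 2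
    rw [Finset.sum_comm]
    refine Finset.sum_congr rfl fun b _ => ?_
    rw [Finset.sum_sub_distrib]
  rw [h3, hA]
  have h4 : ∑ b : α, ((∑ a : α, RR t none (pr n a X) n) - ∑ a : α, RR t (some b) (pr n a X) n) =
      (Fintype.card α : ℝ) * ((1 - t ^ (n - 1)) * A0) + K * (1 / t + t ^ (n - 1)) := by
    have : ∀ b : α, ((∑ a : α, RR t none (pr n a X) n) - ∑ a : α, RR t (some b) (pr n a X) n) =
        (1 - t ^ (n - 1)) * A0 + Kb b * (1 / t + t ^ (n - 1)) := by
      intro b
      rw [h1, h2 b]
      field_simp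
      ring
    simp_rw [this]
    rw [Finset.sum_add_distrib, ← Finset.sum_mul (s := Finset.univ) (f := Kb), hsumK,
      Finset.sum_const, Finset.card_univ, nsmul_eq_mul]
  rw [h4, h1]
  obtain ⟨m, rfl⟩ : ∃ m, n = m + 1 := ⟨n - 1, by omega⟩
  have hq' : (Fintype.card α : ℝ) = (1 + t) ^ 2 / t := by
    rw [eq_div_iff ht0.ne', hq]
  rw [hq']
  simp only [Nat.add_sub_cancel]
  field_simp
  ring

end Pool.Agent.H144R4.Cyc.Marg
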