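import Mathlib
import Pool.Agent.H144R4.Cyc.Stmts

set_option autoImplicit false

namespace Pool.Agent.H144R4.Cyc.PInd

open Finset Pool.Agent.H144R4.Cyc

/-! ### The abstract induction -/

theorem abstr (κ m : ℕ) (f : Finset ℕ → ℕ → ℕ → ℝ)
    (f0 : ∀ C C' i j, (∀ k, i ≤ k → k < j → (k ∈ C ↔ k ∈ C')) → f C i j = f C' i j)
    (f1 : ∀ C i j, i ≤ j → j ≤ m → (∀ k, i ≤ k → k < j → k ∉ C) → f C i j = 1)
    (f2 : ∀ C i p j, i ≤ p → p + κ ≤ j → j ≤ m → (∀ k, p ≤ k → k < p + κ → k ∉ C) →
      f C i j = f C i p * f C (p + κ) j)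
    (f4 : ∀ C i j, i ≤ j → j + 1 ≤ m → j ∉ C → f C i (j + 1) = f C i j) :
    ∀ j, j ≤ m → ∀ A B : Finset ℕ, (∀ a ∈ A, ∀ b ∈ B, a + κ < b ∨ b + κ < a) →
      f (A ∪ B) 0 j = f A 0 j * f B 0 j := by
  intro j
  induction j using Nat.strong_induction_on with
  | _ j ih =>
    intro hj A B hAB
    rcases Nat.eq_zero_or_pos j with rfl | hjpos
    · rw [f1 _ 0 0 le_rfl hj (by intros; omega), f1 _ 0 0 le_rfl hj (by intros; omega),
        f1 _ 0 0 le_rfl hj (by intros; omega), mul_one]
    obtain ⟨j, rfl⟩ : ∃ k, j = k + 1 := ⟨j - 1, by omega⟩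
    -- one sided case
    have one : ∀ A B : Finset ℕ, (∀ a ∈ A, ∀ b ∈ B, a + κ < b ∨ b + κ < a) → j ∈ B →
        f (A ∪ B) 0 (j + 1) = f A 0 (j + 1) * f B 0 (j + 1) := by
      intro A B hAB hjB
      by_cases hne : (A.filter (fun a => a < j + 1)).Nonempty
      · set a := (A.filter (fun a => a < j + 1)).max' hne with ha
        have hamem := Finset.max'_mem _ hne
        rw [← ha, mem_filter] at hamem
        have hamax : ∀ b ∈ A, b < j + 1 → b ≤ a := fun b hb hbj =>
          Finset.le_max' _ _ (mem_filter.2 ⟨hb, hbj⟩)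
        have haj : a + κ < j := by
          rcases hAB a hamem.1 j hjB with h | h <;> omega
        have hfreeA : ∀ k, a + 1 ≤ k → k < a + 1 + κ → k ∉ A := by
          intro k h1 h2 h3
          have := hamax k h3 (by omega)
          omega
        have hfreeB : ∀ k, a + 1 ≤ k → k < a + 1 + κ → k ∉ B := by
          intro k h1 h2 h3
          rcases hAB a hamem.1 k h3 with h | h <;> omega
        rw [f2 (A ∪ B) 0 (a + 1) (j + 1) (by omega) (by omega) hj (by
            intro k h1 h2 h3
            rcases mem_union.1 h3 with h | h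
            · exact hfreeA k h1 h2 h
            · exact hfreeB k h1 h2 h),
          f2 A 0 (a + 1) (j + 1) (by omega) (by omega) hj hfreeA,
          f2 B 0 (a + 1) (j + 1) (by omega) (by omega) hj hfreeB,
          ih (a + 1) (by omega) (by omega) A B hAB,
          f1 A (a + 1 + κ) (j + 1) (by omega) hj (by
            intro k h1 h2 h3
            have := hamax k h3 h2
            omega),
          f0 (A ∪ B) B (a + 1 + κ) (j + 1) (by
            intro k h1 h2
            rw [mem_union]
            constructor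
            · rintro (h | h)
              · have := hamax k h h2
                omega
              · exact h
            · exact Or.inr)]
        ring
      · rw [Finset.not_nonempty_iff_eq_empty] at hne
        have hno : ∀ k, k < j + 1 → k ∉ A := by
          intro k hk hkA
          have : k ∈ A.filter (fun a => a < j + 1) := mem_filter.2 ⟨hkA, hk⟩
          rw [hne] at this
          simp at this
        rw [f1 A 0 (j + 1) (by omega) hj (fun k _ h2 => hno k h2), one_mul]
        apply f0
        intro k _ h2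
        rw [mem_union]
        exact ⟨fun h => h.resolve_left (hno k h2), Or.inr⟩
    by_cases hB : j ∈ B
    · exact one A B hAB hB
    by_cases hA : j ∈ A
    · rw [union_comm, mul_comm]
      exact one B A (fun b hb a ha => (hAB a ha b hb).symm) hA
    · rw [f4 (A ∪ B) 0 j (by omega) hj (by rw [mem_union]; tauto), f4 A 0 j (by omega) hj hA,
        f4 B 0 j (by omega) hj hB]
      exact ih j (by omega) (by omega) A B hAB

/-! ### Sums over words -/

section sums

variable {α : Type} [Fintype α] [DecidableEq α] {m : ℕ}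

theorem sum_swap (S : Set (Fin m)) (f g : (Fin m → α) → ℝ)
    (hf : ∀ X X' : Fin m → α, (∀ k ∈ S, X k = X' k) → f X = f X')
    (hg : ∀ X X' : Fin m → α, (∀ k, k ∉ S → X k = X' k) → g X = g X') :
    (∑ X, f X * g X) * (Fintype.card α : ℝ) ^ m = (∑ X, f X) * ∑ X, g X := by
  classical
  let e : (Fin m → α) × (Fin m → α) ≃ (Fin m → α) × (Fin m → α) :=
    { toFun := fun w => (fun t => if t ∈ S then w.1 t else w.2 t,
        fun t => if t ∈ S then w.2 t else w.1 t)
      invFun := fun w => (fun t => if t ∈ S then w.1 t else w.2 t,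
        fun t => if t ∈ S then w.2 t else w.1 t)
      left_inv := fun w => by
        refine Prod.ext ?_ ?_ <;> funext t <;> by_cases h : t ∈ S <;> simp [h]
      right_inv := fun w => by
        refine Prod.ext ?_ ?_ <;> funext t <;> by_cases h : t ∈ S <;> simp [h] }
  have h1 : (∑ X, f X) * ∑ X, g X = ∑ w : (Fin m → α) × (Fin m → α), f w.1 * g w.2 := by
    rw [Fintype.sum_mul_sum, Fintype.sum_prod_type]
  have h2 : ∑ w : (Fin m → α) × (Fin m → α), f w.1 * g w.2 =
      ∑ w : (Fin m → α) × (Fin m → α), f (e w).1 * g (e w).1 := by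
    refine Finset.sum_congr rfl fun w _ => ?_
    congr 1
    · refine hf _ _ fun k hk => ?_
      simp [e, hk]
    · refine hg _ _ fun k hk => ?_
      simp [e, hk]
  rw [h1, h2, Equiv.sum_comp e (fun w => f w.1 * g w.1), Fintype.sum_prod_type]
  simp only [Finset.sum_const, Finset.card_univ, Fintype.card_fun, Fintype.card_fin,
    nsmul_eq_mul, Nat.cast_pow]
  rw [← Finset.mul_sum, mul_comm]

theorem sum_update (j : Fin m) (h : (Fin m → α) → ℝ) :
    ∑ X, ∑ a, h (Function.update X j a) = (Fintype.card α : ℝ) * ∑ X, h X := by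
  let e : (Fin m → α) × α ≃ (Fin m → α) × α :=
    { toFun := fun w => (Function.update w.1 j w.2, w.1 j)
      invFun := fun w => (Function.update w.1 j w.2, w.1 j)
      left_inv := fun w => by simp
      right_inv := fun w => by simp }
  rw [← Fintype.sum_prod_type' (fun X a => h (Function.update X j a))]
  have := Equiv.sum_comp e (fun w => h w.1)
  rw [Fintype.sum_prod_type (fun w : (Fin m → α) × α => h w.1)] at this
  simp only [Finset.sum_const, Finset.card_univ, nsmul_eq_mul] at this
  rw [← Finset.mul_sum] at this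
  rw [← this]
  rfl

/-- replace a block -/
def insF (κ : ℕ) (X : Fin m → α) (p : ℕ) (g : Fin κ → α) (k : Fin m) : α :=
  if h : p ≤ k.1 ∧ k.1 < p + κ then g ⟨k.1 - p, by omega⟩ else X k

theorem sum_ins (κ p : ℕ) (hp : p + κ ≤ m) (h : (Fin m → α) → ℝ) :
    ∑ X, ∑ g : Fin κ → α, h (insF κ X p g) = (Fintype.card α : ℝ) ^ κ * ∑ X, h X := by
  have inv : ∀ w : (Fin m → α) × (Fin κ → α),
      (insF κ (insF κ w.1 p w.2) p (fun k => w.1 ⟨p + k.1, by omega⟩) = w.1) ∧
      (fun k : Fin κ => (insF κ w.1 p w.2) ⟨p + k.1, by omega⟩) = w.2 := by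
    intro w
    constructor
    · funext k
      unfold insF
      by_cases hk : p ≤ k.1 ∧ k.1 < p + κ
      · rw [dif_pos hk]
        refine congrArg w.1 (Fin.ext ?_)
        simp only
        omega
      · rw [dif_neg hk, dif_neg hk]
    · funext k
      unfold insF
      rw [dif_pos (⟨by simp, by simp⟩ : p ≤ p + k.1 ∧ p + k.1 < p + κ)]
      refine congrArg w.2 (Fin.ext ?_)
      simp
  let e : (Fin m → α) × (Fin κ → α) ≃ (Fin m → α) × (Fin κ → α) :=
    { toFun := fun w => (insF κ w.1 p w.2, fun k => w.1 ⟨p + k.1, by omega⟩)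
      invFun := fun w => (insF κ w.1 p w.2, fun k => w.1 ⟨p + k.1, by omega⟩)
      left_inv := fun w => Prod.ext (inv w).1 (inv w).2
      right_inv := fun w => Prod.ext (inv w).1 (inv w).2 }
  rw [← Fintype.sum_prod_type' (fun X g => h (insF κ X p g))]
  have := Equiv.sum_comp e (fun w => h w.1)
  rw [Fintype.sum_prod_type (fun w : (Fin m → α) × (Fin κ → α) => h w.1)] at this
  simp only [Finset.sum_const, Finset.card_univ, nsmul_eq_mul, Fintype.card_fun, Fintype.card_fin,
    Nat.cast_pow] at this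
  rw [← Finset.mul_sum] at this
  rw [← this]
  rfl

theorem extw_ins (c : α) (κ p : ℕ) (hp : p + κ ≤ m) (X : Fin m → α) (g : Fin κ → α) :
    extw c (insF κ X p g) = ins κ (extw c X) p g := by
  funext k
  unfold extw insF ins
  by_cases hk : k < m
  · rw [dif_pos hk]
    by_cases h2 : p ≤ k ∧ k < p + κ
    · rw [dif_pos h2, dif_pos h2]
    · rw [dif_neg h2, dif_neg h2]
      beta_reduce
      rw [dif_pos hk]
  · rw [dif_neg hk, dif_neg (by omega)]
    beta_reduce
    rw [dif_neg hk]

theorem extw_update (c : α) (j : Fin m) (X : Fin m → α) (a : α) :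
    extw c (Function.update X j a) = Function.update (extw c X) j.1 a := by
  funext k
  unfold extw
  by_cases hk : k < m
  · rw [dif_pos hk]
    by_cases h2 : k = j.1
    · subst h2
      simp
    · rw [Function.update_of_ne h2, Function.update_of_ne (fun h => h2 (congrArg Fin.val h))]
      beta_reduce
      rw [dif_pos hk]
  · have h2 : k ≠ j.1 := by
      have := j.2
      omega
    rw [dif_neg hk, Function.update_of_ne h2]
    beta_reduce
    rw [dif_neg hk]

end sums

section main

variable {α : Type} [Fintype α] [DecidableEq α] {m : ℕ}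

open Classical in
/-- the pattern holds on the window -/
noncomputable def ind (y : Fin m → α) (C : Finset ℕ) (i j : ℕ) (X : Fin m → α) : ℝ :=
  if ∀ a : Fin m, a.1 ∈ C → i ≤ a.1 → a.1 < j → X a = y a then 1 else 0

theorem ind_split (y : Fin m → α) (C : Finset ℕ) (i p κ j : ℕ) (hi : i ≤ p) (hj : p + κ ≤ j)
    (hC : ∀ k, p ≤ k → k < p + κ → k ∉ C) (X : Fin m → α) (g : Fin κ → α) :
    ind y C i j (insF κ X p g) = ind y C i p X * ind y C (p + κ) j X := by
  classical
  unfold ind
  rw [ite_zero_mul_ite_zero, mul_one]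
  congr 1
  apply propext
  constructor
  · intro h
    constructor
    · intro a ha h1 h2
      have := h a ha h1 (by omega)
      unfold insF at this
      rwa [dif_neg (by omega)] at this
    · intro a ha h1 h2
      have := h a ha (by omega) h2
      unfold insF at this
      rwa [dif_neg (by omega)] at this
  · rintro ⟨h, h'⟩ a ha h1 h2
    have hn : ¬ (p ≤ a.1 ∧ a.1 < p + κ) := fun h3 => hC a.1 h3.1 h3.2 ha
    unfold insF
    rw [dif_neg hn]
    by_cases h3 : a.1 < p
    · exact h a ha h1 h3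
    · exact h' a ha (by omega) h2

/-- weighted sums over the words -/
noncomputable def Sm (P : (ℕ → α) → ℕ → ℕ → ℝ) (c : α) (y : Fin m → α) (C : Finset ℕ)
    (i j : ℕ) : ℝ := ∑ X : Fin m → α, ind y C i j X * P (extw c X) i j

theorem ind_dep (y : Fin m → α) (C : Finset ℕ) (i j : ℕ) (X X' : Fin m → α)
    (h : ∀ k : Fin m, i ≤ k.1 → k.1 < j → X k = X' k) : ind y C i j X = ind y C i j X' := by
  unfold ind
  congr 1
  apply propext
  constructor
  · intro h1 a ha h2 h3
    rw [← h a h2 h3]
    exact h1 a ha h2 h3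
  · intro h1 a ha h2 h3
    rw [h a h2 h3]
    exact h1 a ha h2 h3

theorem P_dep {κ : ℕ} {P : (ℕ → α) → ℕ → ℕ → ℝ} (hP : PathLaw α κ P) (c : α) (i j : ℕ)
    (X X' : Fin m → α) (h : ∀ k : Fin m, i ≤ k.1 → k.1 < j → X k = X' k) :
    P (extw c X) i j = P (extw c X') i j := by
  apply hP.1
  intro k h1 h2
  unfold extw
  by_cases hk : k < m
  · rw [dif_pos hk, dif_pos hk]
    exact h ⟨k, hk⟩ h1 h2
  · rw [dif_neg hk, dif_neg hk]

theorem Sm_step {κ : ℕ} {P : (ℕ → α) → ℕ → ℕ → ℝ} (hP : PathLaw α κ P) (c : α) (y : Fin m → α)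
    (C : Finset ℕ) (i j : ℕ) (hi : i ≤ j) (hj : j + 1 ≤ m) (hC : j ∉ C) :
    (Fintype.card α : ℝ) * Sm P c y C i (j + 1) = Sm P c y C i j := by
  unfold Sm
  rw [← sum_update (⟨j, by omega⟩ : Fin m)]
  refine Finset.sum_congr rfl fun X _ => ?_
  have h1 : ∀ a, ind y C i (j + 1) (Function.update X (⟨j, by omega⟩ : Fin m) a) =
      ind y C i j X := by
    intro a
    unfold ind
    congr 1
    apply propext
    constructor
    · intro h b hb h2 h3
      have := h b hb h2 (by omega)
      rwa [Function.update_of_ne (by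
        intro h4
        rw [h4] at h3
        simp at h3)] at this
    · intro h b hb h2 h3
      have hbj : b.1 ≠ j := by
        intro h4
        rw [h4] at hb
        exact hC hb
      rw [Function.update_of_ne (by
        intro h4
        apply hbj
        rw [h4])]
      exact h b hb h2 (by omega)
  simp only [h1, extw_update]
  rw [← Finset.mul_sum, hP.2.2.2.1 _ i j hi]

theorem Sm_split {κ : ℕ} {P : (ℕ → α) → ℕ → ℕ → ℝ} (hP : PathLaw α κ P) (c : α)
    (y : Fin m → α) (C : Finset ℕ) (i p j : ℕ) (hi : i ≤ p) (hj : p + κ ≤ j) (hm : j ≤ m)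
    (hC : ∀ k, p ≤ k → k < p + κ → k ∉ C) :
    (Fintype.card α : ℝ) ^ κ * Sm P c y C i j * (Fintype.card α : ℝ) ^ m =
      Sm P c y C i p * Sm P c y C (p + κ) j := by
  have h1 : (Fintype.card α : ℝ) ^ κ * Sm P c y C i j =
      ∑ X : Fin m → α, (ind y C i p X * P (extw c X) i p) *
        (ind y C (p + κ) j X * P (extw c X) (p + κ) j) := by
    unfold Sm
    rw [← sum_ins κ p (by omega)]
    refine Finset.sum_congr rfl fun X _ => ?_
    simp only [ind_split y C i p κ j hi hj hC, extw_ins c κ p (by omega : p + κ ≤ m)]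
    rw [← Finset.mul_sum, hP.2.2.2.2.1 _ i p j hi hj]
    ring
  rw [h1]
  refine sum_swap {k : Fin m | k.1 < p} _ _ ?_ ?_
  · intro X X' h
    rw [ind_dep y C i p X X' (fun k _ h2 => h k h2), P_dep hP c i p X X' (fun k _ h2 => h k h2)]
  · intro X X' h
    have h2 : ∀ k : Fin m, p + κ ≤ k.1 → k.1 < j → X k = X' k := fun k h2 _ =>
      h k (by simp only [Set.mem_ofPred_eq]; omega)
    rw [ind_dep y C (p + κ) j X X' h2, P_dep hP c (p + κ) j X X' h2]

theorem Sm_self {κ : ℕ} {P : (ℕ → α) → ℕ → ℕ → ℝ} (hP : PathLaw α κ P) (c : α)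
    (y : Fin m → α) (C : Finset ℕ) (i : ℕ) : Sm P c y C i i = (Fintype.card α : ℝ) ^ m := by
  unfold Sm
  have h1 : ∀ X : Fin m → α, ind y C i i X * P (extw c X) i i = 1 := by
    intro X
    rw [hP.2.2.1, mul_one]
    unfold ind
    rw [if_pos]
    intro a _ h2 h3
    omega
  simp only [h1, Finset.sum_const, Finset.card_univ, Fintype.card_fun, Fintype.card_fin,
    nsmul_eq_mul, mul_one, Nat.cast_pow]

end main

theorem pInd : StPInd := by
  classical
  intro α _ _ κ P hP c m A B hAB y
  set N : ℝ := (Fintype.card α : ℝ) with hN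
  have hN0 : N ≠ 0 := by
    rw [hN]
    have : Nonempty α := ⟨c⟩
    exact_mod_cast (Fintype.card_ne_zero : Fintype.card α ≠ 0)
  let f : Finset ℕ → ℕ → ℕ → ℝ := fun C i j => Sm P c y C i j * N ^ (j - i) / N ^ m
  have f0 : ∀ C C' i j, (∀ k, i ≤ k → k < j → (k ∈ C ↔ k ∈ C')) → f C i j = f C' i j := by
    intro C C' i j h
    have h1 : ∀ X : Fin m → α, ind y C i j X = ind y C' i j X := by
      intro X
      unfold ind
      congr 1
      apply propext
      constructor
      · intro h2 a ha h3 h4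
        exact h2 a ((h a.1 h3 h4).2 ha) h3 h4
      · intro h2 a ha h3 h4
        exact h2 a ((h a.1 h3 h4).1 ha) h3 h4
    simp only [f, Sm, h1]
  have f4 : ∀ C i j, i ≤ j → j + 1 ≤ m → j ∉ C → f C i (j + 1) = f C i j := by
    intro C i j hi hj hC
    have h1 := Sm_step hP c y C i j hi hj hC
    rw [← hN] at h1
    simp only [f]
    rw [← h1, show j + 1 - i = (j - i) + 1 by omega, pow_succ]
    ring
  have fs : ∀ C i, f C i i = 1 := by
    intro C i
    simp only [f]
    rw [Sm_self hP c y C i, ← hN, Nat.sub_self, pow_zero, mul_one]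
    exact div_self (pow_ne_zero _ hN0)
  have f1 : ∀ C i j, i ≤ j → j ≤ m → (∀ k, i ≤ k → k < j → k ∉ C) → f C i j = 1 := by
    intro C i j hi
    induction j, hi using Nat.le_induction with
    | base => intro _ _; exact fs C i
    | succ j hi ih =>
      intro hj hC
      rw [f4 C i j hi hj (hC j hi (by omega))]
      exact ih (by omega) (fun k h1 h2 => hC k h1 (by omega))
  have f2 : ∀ C i p j, i ≤ p → p + κ ≤ j → j ≤ m → (∀ k, p ≤ k → k < p + κ → k ∉ C) →
      f C i j = f C i p * f C (p + κ) j := by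
    intro C i p j hi hj hm hC
    have h1 := Sm_split hP c y C i p j hi hj hm hC
    rw [← hN] at h1
    simp only [f]
    have h2 : N ^ (j - i) = N ^ (p - i) * N ^ κ * N ^ (j - (p + κ)) := by
      rw [← pow_add, ← pow_add]
      congr 1
      omega
    have h3 : N ^ m ≠ 0 := pow_ne_zero _ hN0
    rw [div_mul_div_comm, eq_comm]
    rw [show Sm P c y C i p * N ^ (p - i) * (Sm P c y C (p + κ) j * N ^ (j - (p + κ))) =
      (Sm P c y C i p * Sm P c y C (p + κ) j) * N ^ (p - i) * N ^ (j - (p + κ)) by ring, ← h1, h2]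
    field_simp
  have key := abstr κ m f f0 f1 f2 f4 m le_rfl (A.image Fin.val) (B.image Fin.val) (by
    intro a ha b hb
    obtain ⟨a', ha', rfl⟩ := mem_image.1 ha
    obtain ⟨b', hb', rfl⟩ := mem_image.1 hb
    exact hAB a' ha' b' hb')
  have hf : ∀ C, f C 0 m = Sm P c y C 0 m := by
    intro C
    simp only [f]
    rw [Nat.sub_zero]
    exact mul_div_cancel_right₀ _ (pow_ne_zero _ hN0)
  rw [hf, hf, hf] at key
  have hmem : ∀ (C : Finset (Fin m)) (a : Fin m), a.1 ∈ C.image Fin.val ↔ a ∈ C := by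
    intro C a
    rw [mem_image]
    constructor
    · rintro ⟨b, hb, h⟩
      rwa [← Fin.ext h]
    · intro h
      exact ⟨a, h, rfl⟩
  have hS : ∀ C : Finset (Fin m), Sm P c y (C.image Fin.val) 0 m =
      ∑ X : Fin m → α, if (∀ a ∈ C, X a = y a) then P (extw c X) 0 m else 0 := by
    intro C
    unfold Sm
    refine Finset.sum_congr rfl fun X _ => ?_
    unfold ind
    by_cases h : ∀ a ∈ C, X a = y a
    · rw [if_pos h, if_pos (fun a ha _ _ => h a ((hmem C a).1 ha)), one_mul]
    · rw [if_neg h, if_neg (fun h2 => h fun a ha => h2 a ((hmem C a).2 ha) (by omega) a.2),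
        zero_mul]
  have hSU : Sm P c y (A.image Fin.val ∪ B.image Fin.val) 0 m =
      ∑ X : Fin m → α, if (∀ a ∈ A, X a = y a) ∧ (∀ b ∈ B, X b = y b) then
        P (extw c X) 0 m else 0 := by
    unfold Sm
    refine Finset.sum_congr rfl fun X _ => ?_
    unfold ind
    by_cases h : (∀ a ∈ A, X a = y a) ∧ (∀ b ∈ B, X b = y b)
    · rw [if_pos h, if_pos (fun a ha _ _ => ?_), one_mul]
      rcases mem_union.1 ha with h1 | h1
      · exact h.1 a ((hmem A a).1 h1)
      · exact h.2 a ((hmem B a).1 h1)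
    · rw [if_neg h, if_neg (fun h2 => h ⟨fun a ha => h2 a (mem_union_left _ ((hmem A a).2 ha))
        (by omega) a.2, fun a ha => h2 a (mem_union_right _ ((hmem B a).2 ha)) (by omega) a.2⟩),
        zero_mul]
  rw [hS, hS, hSU] at key
  exact key

end Pool.Agent.H144R4.Cyc.PInd
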