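import Mathlib
import Pool.Agent.H144R4.Cyc.Stmts

set_option autoImplicit false

namespace Pool.Agent.H144R4.Cyc.Pos

open Finset Pool.Agent.H144R4.Cyc

variable {α : Type} [Fintype α] [DecidableEq α]

theorem nb_none (a : α) : nb (none : Option α) a = 1 := by simp [nb]

theorem nb_nonneg (β : Option α) (a : α) : 0 ≤ nb β a := by
  unfold nb; split_ifs <;> norm_num

theorem nb_le_one (β : Option α) (a : α) : nb β a ≤ 1 := by
  unfold nb; split_ifs <;> norm_num

theorem nb_ne (b a : α) (h : a ≠ b) : nb (some b) a = 1 := by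
  unfold nb
  rw [if_neg]
  intro h2
  exact h (Option.some.inj h2).symm

theorem V_nonneg {t : ℝ} (ht : 0 ≤ t) (x : ℕ → α) (hW : ∀ u w i j, 0 ≤ W t x u i j w) (β : Option α) :
    ∀ m : ℕ, ∀ (u w : Option α) (i j : ℕ), j - i ≤ m → 0 ≤ V t x β u i j w := by
  intro m
  induction m with
  | zero =>
    intro u w i j h
    rw [V_eq, Finset.Ico_eq_empty_of_le (by omega)]
    simp only [Finset.sum_empty, add_zero]
    exact mul_nonneg (pow_nonneg ht _) (hW _ _ _ _)
  | succ m ih =>
    intro u w i j h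
    rw [V_eq]
    refine add_nonneg (mul_nonneg (pow_nonneg ht _) (hW _ _ _ _)) (Finset.sum_nonneg fun k hk => ?_)
    have hk' := Finset.mem_Ico.1 hk
    exact mul_nonneg (mul_nonneg (mul_nonneg (nb_nonneg _ _) (pow_nonneg ht _)) (hW _ _ _ _))
      (ih _ _ _ _ (by omega))

theorem V_le {t : ℝ} (ht : 0 ≤ t) (x : ℕ → α) (hW : ∀ u w i j, 0 ≤ W t x u i j w) (β : Option α) :
    ∀ m : ℕ, ∀ (u w : Option α) (i j : ℕ), j - i ≤ m → V t x β u i j w ≤ V t x none u i j w := by
  intro m
  induction m with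
  | zero =>
    intro u w i j h
    rw [V_eq, V_eq t x none, Finset.Ico_eq_empty_of_le (by omega)]
    simp only [Finset.sum_empty, add_zero]
    exact le_rfl
  | succ m ih =>
    intro u w i j h
    rw [V_eq, V_eq t x none]
    refine add_le_add le_rfl (Finset.sum_le_sum fun k hk => ?_)
    have hk' := Finset.mem_Ico.1 hk
    have hv := ih (some (x k)) w (k + 1) j (by omega)
    have hv0 := V_nonneg ht x hW β (j - (k + 1)) (some (x k)) w (k + 1) j le_rfl
    rw [nb_none]
    have h1 : nb β (x k) * t ^ (k - i) * W t x u i k (some (x k)) ≤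
        1 * t ^ (k - i) * W t x u i k (some (x k)) :=
      mul_le_mul_of_nonneg_right
        (mul_le_mul_of_nonneg_right (nb_le_one _ _) (pow_nonneg ht _)) (hW _ _ _ _)
    exact mul_le_mul h1 hv hv0
      (mul_nonneg (mul_nonneg zero_le_one (pow_nonneg ht _)) (hW _ _ _ _))

theorem V_same {t : ℝ} (x : ℕ → α) (b : α) :
    ∀ m : ℕ, ∀ (u w : Option α) (i j : ℕ), j - i ≤ m → (∀ k, i ≤ k → k < j → x k ≠ b) →
      V t x (some b) u i j w = V t x none u i j w := by
  intro m
  induction m with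
  | zero =>
    intro u w i j h _
    rw [V_eq, V_eq t x none, Finset.Ico_eq_empty_of_le (by omega)]
    simp only [Finset.sum_empty, add_zero]
  | succ m ih =>
    intro u w i j h hx
    rw [V_eq, V_eq t x none]
    congr 1
    refine Finset.sum_congr rfl fun k hk => ?_
    have hk' := Finset.mem_Ico.1 hk
    rw [nb_none, nb_ne b (x k) (hx k hk'.1 hk'.2), ih _ _ _ _ (by omega)
      (fun l hl hl' => hx l (by omega) hl')]

theorem RR_nonneg {t : ℝ} (ht : 0 ≤ t) (x : ℕ → α) (hW : ∀ u w i j, 0 ≤ W t x u i j w)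
    (β : Option α) (n : ℕ) : 0 ≤ RR t β x n := by
  unfold RR
  refine Finset.sum_nonneg fun i _ => Finset.sum_nonneg fun l _ => ?_
  exact mul_nonneg (mul_nonneg (mul_nonneg (mul_nonneg (nb_nonneg _ _) (nb_nonneg _ _))
    (V_nonneg ht x hW β _ _ _ _ _ le_rfl)) (pow_nonneg ht _)) (hW _ _ _ _)

theorem RR_le {t : ℝ} (ht : 0 ≤ t) (x : ℕ → α) (hW : ∀ u w i j, 0 ≤ W t x u i j w)
    (β : Option α) (n : ℕ) : RR t β x n ≤ RR t none x n := by
  unfold RR
  refine Finset.sum_le_sum fun i _ => Finset.sum_le_sum fun l _ => ?_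
  refine mul_le_mul_of_nonneg_right (mul_le_mul_of_nonneg_right ?_ (pow_nonneg ht _)) (hW _ _ _ _)
  refine mul_le_mul ?_ (V_le ht x hW β _ _ _ _ _ le_rfl) (V_nonneg ht x hW β _ _ _ _ _ le_rfl) ?_
  · rw [nb_none, nb_none]
    exact mul_le_mul (nb_le_one _ _) (nb_le_one _ _) (nb_nonneg _ _) zero_le_one
  · exact mul_nonneg (nb_nonneg _ _) (nb_nonneg _ _)

theorem RR_same {t : ℝ} (x : ℕ → α) (b : α) (n : ℕ) (hx : ∀ k < n, x k ≠ b) :
    RR t (some b) x n = RR t none x n := by
  unfold RR
  refine Finset.sum_congr rfl fun i hi => Finset.sum_congr rfl fun l hl => ?_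
  have hi' := Finset.mem_range.1 hi
  have hl' := Finset.mem_Ico.1 hl
  rw [nb_ne b (x i) (hx i hi'), nb_ne b (x l) (hx l hl'.2), nb_none, nb_none,
    V_same x b _ _ _ _ _ le_rfl (fun k hk hk' => hx k (by omega))]

theorem pow_bound {t : ℝ} (ht : 0 < t) (ht2 : t ≤ 1 / 2) (n : ℕ) : (n : ℝ) * t ^ n ≤ 1 := by
  have h1 : t ^ n ≤ (1 / 2 : ℝ) ^ n := pow_le_pow_left₀ ht.le ht2 n
  have h2 : (n : ℝ) ≤ 2 ^ n := by exact_mod_cast (Nat.lt_two_pow_self (n := n)).le
  calc (n : ℝ) * t ^ n ≤ 2 ^ n * (1 / 2 : ℝ) ^ n :=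
        mul_le_mul h2 h1 (pow_nonneg ht.le n) (by positivity)
    _ = 1 := by rw [← mul_pow]; norm_num

theorem pos : StImp → StCong → StPos := by
  intro himp _ α _ _ t ht ht2 x n hn _
  have hW : ∀ u w i j, 0 ≤ W t x u i j w := fun u w i j =>
    (himp α t ht (by linarith) x u w i j).1
  have h0 : 0 ≤ RR t none x n := RR_nonneg ht.le x hW none n
  have hsum : ∑ b : α, (RR t none x n - RR t (some b) x n) ≤ n * RR t none x n := by
    have h1 : ∑ b : α, (RR t none x n - RR t (some b) x n) =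
        ∑ b ∈ (range n).image x, (RR t none x n - RR t (some b) x n) := by
      symm
      refine Finset.sum_subset (Finset.subset_univ _) fun b _ hb => ?_
      rw [RR_same x b n, sub_self]
      intro k hk hkb
      exact hb (Finset.mem_image.2 ⟨k, Finset.mem_range.2 hk, hkb⟩)
    rw [h1]
    calc ∑ b ∈ (range n).image x, (RR t none x n - RR t (some b) x n)
        ≤ ∑ _b ∈ (range n).image x, RR t none x n :=
          Finset.sum_le_sum fun b _ => by
            have := RR_nonneg ht.le x hW (some b) n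
            linarith
      _ = (((range n).image x).card : ℝ) * RR t none x n := by
          rw [Finset.sum_const, nsmul_eq_mul]
      _ ≤ n * RR t none x n := by
          refine mul_le_mul_of_nonneg_right ?_ h0
          have := Finset.card_image_le (s := range n) (f := x)
          rw [Finset.card_range] at this
          exact_mod_cast this
  unfold RT
  have hp : 0 ≤ t ^ n := pow_nonneg ht.le n
  have h3 : t ^ n * ∑ b : α, (RR t none x n - RR t (some b) x n) ≤ t ^ n * (n * RR t none x n) :=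
    mul_le_mul_of_nonneg_left hsum hp
  have h4 : (n : ℝ) * t ^ n ≤ 1 := pow_bound ht ht2 n
  have h5 : t ^ n * (n * RR t none x n) ≤ 1 * RR t none x n := by
    calc t ^ n * (n * RR t none x n) = ((n : ℝ) * t ^ n) * RR t none x n := by ring
      _ ≤ 1 * RR t none x n := mul_le_mul_of_nonneg_right h4 h0
  have h6 : 0 ≤ t ^ n * RR t none x n := mul_nonneg hp h0
  linarith

end Pool.Agent.H144R4.Cyc.Pos
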