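import Pool.Agent.H144R4.Cyc.Stmts

set_option autoImplicit false

/-! # Rotation invariance of the cyclic sum -/

namespace Pool.Agent.H144R4.Cyc.Rot

open Finset Pool.Agent.H144R4.Cyc

theorem rot : StVR → StCong → StRot := by
  intro hVR hC α _ _ t _ _ x n hn hper β
  obtain ⟨m, rfl⟩ : ∃ m, n = m + 1 := ⟨n - 1, by omega⟩
  set T : ℕ → ℕ → ℝ := fun i l => nb β (x i) * nb β (x l) *
    V t x β (some (x i)) (i + 1) l (some (x l)) * t ^ (m + 1 - 1 - (l - i)) *
    W t x (some (x l)) (l + 1) (i + (m + 1)) (some (x i)) with hT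
  have e1 : RR t β x (m + 1) = ∑ i ∈ range (m + 1), ∑ l ∈ Ico (i + 1) (m + 1), T i l := rfl
  have e2 : RR t β (fun k => x (k + 1)) (m + 1) =
      ∑ i ∈ range (m + 1), ∑ l ∈ Ico (i + 1) (m + 1), T (i + 1) (l + 1) := by
    unfold RR
    refine sum_congr rfl fun i _ => sum_congr rfl fun l _ => ?_
    have h1 := (hC α t x (fun k => x (k + 1)) β (some (x (i + 1))) (some (x (l + 1))) (i + 1) l 1
      (fun k _ _ => rfl)).2
    have h2 := (hC α t x (fun k => x (k + 1)) β (some (x (l + 1))) (some (x (i + 1))) (l + 1)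
      (i + (m + 1)) 1 (fun k _ _ => rfl)).1
    have h3 : i + 1 + (m + 1) = i + (m + 1) + 1 := by omega
    have h4 : l + 1 - (i + 1) = l - i := by omega
    simp only [hT]
    rw [h3, h1, h2, h4]
  have e3 : ∀ i ∈ range m, ∑ l ∈ Ico (i + 1) (m + 1), T (i + 1) (l + 1) =
      ∑ l ∈ Ico (i + 1 + 1) (m + 1), T (i + 1) l + T (i + 1) (m + 1) := by
    intro i hi
    rw [mem_range] at hi
    rw [Finset.sum_Ico_add' (fun l => T (i + 1) l) (i + 1) (m + 1) 1,
      Finset.sum_Ico_succ_top (by omega)]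
  have e4 : ∑ i ∈ range m, T (i + 1) (m + 1) = ∑ i ∈ Ico 1 (m + 1), T i (m + 1) := by
    rw [range_eq_Ico, Finset.sum_Ico_add' (fun i => T i (m + 1)) 0 m 1]
  have hx0 : x (m + 1) = x 0 := by
    have := hper 0
    rwa [Nat.zero_add] at this
  have e5 : ∑ i ∈ Ico 1 (m + 1), T i (m + 1) = nb β (x 0) *
      (V t x β (some (x 0)) 1 (m + 1) (some (x 0)) - t ^ (m + 1 - 1) * W t x (some (x 0)) 1 (m + 1) (some (x 0))) := by
    rw [V_eq t x β (some (x 0)) 1 (m + 1) (some (x 0)), add_sub_cancel_left, mul_sum]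
    refine sum_congr rfl fun i hi => ?_
    rw [mem_Ico] at hi
    have h1 := (hC α t x x β (some (x 0)) (some (x i)) 1 i (m + 1) (fun k _ _ => hper k)).1
    have h2 : m + 1 - 1 - (m + 1 - i) = i - 1 := by omega
    have h3 : m + 1 + 1 = 1 + (m + 1) := by omega
    simp only [hT]
    rw [hx0, h2, h3, h1]
    ring
  have e6 : ∑ l ∈ Ico (0 + 1) (m + 1), T 0 l = nb β (x 0) *
      (V t x β (some (x 0)) 1 (m + 1) (some (x 0)) - t ^ (m + 1 - 1) * W t x (some (x 0)) 1 (m + 1) (some (x 0))) := by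
    rw [hVR α t x β (some (x 0)) (some (x 0)) 1 (m + 1), add_sub_cancel_left, mul_sum]
    refine sum_congr rfl fun l hl => ?_
    simp only [hT]
    rw [Nat.sub_zero, Nat.zero_add, Nat.zero_add]
    ring
  rw [e1, e2, sum_range_succ, Ico_self, sum_empty, add_zero, sum_congr rfl e3, sum_add_distrib,
    e4, e5, ← e6, sum_range_succ' (fun i => ∑ l ∈ Ico (i + 1) (m + 1), T i l)]

end Pool.Agent.H144R4.Cyc.Rot
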