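import Pool.Agent.H144R4.Cyc.Stmts

set_option autoImplicit false

namespace Pool.Agent.H144R4.Cyc.Sym

open Finset Pool.Agent.H144R4.Cyc

variable {α : Type} [Fintype α] [DecidableEq α]

theorem ok_map (σ : Equiv.Perm α) (u w : Option α) : ok (u.map σ) (w.map σ) = ok u w := by
  unfold ok
  have h1 : (u.map σ = w.map σ ∧ u.map σ ≠ none) ↔ (u = w ∧ u ≠ none) := by
    rw [(Option.map_injective σ.injective).eq_iff]
    simp only [ne_eq, Option.map_eq_none_iff]
  exact if_congr h1 rfl rfl

theorem nb_map (σ : Equiv.Perm α) (β : Option α) (a : α) : nb (β.map σ) (σ a) = nb β a := by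
  unfold nb
  have h : (β.map σ = some (σ a)) ↔ (β = some a) :=
    (Option.map_injective σ.injective).eq_iff (a := β) (b := some a)
  exact if_congr h rfl rfl

theorem W_map (t : ℝ) (x : ℕ → α) (σ : Equiv.Perm α) : ∀ (m : ℕ) (u w : Option α) (i j : ℕ),
    j - i ≤ m → W t (fun k => σ (x k)) (u.map σ) i j (w.map σ) = W t x u i j w := by
  intro m
  induction m with
  | zero =>
    intro u w i j h
    rw [W_nil _ _ _ _ _ _ (by omega), W_nil _ _ _ _ _ _ (by omega), ok_map]
  | succ m ih =>
    intro u w i j h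
    by_cases hij : i < j
    · rw [W_step _ _ _ _ _ _ hij, W_step _ _ _ _ _ _ hij, ok_map]
      congr 1
      refine Finset.sum_congr rfl fun k hk => ?_
      rw [Finset.mem_Ico] at hk
      have h1 : some (σ (x k)) = (some (x k)).map σ := rfl
      rw [h1, ih u (some (x k)) i k (by omega), ih (some (x k)) w (k + 1) j (by omega)]
    · rw [W_nil _ _ _ _ _ _ (by omega), W_nil _ _ _ _ _ _ (by omega), ok_map]

theorem W_map' (t : ℝ) (x : ℕ → α) (σ : Equiv.Perm α) (u w : Option α) (i j : ℕ) :
    W t (fun k => σ (x k)) (u.map σ) i j (w.map σ) = W t x u i j w :=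
  W_map t x σ (j - i) u w i j le_rfl

theorem V_map (t : ℝ) (x : ℕ → α) (σ : Equiv.Perm α) (β : Option α) : ∀ (m : ℕ) (u w : Option α)
    (i j : ℕ), j - i ≤ m →
    V t (fun k => σ (x k)) (β.map σ) (u.map σ) i j (w.map σ) = V t x β u i j w := by
  intro m
  induction m with
  | zero =>
    intro u w i j h
    rw [V_eq, V_eq, W_map', Finset.Ico_eq_empty (by omega), Finset.sum_empty, Finset.sum_empty]
  | succ m ih =>
    intro u w i j h
    rw [V_eq, V_eq, W_map']
    congr 1
    refine Finset.sum_congr rfl fun k hk => ?_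
    rw [Finset.mem_Ico] at hk
    have h1 : some (σ (x k)) = (some (x k)).map σ := rfl
    rw [nb_map, h1, W_map' t x σ u (some (x k)) i k, ih (some (x k)) w (k + 1) j (by omega)]

theorem V_map' (t : ℝ) (x : ℕ → α) (σ : Equiv.Perm α) (β u w : Option α) (i j : ℕ) :
    V t (fun k => σ (x k)) (β.map σ) (u.map σ) i j (w.map σ) = V t x β u i j w :=
  V_map t x σ β (j - i) u w i j le_rfl

theorem RR_map (t : ℝ) (x : ℕ → α) (σ : Equiv.Perm α) (β : Option α) (n : ℕ) :
    RR t (β.map σ) (fun k => σ (x k)) n = RR t β x n := by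
  unfold RR
  refine Finset.sum_congr rfl fun i _ => Finset.sum_congr rfl fun l _ => ?_
  have h1 : ∀ k, some (σ (x k)) = (some (x k)).map σ := fun _ => rfl
  rw [nb_map, nb_map, h1, h1, V_map', W_map']

theorem sym : StSym := by
  intro α _ _ t x β u w i j n σ
  refine ⟨W_map' t x σ u w i j, V_map' t x σ β u w i j, RR_map t x σ β n, ?_⟩
  unfold RT
  have h0 : RR t none (fun k => σ (x k)) n = RR t none x n := RR_map t x σ none n
  rw [h0]
  congr 2
  rw [← Equiv.sum_comp σ (fun b => RR t none x n - RR t (some b) (fun k => σ (x k)) n)]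
  refine Finset.sum_congr rfl fun b _ => ?_
  have h1 : RR t (some (σ b)) (fun k => σ (x k)) n = RR t (some b) x n :=
    RR_map t x σ (some b) n
  rw [h1]

end Pool.Agent.H144R4.Cyc.Sym
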