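import Mathlib
import Pool.Agent.H144R4.Cyc.Stmts

/-! VR: right recursion for V (helper30). -/

set_option autoImplicit false

namespace Pool.Agent.H144R4.Cyc.VR

open Finset Pool.Agent.H144R4.Cyc

theorem vr : StVR := by
  intro α _ _ t x β u w i j
  induction h : j - i using Nat.strong_induction_on generalizing u i with
  | _ d ih =>
    subst h
    have hV : ∀ k ∈ Ico i j, nb β (x k) * t ^ (k - i) * W t x u i k (some (x k)) *
        V t x β (some (x k)) (k + 1) j w =
        nb β (x k) * (t ^ (k - i) * W t x u i k (some (x k))) * t ^ (j - 1 - k) *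
          W t x (some (x k)) (k + 1) j w +
        ∑ l ∈ Ico (k + 1) j, nb β (x l) * (nb β (x k) * t ^ (k - i) * W t x u i k (some (x k)) *
          V t x β (some (x k)) (k + 1) l (some (x l))) * t ^ (j - 1 - l) *
          W t x (some (x l)) (l + 1) j w := by
      intro k hk
      rw [Finset.mem_Ico] at hk
      rw [ih (j - (k + 1)) (by omega) (some (x k)) (k + 1) rfl]
      have e1 : j - (k + 1) = j - 1 - k := by omega
      rw [e1, mul_add, Finset.mul_sum]
      congr 1
      · ring
      · apply Finset.sum_congr rfl
        intro l _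
        ring
    have hR : ∀ l ∈ Ico i j, nb β (x l) * V t x β u i l (some (x l)) * t ^ (j - 1 - l) *
        W t x (some (x l)) (l + 1) j w =
        nb β (x l) * (t ^ (l - i) * W t x u i l (some (x l))) * t ^ (j - 1 - l) *
          W t x (some (x l)) (l + 1) j w +
        ∑ k ∈ Ico i l, nb β (x l) * (nb β (x k) * t ^ (k - i) * W t x u i k (some (x k)) *
          V t x β (some (x k)) (k + 1) l (some (x l))) * t ^ (j - 1 - l) *
          W t x (some (x l)) (l + 1) j w := by
      intro l _
      rw [V_eq t x β u i l (some (x l)), mul_add, add_mul, add_mul, Finset.mul_sum,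
        Finset.sum_mul, Finset.sum_mul]
    rw [V_eq t x β u i j w, Finset.sum_congr rfl hV, Finset.sum_congr rfl hR,
      Finset.sum_add_distrib, Finset.sum_add_distrib, Finset.sum_Ico_Ico_comm']

end Pool.Agent.H144R4.Cyc.VR
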