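import Pool.Agent.H144R4.Cyc.Stmts

set_option autoImplicit false

namespace Pool.Agent.H144R4.Cyc.X2

open Finset Pool.Agent.H144R4.Cyc

variable {α : Type} [Fintype α] [DecidableEq α]

theorem ok_self (w : α) : ok (some w) (some w) = 0 := by simp [ok]

theorem ok_none_right (u : Option α) : ok u none = 1 := by
  unfold ok
  rw [if_neg]
  rintro ⟨h1, h2⟩
  exact h2 h1

theorem ok_ne (u : Option α) (w : α) (h : u ≠ some w) : ok u (some w) = 1 := by
  unfold ok
  rw [if_neg]
  rintro ⟨h1, _⟩
  exact h h1

theorem W_self (t : ℝ) (x : ℕ → α) (w : α) (i j : ℕ) : W t x (some w) i j (some w) = 0 := by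
  by_cases h : i < j
  · rw [W_step _ _ _ _ _ _ h, ok_self, zero_mul, zero_mul]
  · rw [W_nil _ _ _ _ _ _ (not_lt.mp h), ok_self]

theorem pow_ne (t : ℝ) (ht0 : 0 < t) (ht1 : t < 1) (n : ℕ) (hn : n ≠ 0) : 1 - t ^ n ≠ 0 := by
  have : t ^ n < 1 := pow_lt_one₀ ht0.le ht1 hn
  linarith

/-- the recursion without the denominator -/
theorem W_mul (t : ℝ) (ht0 : 0 < t) (ht1 : t < 1) (x : ℕ → α) (u w : Option α) (i j : ℕ)
    (hij : i ≤ j) (hok : ok u w = 1) :
    (1 - t ^ (j - i)) * W t x u i j w = ∑ k ∈ Ico i j,
      t ^ (k - i) * W t x u i k (some (x k)) * W t x (some (x k)) (k + 1) j w := by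
  rcases hij.eq_or_lt with rfl | h
  · simp
  · rw [W_step _ _ _ _ _ _ h, hok, one_mul, ← mul_assoc, mul_inv_cancel₀, one_mul]
    exact pow_ne t ht0 ht1 _ (by omega)

theorem aux (t : ℝ) (ht0 : 0 < t) (ht1 : t < 1) (x : ℕ → α) (w : α) (n : ℕ) :
    ∀ (u : Option α) (i j : ℕ), j - i = n → i ≤ j → u ≠ some w →
    W t x u i j none - W t x u i j (some w) = ∑ k ∈ Ico i j, if x k = w then
      1 / (1 - t ^ (j - k)) * W t x u i k (some w) * W t x (some w) (k + 1) j none
      else 0 := by
  induction n using Nat.strong_induction_on with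
  | _ n ih =>
    intro u i j hn hij hu
    rcases hij.eq_or_lt with rfl | hlt
    · rw [W_nil _ _ _ _ _ _ le_rfl, W_nil _ _ _ _ _ _ le_rfl, ok_none_right, ok_ne u w hu]
      simp
    have hne : 1 - t ^ (j - i) ≠ 0 := pow_ne t ht0 ht1 _ (by omega)
    -- the brackets
    have hD : ∀ m ∈ Ico i j, W t x (some (x m)) (m + 1) j none -
        W t x (some (x m)) (m + 1) j (some w) =
        (if x m = w then W t x (some w) (m + 1) j none else 0) +
        ∑ k ∈ Ico (m + 1) j, if x k = w then
          1 / (1 - t ^ (j - k)) * W t x (some (x m)) (m + 1) k (some w) *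
            W t x (some w) (k + 1) j none else 0 := by
      intro m hm
      rw [mem_Ico] at hm
      by_cases hxm : x m = w
      · rw [if_pos hxm, hxm, W_self, sub_zero]
        have : ∑ k ∈ Ico (m + 1) j, (if x k = w then
          1 / (1 - t ^ (j - k)) * W t x (some w) (m + 1) k (some w) *
            W t x (some w) (k + 1) j none else 0) = 0 := by
          apply Finset.sum_eq_zero
          intro k _
          rw [W_self, mul_zero, zero_mul, ite_self]
        rw [this, add_zero]
      · rw [if_neg hxm, zero_add]
        exact ih (j - (m + 1)) (by omega) (some (x m)) (m + 1) j rfl (by omega)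
          (fun h => hxm (Option.some.inj h))
    have h1 : (1 - t ^ (j - i)) * (W t x u i j none - W t x u i j (some w)) =
        ∑ m ∈ Ico i j, (t ^ (m - i) * W t x u i m (some (x m)) *
          (if x m = w then W t x (some w) (m + 1) j none else 0) +
        ∑ k ∈ Ico (m + 1) j, if x k = w then
          1 / (1 - t ^ (j - k)) * W t x (some w) (k + 1) j none *
            (t ^ (m - i) * W t x u i m (some (x m)) *
              W t x (some (x m)) (m + 1) k (some w)) else 0) := by
      rw [mul_sub, W_mul t ht0 ht1 x u none i j hij (ok_none_right u),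
        W_mul t ht0 ht1 x u (some w) i j hij (ok_ne u w hu), ← Finset.sum_sub_distrib]
      refine Finset.sum_congr rfl fun m hm => ?_
      rw [← mul_sub, hD m hm, mul_add]
      congr 1
      rw [Finset.mul_sum]
      refine Finset.sum_congr rfl fun k _ => ?_
      split_ifs
      · ring
      · ring
    have h2 : ∑ m ∈ Ico i j, ∑ k ∈ Ico (m + 1) j, (if x k = w then
          1 / (1 - t ^ (j - k)) * W t x (some w) (k + 1) j none *
            (t ^ (m - i) * W t x u i m (some (x m)) *
              W t x (some (x m)) (m + 1) k (some w)) else 0) =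
        ∑ k ∈ Ico i j, if x k = w then
          1 / (1 - t ^ (j - k)) * W t x (some w) (k + 1) j none *
            ((1 - t ^ (k - i)) * W t x u i k (some w)) else 0 := by
      rw [Finset.sum_comm' (t' := Ico i j) (s' := fun k => Ico i k) (by
        intro m k
        simp only [mem_Ico]
        omega)]
      refine Finset.sum_congr rfl fun k hk => ?_
      rw [mem_Ico] at hk
      by_cases hxk : x k = w
      · simp only [if_pos hxk]
        rw [← Finset.mul_sum, W_mul t ht0 ht1 x u (some w) i k hk.1 (ok_ne u w hu)]
      · simp only [if_neg hxk, Finset.sum_const_zero]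
    rw [Finset.sum_add_distrib, h2, ← Finset.sum_add_distrib] at h1
    have h3 : (1 - t ^ (j - i)) * (W t x u i j none - W t x u i j (some w)) =
        (1 - t ^ (j - i)) * ∑ k ∈ Ico i j, if x k = w then
          1 / (1 - t ^ (j - k)) * W t x u i k (some w) * W t x (some w) (k + 1) j none
          else 0 := by
      rw [h1, Finset.mul_sum]
      refine Finset.sum_congr rfl fun k hk => ?_
      rw [mem_Ico] at hk
      by_cases hxk : x k = w
      · simp only [if_pos hxk]
        rw [hxk]
        have hk' : 1 - t ^ (j - k) ≠ 0 := pow_ne t ht0 ht1 _ (by omega)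
        have hpow : t ^ (j - i) = t ^ (k - i) * t ^ (j - k) := by
          rw [← pow_add]; congr 1; omega
        rw [hpow]
        field_simp
        ring
      · simp only [if_neg hxk, mul_zero, add_zero]
    exact mul_left_cancel₀ hne h3

theorem x2 : StX2 := by
  intro α _ _ t ht0 ht1 x u w i j hij hu
  exact aux t ht0 ht1 x w (j - i) u i j rfl hij hu

end Pool.Agent.H144R4.Cyc.X2
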